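import Mathlib

/-!
# Pointwise algebra
-/

set_option autoImplicit false

namespace Pool.Agent.Sub70.LT

noncomputable def TT (dl u p : ℝ) : ℝ := Real.sqrt (u ^ 2 + dl ^ 2 * p ^ 2)

noncomputable def PP (dl c u p : ℝ) : ℝ := p * TT dl u p + c

noncomputable def DD (dl c u p q : ℝ) : ℝ := PP dl c u p ^ 2 + q ^ 2

noncomputable def al (dl c u p q : ℝ) : ℝ := PP dl c u p * u / (TT dl u p * DD dl c u p q)

noncomputable def be (dl c u p q : ℝ) : ℝ := q / DD dl c u p q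

noncomputable def aa (dl c u p q : ℝ) : ℝ := Real.log (DD dl c u p q) / 2

noncomputable def TT' (dl u p u' p' : ℝ) : ℝ := (u * u' + dl ^ 2 * (p * p')) / TT dl u p

noncomputable def PP' (dl u p u' p' : ℝ) : ℝ := p' * TT dl u p + p * TT' dl u p u' p'

noncomputable def DD' (dl c u p q u' p' q' : ℝ) : ℝ :=
  2 * PP dl c u p * PP' dl u p u' p' + 2 * q * q'

noncomputable def al' (dl c u p q u' p' q' : ℝ) : ℝ :=
  ((PP' dl u p u' p' * u + PP dl c u p * u') * (TT dl u p * DD dl c u p q) -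
    PP dl c u p * u * (TT' dl u p u' p' * DD dl c u p q + TT dl u p * DD' dl c u p q u' p' q')) /
    (TT dl u p * DD dl c u p q) ^ 2

noncomputable def be' (dl c u p q u' p' q' : ℝ) : ℝ :=
  (q' * DD dl c u p q - q * DD' dl c u p q u' p' q') / DD dl c u p q ^ 2

noncomputable def aa' (dl c u p q u' p' q' : ℝ) : ℝ :=
  DD' dl c u p q u' p' q' / DD dl c u p q / 2

variable {dl c : ℝ}

theorem TT_pos (hdl : 0 < dl) {p : ℝ} (hp : 0 < p) (u : ℝ) : 0 < TT dl u p :=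
  Real.sqrt_pos.2 (by positivity)

theorem TT_sq (u p : ℝ) : TT dl u p ^ 2 = u ^ 2 + dl ^ 2 * p ^ 2 :=
  Real.sq_sqrt (by positivity)

theorem abs_le_TT (u p : ℝ) : |u| ≤ TT dl u p :=
  Real.abs_le_sqrt (by nlinarith [sq_nonneg (dl * p)])

theorem PP_pos (hdl : 0 < dl) (hc : 0 < c) {p : ℝ} (hp : 0 < p) (u : ℝ) : 0 < PP dl c u p := by
  have := TT_pos hdl hp u
  unfold PP
  positivity

theorem c_le_PP (hdl : 0 < dl) {p : ℝ} (hp : 0 < p) (u : ℝ) : c ≤ PP dl c u p := by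
  have := mul_pos hp (TT_pos hdl hp u)
  unfold PP
  linarith

theorem DD_pos (hdl : 0 < dl) (hc : 0 < c) {p : ℝ} (hp : 0 < p) (u q : ℝ) :
    0 < DD dl c u p q := by
  have := PP_pos hdl hc hp u
  unfold DD
  positivity

section curve

variable {u p q : ℝ → ℝ} {u' p' q' t : ℝ}

theorem TT_deriv (hdl : 0 < dl) (hp : 0 < p t) (hu : HasDerivAt u u' t) (hpd : HasDerivAt p p' t) :
    HasDerivAt (fun t => TT dl (u t) (p t)) (TT' dl (u t) (p t) u' p') t := by
  have h1 : HasDerivAt (fun t => u t ^ 2 + dl ^ 2 * p t ^ 2)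
      (2 * (u t * u' + dl ^ 2 * (p t * p'))) t := by
    have := (hu.pow 2).add ((hpd.pow 2).const_mul (dl ^ 2))
    refine this.congr_deriv ?_
    norm_num
    ring
  have h2 := h1.sqrt (by positivity)
  refine h2.congr_deriv ?_
  unfold TT' TT
  rw [mul_div_mul_left _ _ two_ne_zero]

theorem PP_deriv (hdl : 0 < dl) (hp : 0 < p t) (hu : HasDerivAt u u' t) (hpd : HasDerivAt p p' t) :
    HasDerivAt (fun t => PP dl c (u t) (p t)) (PP' dl (u t) (p t) u' p') t :=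
  (hpd.mul (TT_deriv hdl hp hu hpd)).add_const c

theorem DD_deriv (hdl : 0 < dl) (hp : 0 < p t) (hu : HasDerivAt u u' t) (hpd : HasDerivAt p p' t)
    (hq : HasDerivAt q q' t) :
    HasDerivAt (fun t => DD dl c (u t) (p t) (q t)) (DD' dl c (u t) (p t) (q t) u' p' q') t := by
  have := ((PP_deriv (c := c) hdl hp hu hpd).pow 2).add (hq.pow 2)
  refine this.congr_deriv ?_
  unfold DD'
  norm_num

theorem al_deriv (hdl : 0 < dl) (hc : 0 < c) (hp : 0 < p t) (hu : HasDerivAt u u' t)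
    (hpd : HasDerivAt p p' t) (hq : HasDerivAt q q' t) :
    HasDerivAt (fun t => al dl c (u t) (p t) (q t)) (al' dl c (u t) (p t) (q t) u' p' q') t := by
  have h1 := ((PP_deriv (c := c) hdl hp hu hpd).mul hu).div
    ((TT_deriv hdl hp hu hpd).mul (DD_deriv (c := c) hdl hp hu hpd hq))
    (mul_pos (TT_pos hdl hp _) (DD_pos hdl hc hp _ _)).ne'
  exact h1

theorem be_deriv (hdl : 0 < dl) (hc : 0 < c) (hp : 0 < p t) (hu : HasDerivAt u u' t)
    (hpd : HasDerivAt p p' t) (hq : HasDerivAt q q' t) :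
    HasDerivAt (fun t => be dl c (u t) (p t) (q t)) (be' dl c (u t) (p t) (q t) u' p' q') t :=
  hq.div (DD_deriv (c := c) hdl hp hu hpd hq) (DD_pos hdl hc hp _ _).ne'

theorem aa_deriv (hdl : 0 < dl) (hc : 0 < c) (hp : 0 < p t) (hu : HasDerivAt u u' t)
    (hpd : HasDerivAt p p' t) (hq : HasDerivAt q q' t) :
    HasDerivAt (fun t => aa dl c (u t) (p t) (q t)) (aa' dl c (u t) (p t) (q t) u' p' q') t :=
  ((DD_deriv (c := c) hdl hp hu hpd hq).log (DD_pos hdl hc hp _ _).ne').div_const 2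

end curve

/-- The divergence, as an identity. -/
theorem div_id (hdl : 0 < dl) (hc : 0 < c) {u p q u1 u2 p1 p2 : ℝ} (hp : 0 < p) :
    al' dl c u p q u1 p1 (-(p * u2 - u * p2)) * (p * u1 - u * p1) +
      al' dl c u p q u2 p2 (p * u1 - u * p1) * (p * u2 - u * p2) -
      be' dl c u p q u1 p1 (-(p * u2 - u * p2)) * (u2 * p + u * p2) +
      be' dl c u p q u2 p2 (p * u1 - u * p1) * (u1 * p + u * p1) =
    dl ^ 2 * p / (TT dl u p ^ 3 * DD dl c u p q) *
      (PP dl c u p * ((p * u1 - u * p1) ^ 2 + (p * u2 - u * p2) ^ 2) +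
        p * TT dl u p * ((p * u1 - u * p1) ^ 2 + (p * u2 - u * p2) ^ 2) *
          (PP dl c u p ^ 2 - q ^ 2) / DD dl c u p q -
        4 * PP dl c u p * q * p * TT dl u p ^ 2 *
          (p1 * -(p * u2 - u * p2) + p2 * (p * u1 - u * p1)) / DD dl c u p q) := by
  have hT := TT_pos hdl hp u
  have hTs := TT_sq (dl := dl) u p
  have hD := DD_pos hdl hc hp u q
  unfold al' be' DD' PP' TT'
  set P := PP dl c u p with hP
  set T := TT dl u p with hTd
  have hDe : DD dl c u p q = P ^ 2 + q ^ 2 := rfl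
  rw [hDe] at hD ⊢
  have hk : dl ^ 2 = (T ^ 2 - u ^ 2) / p ^ 2 := by
    rw [hTs]
    field_simp
    ring
  rw [hk]
  have hT' : T ≠ 0 := hT.ne'
  have hp' : p ≠ 0 := hp.ne'
  have hD' : P ^ 2 + q ^ 2 ≠ 0 := hD.ne'
  field_simp
  ring

/-- The divergence is almost nonnegative. -/
theorem div_ge (hdl : 0 < dl) (hc : 0 < c) {u p q u1 u2 p1 p2 : ℝ} (hp : 0 < p) :
    -(dl ^ 2 * p ^ 2 * (p1 ^ 2 + p2 ^ 2) / (4 * c ^ 2)) ≤
    al' dl c u p q u1 p1 (-(p * u2 - u * p2)) * (p * u1 - u * p1) +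
      al' dl c u p q u2 p2 (p * u1 - u * p1) * (p * u2 - u * p2) -
      be' dl c u p q u1 p1 (-(p * u2 - u * p2)) * (u2 * p + u * p2) +
      be' dl c u p q u2 p2 (p * u1 - u * p1) * (u1 * p + u * p1) := by
  rw [div_id hdl hc hp]
  have hT := TT_pos hdl hp u
  have hD := DD_pos hdl hc hp u q
  have hP := PP_pos hdl hc hp u
  have hDe : DD dl c u p q = PP dl c u p ^ 2 + q ^ 2 := rfl
  have hPe : PP dl c u p = p * TT dl u p + c := rfl
  set P := PP dl c u p with hPd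
  set T := TT dl u p with hTd
  set D := DD dl c u p q with hDd
  set G1 := p * u1 - u * p1
  set G2 := p * u2 - u * p2
  set g := G1 ^ 2 + G2 ^ 2 with hg
  set m := p1 ^ 2 + p2 ^ 2 with hm
  set X := p1 * -G2 + p2 * G1 with hX
  have hg0 : 0 ≤ g := by positivity
  have hm0 : 0 ≤ m := by positivity
  have hX2 : X ^ 2 ≤ m * g := by
    have : m * g - X ^ 2 = (p1 * G1 + p2 * G2) ^ 2 := by
      rw [hm, hg, hX]
      ring
    nlinarith [sq_nonneg (p1 * G1 + p2 * G2)]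
  -- first part
  have e1 : -1 ≤ (P ^ 2 - q ^ 2) / D := by
    rw [le_div_iff₀ hD, hDe]
    nlinarith [sq_nonneg P]
  have e2 : -(p * T * g) ≤ p * T * g * (P ^ 2 - q ^ 2) / D := by
    rw [mul_div_assoc]
    have := mul_le_mul_of_nonneg_left e1 (by positivity : 0 ≤ p * T * g)
    linarith
  -- second part
  have e3 : |4 * P * q * p * T ^ 2 * X / D| ≤ c * g + p ^ 2 * T ^ 4 * m / c := by
    have h1 : |4 * P * q / D| ≤ 2 := by
      rw [abs_div, abs_of_pos hD, div_le_iff₀ hD, hDe]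
      refine abs_le.2 ⟨?_, ?_⟩
      · nlinarith [sq_nonneg (P + q)]
      · nlinarith [sq_nonneg (P - q)]
    have h2 : 4 * P * q * p * T ^ 2 * X / D = 4 * P * q / D * (p * T ^ 2 * X) := by ring
    rw [h2, abs_mul]
    have h3 : |4 * P * q / D| * |p * T ^ 2 * X| ≤ 2 * |p * T ^ 2 * X| :=
      mul_le_mul_of_nonneg_right h1 (abs_nonneg _)
    refine h3.trans ?_
    have h4 : 0 ≤ c * g + p ^ 2 * T ^ 4 * m / c := by positivity
    have h5 : |2 * (p * T ^ 2 * X)| ≤ c * g + p ^ 2 * T ^ 4 * m / c := by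
      refine abs_le_of_sq_le_sq ?_ h4
      have h6 : (2 * (p * T ^ 2 * X)) ^ 2 = 4 * (p ^ 2 * T ^ 4) * X ^ 2 := by ring
      have h7 : 4 * (p ^ 2 * T ^ 4) * X ^ 2 ≤ 4 * (p ^ 2 * T ^ 4) * (m * g) :=
        mul_le_mul_of_nonneg_left hX2 (by positivity)
      have h8 : 4 * (p ^ 2 * T ^ 4) * (m * g) = 4 * (c * g) * (p ^ 2 * T ^ 4 * m / c) := by
        field_simp
      rw [h6]
      refine h7.trans ?_
      rw [h8]
      nlinarith [sq_nonneg (c * g - p ^ 2 * T ^ 4 * m / c)]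
    rwa [abs_mul, abs_two] at h5
  have e4 := (abs_le.1 e3).2
  have e5 : -(p ^ 2 * T ^ 4 * m / c) ≤ P * g + p * T * g * (P ^ 2 - q ^ 2) / D -
      4 * P * q * p * T ^ 2 * X / D := by
    have : P * g - p * T * g = c * g := by
      rw [hPe]
      ring
    linarith
  have e6 : 0 ≤ dl ^ 2 * p / (T ^ 3 * D) := by positivity
  have e7 := mul_le_mul_of_nonneg_left e5 e6
  refine le_trans ?_ e7
  have e8 : dl ^ 2 * p / (T ^ 3 * D) * -(p ^ 2 * T ^ 4 * m / c) =
      -(dl ^ 2 * p ^ 2 * m / c * (p * T / D)) := by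
    field_simp
  rw [e8, neg_le_neg_iff]
  have e9 : p * T / D ≤ 1 / (4 * c) := by
    rw [div_le_div_iff₀ hD (by positivity), hDe, hPe]
    nlinarith [sq_nonneg (p * T - c), sq_nonneg q]
  calc dl ^ 2 * p ^ 2 * m / c * (p * T / D) ≤ dl ^ 2 * p ^ 2 * m / c * (1 / (4 * c)) :=
        mul_le_mul_of_nonneg_left e9 (by positivity)
    _ = dl ^ 2 * p ^ 2 * m / (4 * c ^ 2) := by
        field_simp

noncomputable def bx (dl c u p q p1 p2 : ℝ) : ℝ :=
  (2 * PP dl c u p * TT dl u p * p1 + 2 * u * q * p2) / DD dl c u p q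

noncomputable def by' (dl c u p q p1 p2 : ℝ) : ℝ :=
  (2 * PP dl c u p * TT dl u p * p2 - 2 * u * q * p1) / DD dl c u p q

theorem grad1 (hdl : 0 < dl) (hc : 0 < c) {u p q u1 u2 p1 p2 : ℝ} (hp : 0 < p) :
    aa' dl c u p q u1 p1 (-(p * u2 - u * p2)) =
      (al dl c u p q * (p * u1 - u * p1) - be dl c u p q * (u2 * p + u * p2)) +
        bx dl c u p q p1 p2 := by
  have hT := TT_pos hdl hp u
  have hTs := TT_sq (dl := dl) u p
  have hD := DD_pos hdl hc hp u q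
  unfold aa' al be bx DD' PP' TT'
  set P := PP dl c u p with hP
  set T := TT dl u p with hTd
  set D := DD dl c u p q
  have hk : dl ^ 2 = (T ^ 2 - u ^ 2) / p ^ 2 := by
    rw [hTs]
    field_simp
    ring
  rw [hk]
  have hT' : T ≠ 0 := hT.ne'
  have hp' : p ≠ 0 := hp.ne'
  have hD' : D ≠ 0 := hD.ne'
  field_simp
  ring

theorem grad2 (hdl : 0 < dl) (hc : 0 < c) {u p q u1 u2 p1 p2 : ℝ} (hp : 0 < p) :
    aa' dl c u p q u2 p2 (p * u1 - u * p1) =
      (al dl c u p q * (p * u2 - u * p2) + be dl c u p q * (u1 * p + u * p1)) +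
        by' dl c u p q p1 p2 := by
  have hT := TT_pos hdl hp u
  have hTs := TT_sq (dl := dl) u p
  have hD := DD_pos hdl hc hp u q
  unfold aa' al be by' DD' PP' TT'
  set P := PP dl c u p with hP
  set T := TT dl u p with hTd
  set D := DD dl c u p q
  have hk : dl ^ 2 = (T ^ 2 - u ^ 2) / p ^ 2 := by
    rw [hTs]
    field_simp
    ring
  rw [hk]
  have hT' : T ≠ 0 := hT.ne'
  have hp' : p ≠ 0 := hp.ne'
  have hD' : D ≠ 0 := hD.ne'
  field_simp
  ring

theorem b_le (hdl : 0 < dl) (hc : 0 < c) {u p q p1 p2 : ℝ} (hp : 0 < p) :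
    bx dl c u p q p1 p2 ^ 2 + by' dl c u p q p1 p2 ^ 2 ≤ 4 * (p1 ^ 2 + p2 ^ 2) / p ^ 2 := by
  have hT := TT_pos hdl hp u
  have hTs := TT_sq (dl := dl) u p
  have hD := DD_pos hdl hc hp u q
  have hDe : DD dl c u p q = PP dl c u p ^ 2 + q ^ 2 := rfl
  have hPe : PP dl c u p = p * TT dl u p + c := rfl
  unfold bx by'
  set P := PP dl c u p with hP
  set T := TT dl u p with hTd
  set D := DD dl c u p q
  set m := p1 ^ 2 + p2 ^ 2 with hm
  have e1 : ((2 * P * T * p1 + 2 * u * q * p2) / D) ^ 2 + ((2 * P * T * p2 - 2 * u * q * p1) / D) ^ 2 =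
      4 * (P ^ 2 * T ^ 2 + u ^ 2 * q ^ 2) * m / D ^ 2 := by
    rw [div_pow, div_pow, ← add_div, hm]
    congr 1
    ring
  rw [e1, div_le_div_iff₀ (by positivity) (by positivity)]
  have hu : u ^ 2 ≤ T ^ 2 := by nlinarith [sq_nonneg (dl * p)]
  have e2 : P ^ 2 * T ^ 2 + u ^ 2 * q ^ 2 ≤ T ^ 2 * D := by
    rw [hDe]
    nlinarith [mul_le_mul_of_nonneg_right hu (sq_nonneg q)]
  have e3 : T ^ 2 * p ^ 2 ≤ D := by
    rw [hDe, hPe]
    nlinarith [mul_pos hp hT, sq_nonneg q]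
  have e4 : (P ^ 2 * T ^ 2 + u ^ 2 * q ^ 2) * p ^ 2 ≤ D * D := by
    calc (P ^ 2 * T ^ 2 + u ^ 2 * q ^ 2) * p ^ 2 ≤ T ^ 2 * D * p ^ 2 :=
          mul_le_mul_of_nonneg_right e2 (sq_nonneg _)
      _ = D * (T ^ 2 * p ^ 2) := by ring
      _ ≤ D * D := mul_le_mul_of_nonneg_left e3 hD.le
  have hm0 : 0 ≤ m := by positivity
  nlinarith [mul_le_mul_of_nonneg_left e4 hm0]

end Pool.Agent.Sub70.LT
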