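import Pool.Agent.Sub70.LT.Main

/-!
# The average of the doubling indices on a Liouville torus: conclusion
-/

set_option autoImplicit false

namespace Pool.Agent.Sub70.LT

open Set MeasureTheory Function Pool.Agent.R220.LV Pool.Agent.Y291.DB

theorem average (f g : ℝ → ℝ) (L : ℝ) (hL : 0 < L) (hf : Continuous f) (hg : Continuous g)
    (hfL : ∀ x, f (x + L) = f x) (hgp : ∀ y, g (y + 2 * Real.pi) = g y)
    (hpos : ∀ x y, 0 < f x + g y) (C C₁ C₂ : ℝ) (hC : 0 < C) :
    ∃ a : ℝ, 0 < a ∧ ∀ (lam : ℝ) (φ : ℝ × ℝ → ℝ), Eigen (fun p => f p.1 + g p.2) L 0 lam φ →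
      ∀ (ι : Type) [Fintype ι] (c : ι → ℝ × ℝ),
        Admissible (fun p => f p.1 + g p.2) L 0 lam φ C C₁ C₂ c →
        ∑ i, doubling (fun p => f p.1 + g p.2) L 0 φ (c i) (C / Real.sqrt lam) ≤
          a * Fintype.card ι := by
  have hρc : Continuous fun p : ℝ × ℝ => f p.1 + g p.2 :=
    (hf.comp continuous_fst).add (hg.comp continuous_snd)
  have hρx : ∀ p : ℝ × ℝ, (fun p : ℝ × ℝ => f p.1 + g p.2) (p.1 + L, p.2 + 0) =
      (fun p : ℝ × ℝ => f p.1 + g p.2) p := fun p => by simp [hfL]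
  have hρy : ∀ p : ℝ × ℝ, (fun p : ℝ × ℝ => f p.1 + g p.2) (p.1, p.2 + 2 * Real.pi) =
      (fun p : ℝ × ℝ => f p.1 + g p.2) p := fun p => by simp [hgp]
  obtain ⟨ρm, hρm0, hρm⟩ := bounded_below_of_per hL hρc (fun p => hpos p.1 p.2) hρx hρy
  obtain ⟨ρM, hρM0', hρM'⟩ := bounded_of_per hL hρc hρx hρy
  have hρM : ∀ p : ℝ × ℝ, f p.1 + g p.2 ≤ ρM := fun p => (le_abs_self _).trans (hρM' p)
  obtain ⟨F, hF0, hF⟩ := bounded_of_per (L := L) (α := 0) hL (f := fun p : ℝ × ℝ => f p.1)
    (hf.comp continuous_fst) (fun p => by simp [hfL]) (fun p => rfl)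
  obtain ⟨G, hG0, hG⟩ := bounded_of_per (L := L) (α := 0) hL (f := fun p : ℝ × ℝ => g p.2)
    (hg.comp continuous_snd) (fun p => by simp) (fun p => by simp [hgp])
  have hpi := Real.pi_pos
  have hsM : 0 ≤ Real.sqrt ρM := Real.sqrt_nonneg _
  obtain ⟨K0, hK0, hfK, hgK⟩ : ∃ K0 : ℝ, 0 < K0 ∧ (∀ t, |f t| ≤ K0) ∧ ∀ t, |g t| ≤ K0 :=
    ⟨F + G + 1, by positivity, fun t => (hF (t, 0)).trans (by linarith),
      fun t => (hG (0, t)).trans (by linarith)⟩
  obtain ⟨b, hb, hbC⟩ : ∃ b : ℝ, 0 < b ∧ 2 * b * Real.sqrt ρM < C := by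
    refine ⟨C / (4 * (Real.sqrt ρM + 1)), by positivity, ?_⟩
    have h1 : 2 * (C / (4 * (Real.sqrt ρM + 1))) * Real.sqrt ρM =
        C * (Real.sqrt ρM / (2 * (Real.sqrt ρM + 1))) := by
      field_simp
      ring
    rw [h1]
    have h2 : Real.sqrt ρM / (2 * (Real.sqrt ρM + 1)) < 1 := by
      rw [div_lt_one (by positivity)]
      linarith
    nlinarith
  set R := max b (2 * C / Real.sqrt ρm) with hR
  set Mx := max L (2 * Real.pi) with hMx
  set mn := min L (2 * Real.pi) with hmn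
  have hMx0 : 0 < Mx := lt_max_of_lt_left hL
  have hmn0 : 0 < mn := lt_min hL (by positivity)
  have hmM : mn ≤ Mx := (min_le_left _ _).trans (le_max_left _ _)
  set a0 := min (1 / (132 * (K0 + 1))) (b * (mn / Mx)) with ha0d
  have ha0 : 0 < a0 := lt_min (by positivity) (by positivity)
  have ha1 : a0 ≤ 1 / (132 * (K0 + 1)) := min_le_left _ _
  have ha2 : a0 ≤ b * (mn / Mx) := min_le_right _ _
  have hab : a0 ≤ b := by
    refine ha2.trans ?_
    have : mn / Mx ≤ 1 := by rwa [div_le_one hMx0]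
    nlinarith
  have haK : K0 * (33 * a0) ^ 2 ≤ 1 / 16 := by
    have h1 : 33 * a0 ≤ 1 / (4 * (K0 + 1)) := by
      calc 33 * a0 ≤ 33 * (1 / (132 * (K0 + 1))) := by linarith
        _ = 1 / (4 * (K0 + 1)) := by
          field_simp
          norm_num
    have h2 : (33 * a0) ^ 2 ≤ (1 / (4 * (K0 + 1))) ^ 2 := pow_le_pow_left₀ (by positivity) h1 2
    calc K0 * (33 * a0) ^ 2 ≤ K0 * (1 / (4 * (K0 + 1))) ^ 2 :=
          mul_le_mul_of_nonneg_left h2 hK0.le
      _ = K0 / (K0 + 1) ^ 2 / 16 := by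
          field_simp
          norm_num
      _ ≤ 1 / 16 := by
          refine div_le_div_of_nonneg_right ?_ (by norm_num)
          rw [div_le_one (by positivity)]
          nlinarith
  obtain ⟨N, hN⟩ := exists_nat_ge (R / a0)
  have hN' : R ≤ (N + 1) * a0 := by
    rw [div_le_iff₀ ha0] at hN
    linarith
  set δ0 := Mx / b with hδ0d
  have hδ0 : 0 < δ0 := by positivity
  set κ1 := (N + 1) * CC (Real.log 16) / Real.log 2 with hκ1
  have hCC : 0 ≤ CC (Real.log 16) := CC_nonneg (Real.log_nonneg (by norm_num))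
  have hl2 : 0 < Real.log 2 := Real.log_pos (by norm_num)
  have hκ10 : 0 ≤ κ1 := by positivity
  set sK := Real.sqrt (2 * K0) with hsK
  have hsK0 : 0 ≤ sK := Real.sqrt_nonneg _
  set κ2 : ℝ := (2 * ((2 * N : ℕ) : ℝ) + 1) ^ 2 * (66 * ((2 * L / a0) *
    (2 * (2 * Real.pi) * sK + 2 * δ0) + (2 * (2 * Real.pi) / a0) * (2 * L * sK + 2 * δ0))) with hκ2
  have hκ20 : 0 ≤ κ2 := by positivity
  refine ⟨κ1 * (|C₁| * κ2 * |C₂| + 1) + 1, by positivity, ?_⟩
  intro lam φ h ι _ c hadm
  have hlam := h.pos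
  have hsl : 0 < Real.sqrt lam := Real.sqrt_pos.2 hlam
  have hcard0 : (0 : ℝ) ≤ Fintype.card ι := Nat.cast_nonneg _
  by_cases htriv : Mx ≤ b * (1 / Real.sqrt lam)
  · have h1 : ∑ i, doubling (fun p => f p.1 + g p.2) L 0 φ (c i) (C / Real.sqrt lam) ≤ 0 :=
      Finset.sum_nonpos fun i _ => dbl_triv hf hg hL hρm0 hρm hρM hC hb hbC h
        ((le_max_left _ _).trans htriv) ((le_max_right _ _).trans htriv) (c i)
    refine h1.trans ?_
    positivity
  · rw [not_le] at htriv
    have hδ : 1 / Real.sqrt lam < δ0 := by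
      rw [hδ0d, lt_div_iff₀ hb, mul_comm]
      exact htriv
    set δ := 1 / Real.sqrt lam with hδd
    have hδp : 0 < δ := by positivity
    have hone : 1 ≤ δ0 * Real.sqrt lam := by
      have h1 : δ * Real.sqrt lam = 1 := by
        rw [hδd]
        field_simp
      have h2 := mul_lt_mul_of_pos_right hδ hsl
      linarith
    have hdm : a0 * δ ≤ mn := by
      calc a0 * δ ≤ b * (mn / Mx) * δ0 := mul_le_mul ha2 hδ.le hδp.le (by positivity)
        _ = mn := by
          rw [hδ0d]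
          field_simp
    obtain ⟨n1, n2, hx, hy, τ, τ', hGr⟩ := grid_exists hf hg hL hK0 hfK hgK h
      (d := a0 * δ) (by positivity) (hdm.trans (min_le_left _ _)) (hdm.trans (min_le_right _ _))
    have hx0 : 0 < hx := lt_of_lt_of_le (by positivity) hGr.x1
    have hy0 : 0 < hy := lt_of_lt_of_le (by positivity) hGr.y1
    have hper : ∀ (m n : ℤ) (p : ℝ × ℝ), φ (p.1 + m * L, p.2 + n * (2 * Real.pi)) = φ p := by
      intro m n p
      have := per_all (L := L) (α := 0) (f := φ) h.perx h.pery m n p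
      rwa [mul_zero, add_zero] at this
    -- constants of the covering
    have hne : Nonempty ι := ⟨(hadm.cover (0, 0)).choose⟩
    have hcard : (0 : ℝ) < Fintype.card ι := by exact_mod_cast Fintype.card_pos
    have hC2 : 0 < C₂ := by
      by_contra hcon
      rw [not_lt] at hcon
      have := hadm.upper
      nlinarith
    have hlamC : lam ≤ |C₂| * Fintype.card ι := by
      rw [abs_of_pos hC2]
      have h1 := hadm.lower
      rwa [inv_mul_le_iff₀ hC2] at h1
    set I : ι → ℤ := fun s => ⌊((c s).1 - τ) / hx⌋ with hI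
    set J : ι → ℤ := fun s => ⌊((c s).2 - τ') / hy⌋ with hJ
    have hmult : ∀ a b : ℤ, ({s : ι | I s % n1 = a ∧ J s % n2 = b}.ncard : ℝ) ≤ C₁ := by
      intro a b'
      refine le_trans ?_ (hadm.mult (τ + a * hx, τ' + b' * hy))
      have hsub : {s : ι | I s % n1 = a ∧ J s % n2 = b'} ⊆
          {s : ι | (τ + a * hx, τ' + b' * hy) ∈ disc (fun p => f p.1 + g p.2) L 0 (c s)
            (C / Real.sqrt lam)} := by
        rintro s ⟨hs1, hs2⟩
        show gdist (fun p => f p.1 + g p.2) L 0 (c s) (τ + a * hx, τ' + b' * hy) <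
          C / Real.sqrt lam
        rw [← gdist_shift (c s) (τ + a * hx, τ' + b' * hy) (I s / n1) (J s / n2)]
        have h1 : ((τ + a * hx : ℝ) + ((I s / n1 : ℤ) : ℝ) * L) = τ + I s * hx := by
          have e6 : ((I s % n1 : ℤ) : ℝ) + n1 * ((I s / n1 : ℤ) : ℝ) = I s := by
            have := Int.emod_add_mul_ediv (I s) n1
            exact_mod_cast congrArg (Int.cast : ℤ → ℝ) this
          rw [← hGr.ex, ← e6, hs1]
          ring
        have h2 : ((τ' + b' * hy : ℝ) + ((I s / n1 : ℤ) : ℝ) * 0 +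
            ((J s / n2 : ℤ) : ℝ) * (2 * Real.pi)) = τ' + J s * hy := by
          have e6 : ((J s % n2 : ℤ) : ℝ) + n2 * ((J s / n2 : ℤ) : ℝ) = J s := by
            have := Int.emod_add_mul_ediv (J s) n2
            exact_mod_cast congrArg (Int.cast : ℤ → ℝ) this
          rw [← hGr.ey, ← e6, hs2]
          ring
        simp only
        rw [h1, h2]
        have h3 := gdist_le (L := L) (α := 0) hρM hρc (c s) (τ + I s * hx, τ' + J s * hy)
        refine h3.trans_lt ?_
        simp only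
        have a1 := Int.floor_le (((c s).1 - τ) / hx)
        have a2 := (Int.lt_floor_add_one (((c s).1 - τ) / hx)).le
        have a3 := Int.floor_le (((c s).2 - τ') / hy)
        have a4 := (Int.lt_floor_add_one (((c s).2 - τ') / hy)).le
        rw [le_div_iff₀ hx0] at a1
        rw [div_le_iff₀ hx0] at a2
        rw [le_div_iff₀ hy0] at a3
        rw [div_le_iff₀ hy0] at a4
        have a1' : (I s : ℝ) * hx ≤ (c s).1 - τ := a1
        have a2' : (c s).1 - τ ≤ ((I s : ℝ) + 1) * hx := a2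
        have a3' : (J s : ℝ) * hy ≤ (c s).2 - τ' := a3
        have a4' : (c s).2 - τ' ≤ ((J s : ℝ) + 1) * hy := a4
        have b1 : |τ + I s * hx - (c s).1| ≤ b * δ := by
          have := hGr.x2
          have h5 : a0 * δ ≤ b * δ := mul_le_mul_of_nonneg_right hab hδp.le
          exact abs_le.2 ⟨by linarith, by linarith⟩
        have b2 : |τ' + J s * hy - (c s).2| ≤ b * δ := by
          have := hGr.y2
          have h5 : a0 * δ ≤ b * δ := mul_le_mul_of_nonneg_right hab hδp.le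
          exact abs_le.2 ⟨by linarith, by linarith⟩
        have h4 : Real.sqrt ρM * (|τ + I s * hx - (c s).1| + |τ' + J s * hy - (c s).2|) ≤
            Real.sqrt ρM * (b * δ + b * δ) :=
          mul_le_mul_of_nonneg_left (add_le_add b1 b2) hsM
        refine h4.trans_lt ?_
        have h5 : Real.sqrt ρM * (b * δ + b * δ) = (2 * b * Real.sqrt ρM) * δ := by ring
        have h6 : C / Real.sqrt lam = C * δ := by rw [hδd]; ring
        rw [h5, h6]
        exact mul_lt_mul_of_pos_right hbC hδp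
      exact_mod_cast Set.ncard_le_ncard hsub (Set.toFinite _)
    have hC1 : 0 ≤ C₁ := (Nat.cast_nonneg _).trans (hmult 0 0)
    have hsum := sum_cells hGr.hn1 hGr.hn2 (G := fun i j => MM φ hx hy τ τ' (2 * N) i j)
      (fun i j => MM_nonneg _ _ _) (fun i j => MM_per1 hGr hper _ _ _)
      (fun i j => MM_per2 hGr hper _ _ _) I J hmult
    have htot := total hf hg hL hK0 hfK hgK h hGr (2 * N)
    -- numbers of cells
    have hsq : Real.sqrt (2 * lam * K0) = sK * Real.sqrt lam := by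
      rw [hsK, ← Real.sqrt_mul (by positivity)]
      congr 1
      ring
    have hlamsq : Real.sqrt lam * Real.sqrt lam = lam := Real.mul_self_sqrt hlam.le
    have hδs : δ * Real.sqrt lam = 1 := by
      rw [hδd]
      field_simp
    have hn1 : (n1 : ℝ) ≤ 2 * L / a0 * Real.sqrt lam := by
      have h1 : (n1 : ℝ) * (a0 * δ / 2) ≤ L := by
        rw [← hGr.ex]
        exact mul_le_mul_of_nonneg_left hGr.x1 (Nat.cast_nonneg _)
      have h2 : (n1 : ℝ) * (a0 * δ / 2) * (2 * Real.sqrt lam / a0) = n1 := by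
        have : (n1 : ℝ) * (a0 * δ / 2) * (2 * Real.sqrt lam / a0) =
            n1 * (δ * Real.sqrt lam) := by
          field_simp
        rw [this, hδs, mul_one]
      have h3 := mul_le_mul_of_nonneg_right h1 (by positivity : 0 ≤ 2 * Real.sqrt lam / a0)
      rw [h2] at h3
      refine h3.trans (le_of_eq ?_)
      ring
    have hn2 : (n2 : ℝ) ≤ 2 * (2 * Real.pi) / a0 * Real.sqrt lam := by
      have h1 : (n2 : ℝ) * (a0 * δ / 2) ≤ 2 * Real.pi := by
        rw [← hGr.ey]
        exact mul_le_mul_of_nonneg_left hGr.y1 (Nat.cast_nonneg _)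
      have h2 : (n2 : ℝ) * (a0 * δ / 2) * (2 * Real.sqrt lam / a0) = n2 := by
        have : (n2 : ℝ) * (a0 * δ / 2) * (2 * Real.sqrt lam / a0) =
            n2 * (δ * Real.sqrt lam) := by
          field_simp
        rw [this, hδs, mul_one]
      have h3 := mul_le_mul_of_nonneg_right h1 (by positivity : 0 ≤ 2 * Real.sqrt lam / a0)
      rw [h2] at h3
      refine h3.trans (le_of_eq ?_)
      ring
    have htot2 : ∑ i ∈ Finset.range n1, ∑ j ∈ Finset.range n2, MM φ hx hy τ τ' (2 * N) i j ≤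
        κ2 * lam := by
      refine htot.trans ?_
      rw [hsq, hκ2, mul_assoc ((2 * ((2 * N : ℕ) : ℝ) + 1) ^ 2)]
      refine mul_le_mul_of_nonneg_left ?_ (by positivity)
      rw [mul_assoc (66 : ℝ)]
      refine mul_le_mul_of_nonneg_left ?_ (by norm_num)
      rw [add_mul]
      refine add_le_add ?_ ?_
      · have h1 : 2 * (2 * Real.pi) * (sK * Real.sqrt lam) + 2 ≤
            (2 * (2 * Real.pi) * sK + 2 * δ0) * Real.sqrt lam := by linarith
        calc (n1 : ℝ) * (2 * (2 * Real.pi) * (sK * Real.sqrt lam) + 2) ≤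
            (2 * L / a0 * Real.sqrt lam) * ((2 * (2 * Real.pi) * sK + 2 * δ0) * Real.sqrt lam) :=
              mul_le_mul hn1 h1 (by positivity) (by positivity)
          _ = 2 * L / a0 * (2 * (2 * Real.pi) * sK + 2 * δ0) * (Real.sqrt lam * Real.sqrt lam) := by
              ring
          _ = _ := by rw [hlamsq]
      · have h1 : 2 * L * (sK * Real.sqrt lam) + 2 ≤
            (2 * L * sK + 2 * δ0) * Real.sqrt lam := by linarith
        calc (n2 : ℝ) * (2 * L * (sK * Real.sqrt lam) + 2) ≤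
            (2 * (2 * Real.pi) / a0 * Real.sqrt lam) * ((2 * L * sK + 2 * δ0) * Real.sqrt lam) :=
              mul_le_mul hn2 h1 (by positivity) (by positivity)
          _ = 2 * (2 * Real.pi) / a0 * (2 * L * sK + 2 * δ0) * (Real.sqrt lam * Real.sqrt lam) := by
              ring
          _ = _ := by rw [hlamsq]
    have hdbl : ∀ s, doubling (fun p => f p.1 + g p.2) L 0 φ (c s) (C / Real.sqrt lam) ≤
        κ1 * (MM φ hx hy τ τ' (2 * N) (I s) (J s) + 1) := fun s =>
      dbl_grid hf hg hL hK0 hfK hgK hρm0 hρm hρM hC hb hbC (le_max_right _ _) ha0 hab hN' haK h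
        hGr (c s)
    have hfin : ∑ s, MM φ hx hy τ τ' (2 * N) (I s) (J s) ≤
        |C₁| * κ2 * |C₂| * Fintype.card ι := by
      refine hsum.trans ?_
      rw [abs_of_nonneg hC1]
      calc C₁ * ∑ i ∈ Finset.range n1, ∑ j ∈ Finset.range n2, MM φ hx hy τ τ' (2 * N) i j ≤
          C₁ * (κ2 * lam) := mul_le_mul_of_nonneg_left htot2 hC1
        _ ≤ C₁ * (κ2 * (|C₂| * Fintype.card ι)) := by gcongr
        _ = C₁ * κ2 * |C₂| * Fintype.card ι := by ring
    calc ∑ s, doubling (fun p => f p.1 + g p.2) L 0 φ (c s) (C / Real.sqrt lam) ≤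
        ∑ s, κ1 * (MM φ hx hy τ τ' (2 * N) (I s) (J s) + 1) :=
          Finset.sum_le_sum fun s _ => hdbl s
      _ = κ1 * (∑ s, MM φ hx hy τ τ' (2 * N) (I s) (J s) + Fintype.card ι) := by
          rw [← Finset.mul_sum, Finset.sum_add_distrib]
          simp
      _ ≤ κ1 * (|C₁| * κ2 * |C₂| * Fintype.card ι + Fintype.card ι) := by gcongr
      _ ≤ (κ1 * (|C₁| * κ2 * |C₂| + 1) + 1) * Fintype.card ι := by nlinarith

end Pool.Agent.Sub70.LT
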