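import Mathlib

/-!
# Counting zeros on the edges of a grid
-/

set_option autoImplicit false

namespace Pool.Agent.Sub70.LT

open Set

/-- The set of zeros in an interval. -/
def zs (ψ : ℝ → ℝ) (a b : ℝ) : Set ℝ := {t | t ∈ Ico a b ∧ ψ t = 0}

/-- The number of zeros in an interval. -/
noncomputable def zc (ψ : ℝ → ℝ) (a b : ℝ) : ℕ := (zs ψ a b).ncard

/-- Finitely many zeros in each period give finitely many zeros in each interval. -/
theorem zs_fin {ψ : ℝ → ℝ} {T K : ℝ} (hT : 0 < T)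
    (h : ∀ (a : ℝ) (Z : Finset ℝ), (∀ z ∈ Z, z ∈ Ico a (a + T) ∧ ψ z = 0) → (Z.card : ℝ) ≤ K)
    (a b : ℝ) : (zs ψ a b).Finite := by
  have h1 : ∀ a, (zs ψ a (a + T)).Finite := by
    intro a
    by_contra hcon
    obtain ⟨n, hn⟩ := exists_nat_gt K
    have hinf : (zs ψ a (a + T)).Infinite := hcon
    obtain ⟨Z, hZ1, hZ2⟩ := hinf.exists_subset_card_eq n
    have := h a Z fun z hz => hZ1 hz
    rw [hZ2] at this
    linarith
  have h2 : ∀ k : ℕ, (zs ψ a (a + k * T)).Finite := by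
    intro k
    induction k with
    | zero =>
      refine Set.Finite.subset Set.finite_empty fun t ht => ?_
      have := ht.1
      rw [Nat.cast_zero, zero_mul, add_zero] at this
      exact absurd this.1 (not_le.2 this.2)
    | succ k ih =>
      refine (ih.union (h1 (a + k * T))).subset fun t ht => ?_
      rcases lt_or_ge t (a + k * T) with h3 | h3
      · exact Or.inl ⟨⟨ht.1.1, h3⟩, ht.2⟩
      · refine Or.inr ⟨⟨h3, ?_⟩, ht.2⟩
        have := ht.1.2
        push_cast at this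
        linarith
  obtain ⟨k, hk⟩ := exists_nat_ge ((b - a) / T)
  rw [div_le_iff₀ hT] at hk
  exact (h2 k).subset fun t ht => ⟨⟨ht.1.1, by linarith [ht.1.2]⟩, ht.2⟩

theorem zc_le {ψ : ℝ → ℝ} {T K : ℝ} (hT : 0 < T)
    (h : ∀ (a : ℝ) (Z : Finset ℝ), (∀ z ∈ Z, z ∈ Ico a (a + T) ∧ ψ z = 0) → (Z.card : ℝ) ≤ K)
    (a : ℝ) : (zc ψ a (a + T) : ℝ) ≤ K := by
  have hf := zs_fin hT h a (a + T)
  unfold zc
  rw [Set.ncard_eq_toFinset_card _ hf]
  refine h a _ fun z hz => ?_
  rw [Set.Finite.mem_toFinset] at hz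
  exact hz

/-- Adding up. -/
theorem zc_sum {ψ : ℝ → ℝ} (hf : ∀ a b, (zs ψ a b).Finite) {Y : ℤ → ℝ} (hY : StrictMono Y)
    (j : ℤ) (k : ℕ) :
    ∑ l ∈ Finset.range k, zc ψ (Y (j + l)) (Y (j + l + 1)) = zc ψ (Y j) (Y (j + k)) := by
  induction k with
  | zero =>
    rw [Finset.range_zero, Finset.sum_empty, Nat.cast_zero, add_zero]
    symm
    unfold zc
    rw [Set.ncard_eq_zero (hf _ _)]
    ext t
    simp only [Set.mem_empty_iff_false, iff_false]
    intro ht
    exact absurd ht.1.1 (not_le.2 ht.1.2)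
  | succ k ih =>
    rw [Finset.sum_range_succ, ih]
    unfold zc
    rw [← Set.ncard_union_eq _ (hf _ _) (hf _ _)]
    · congr 1
      ext t
      have e1 : Y j ≤ Y (j + k) := hY.monotone (by omega)
      have e2 : Y (j + k) < Y (j + k + 1) := hY (by omega)
      have e3 : (j + ((k + 1 : ℕ) : ℤ)) = j + k + 1 := by push_cast; ring
      rw [e3]
      constructor
      · rintro (h | h)
        · exact ⟨⟨h.1.1, h.1.2.trans e2⟩, h.2⟩
        · exact ⟨⟨e1.trans h.1.1, h.1.2⟩, h.2⟩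
      · intro h
        rcases lt_or_ge t (Y (j + k)) with h3 | h3
        · exact Or.inl ⟨⟨h.1.1, h3⟩, h.2⟩
        · exact Or.inr ⟨⟨h3, h.1.2⟩, h.2⟩
    · rw [Set.disjoint_left]
      intro t h1 h2
      exact absurd h2.1.1 (not_le.2 h1.1.2)

/-- Translations. -/
theorem zc_shift {ψ : ℝ → ℝ} {T : ℝ} (h : ∀ t, ψ (t + T) = ψ t) (a b : ℝ) :
    zc ψ (a + T) (b + T) = zc ψ a b := by
  unfold zc
  have : zs ψ (a + T) (b + T) = (fun t => t + T) '' zs ψ a b := by
    ext t
    constructor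
    · intro ht
      refine ⟨t - T, ⟨⟨by linarith [ht.1.1], by linarith [ht.1.2]⟩, ?_⟩, by ring⟩
      rw [← h, sub_add_cancel]
      exact ht.2
    · rintro ⟨s, hs, rfl⟩
      exact ⟨⟨by linarith [hs.1.1], by linarith [hs.1.2]⟩, by rw [h]; exact hs.2⟩
  rw [this]
  exact Set.ncard_image_of_injective _ (add_left_injective T)

/-- Periodic sums. -/
theorem per_sum {G : ℤ → ℝ} {n : ℕ} (h : ∀ i, G (i + n) = G i) (a : ℤ) :
    ∑ i ∈ Finset.range n, G (i + a) = ∑ i ∈ Finset.range n, G i := by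
  have step : ∀ a : ℤ, ∑ i ∈ Finset.range n, G (i + (a + 1)) = ∑ i ∈ Finset.range n, G (i + a) := by
    intro a
    have h1 := Finset.sum_range_succ (fun i : ℕ => G (i + a)) n
    have h2 := Finset.sum_range_succ' (fun i : ℕ => G (i + a)) n
    have h3 : G ((n : ℤ) + a) = G a := by rw [add_comm]; exact h a
    have h4 : ∑ i ∈ Finset.range n, G (((i + 1 : ℕ) : ℤ) + a) =
        ∑ i ∈ Finset.range n, G (i + (a + 1)) := by
      refine Finset.sum_congr rfl fun i _ => ?_
      congr 1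
      push_cast
      ring
    simp only [Nat.cast_zero, zero_add] at h2
    rw [h4] at h2
    linarith
  induction a using Int.induction_on with
  | zero => simp
  | succ k ih => rw [step]; exact ih
  | pred k ih =>
    have := step (-(k : ℤ) - 1)
    rw [sub_add_cancel] at this
    rw [← this]
    exact ih

/-- Periodic double sums. -/
theorem per_sum2 {G : ℤ → ℤ → ℝ} {n1 n2 : ℕ} (h1 : ∀ i j, G (i + n1) j = G i j)
    (h2 : ∀ i j, G i (j + n2) = G i j) (a b : ℤ) :
    ∑ i ∈ Finset.range n1, ∑ j ∈ Finset.range n2, G (i + a) (j + b) =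
      ∑ i ∈ Finset.range n1, ∑ j ∈ Finset.range n2, G i j := by
  have e1 : ∀ i : ℕ, ∑ j ∈ Finset.range n2, G (i + a) (j + b) =
      ∑ j ∈ Finset.range n2, G (i + a) j := fun i => per_sum (G := fun j => G (i + a) j) (h2 _) b
  simp only [e1]
  exact per_sum (G := fun i => ∑ j ∈ Finset.range n2, G i j)
    (fun i => Finset.sum_congr rfl fun j _ => h1 i j) a

theorem per_int {G : ℤ → ℝ} {n : ℕ} (h : ∀ i, G (i + n) = G i) (i k : ℤ) :
    G (i + n * k) = G i := by
  induction k using Int.induction_on with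
  | zero => simp
  | succ k ih =>
    rw [← ih, ← h (i + n * k)]
    congr 1
    ring
  | pred k ih =>
    rw [← ih, ← h (i + n * (-k - 1))]
    congr 1
    ring

theorem per_emod {G : ℤ → ℤ → ℝ} {n1 n2 : ℕ} (h1 : ∀ i j, G (i + n1) j = G i j)
    (h2 : ∀ i j, G i (j + n2) = G i j) (i j : ℤ) : G (i % n1) (j % n2) = G i j := by
  have e1 := per_int (G := fun i => G i (j % n2)) (n := n1) (fun i => h1 i _) (i % n1) (i / n1)
  have e2 := per_int (G := fun j => G i j) (n := n2) (fun j => h2 i j) (j % n2) (j / n2)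
  rw [Int.emod_add_mul_ediv] at e1 e2
  rw [← e1, e2]

/-- Sums over centers grouped by cells. -/
theorem sum_cells {ι : Type} [Fintype ι] {n1 n2 : ℕ} (hn1 : 0 < n1) (hn2 : 0 < n2)
    {G : ℤ → ℤ → ℝ} (hG : ∀ i j, 0 ≤ G i j) (h1 : ∀ i j, G (i + n1) j = G i j)
    (h2 : ∀ i j, G i (j + n2) = G i j) (I J : ι → ℤ) {C1 : ℝ}
    (hC : ∀ a b : ℤ, ({s : ι | I s % n1 = a ∧ J s % n2 = b}.ncard : ℝ) ≤ C1) :
    ∑ s, G (I s) (J s) ≤ C1 * ∑ i ∈ Finset.range n1, ∑ j ∈ Finset.range n2, G i j := by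
  classical
  set box : Finset (ℕ × ℕ) := Finset.range n1 ×ˢ Finset.range n2 with hbox
  set cl : ι → ℕ × ℕ := fun s => ((I s % n1).toNat, (J s % n2).toNat) with hcl
  have p1 : ∀ s, 0 ≤ I s % n1 := fun s => Int.emod_nonneg _ (by exact_mod_cast hn1.ne')
  have p2 : ∀ s, 0 ≤ J s % n2 := fun s => Int.emod_nonneg _ (by exact_mod_cast hn2.ne')
  have p3 : ∀ s, I s % n1 < n1 := fun s => Int.emod_lt_of_pos _ (by exact_mod_cast hn1)
  have p4 : ∀ s, J s % n2 < n2 := fun s => Int.emod_lt_of_pos _ (by exact_mod_cast hn2)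
  have hmap : ∀ s ∈ (Finset.univ : Finset ι), cl s ∈ box := by
    intro s _
    rw [hbox, Finset.mem_product, Finset.mem_range, Finset.mem_range]
    have := p1 s
    have := p2 s
    have := p3 s
    have := p4 s
    constructor
    · show (I s % n1).toNat < n1
      omega
    · show (J s % n2).toNat < n2
      omega
  have hval : ∀ s, G (I s) (J s) = G ((cl s).1 : ℤ) ((cl s).2 : ℤ) := by
    intro s
    have e1 : (((cl s).1 : ℕ) : ℤ) = I s % n1 := Int.toNat_of_nonneg (p1 s)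
    have e2 : (((cl s).2 : ℕ) : ℤ) = J s % n2 := Int.toNat_of_nonneg (p2 s)
    rw [e1, e2, per_emod h1 h2]
  rw [← Finset.sum_fiberwise_of_maps_to hmap, ← Finset.sum_product', Finset.mul_sum]
  refine Finset.sum_le_sum fun b _ => ?_
  have e1 : ∑ s ∈ Finset.univ.filter (fun s => cl s = b), G (I s) (J s) =
      (Finset.univ.filter (fun s => cl s = b)).card * G b.1 b.2 := by
    rw [← nsmul_eq_mul]
    refine Finset.sum_eq_card_nsmul fun s hs => ?_
    rw [hval, (Finset.mem_filter.1 hs).2]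
  rw [e1]
  refine mul_le_mul_of_nonneg_right ?_ (hG _ _)
  refine le_trans ?_ (hC b.1 b.2)
  have e2 : {s : ι | I s % n1 = b.1 ∧ J s % n2 = b.2} =
      ((Finset.univ.filter fun s : ι => I s % n1 = b.1 ∧ J s % n2 = b.2 : Finset ι) : Set ι) := by
    ext s
    simp
  rw [e2, Set.ncard_coe_finset]
  have e3 : (Finset.univ.filter (fun s => cl s = b)).card ≤
      (Finset.univ.filter fun s : ι => I s % n1 = b.1 ∧ J s % n2 = b.2).card := by
    refine Finset.card_le_card fun s hs => ?_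
    have h3 := (Finset.mem_filter.1 hs).2
    refine Finset.mem_filter.2 ⟨Finset.mem_univ _, ?_, ?_⟩
    · rw [← h3]
      exact (Int.toNat_of_nonneg (p1 s)).symm
    · rw [← h3]
      exact (Int.toNat_of_nonneg (p2 s)).symm
  exact_mod_cast e3

end Pool.Agent.Sub70.LT
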