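import Pool.Agent.Sub70.LT.Kern
import Pool.Agent.R220.LV.Main
import Pool.Agent.W571.RB.GR

/-!
# The spaces of solutions are finite dimensional
-/

set_option autoImplicit false

namespace Pool.Agent.Sub70.LT

open Set MeasureTheory Function Pool.Agent.R220.LV Pool.Agent.Y291.DB

/-- Bessel's inequality for evaluations. -/
theorem abs_bessel {V : Type} [AddCommGroup V] [Module ℝ V] (cd : InnerProductSpace.Core ℝ V)
    {X : Type} (ev : X → V →ₗ[ℝ] ℝ) {C : ℝ} (hC : ∀ x v, (ev x v) ^ 2 ≤ C * cd.inner v v)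
    {m : ℕ} (e : Fin m → V) (he : LinearIndependent ℝ e) (hC0 : 0 ≤ C) :
    ∃ v : Fin m → V, (∀ i, cd.inner (v i) (v i) = 1) ∧ ∀ x, ∑ i, (ev x (v i)) ^ 2 ≤ C := by
  let _ : NormedAddCommGroup V := cd.toNormedAddCommGroup
  let _ : InnerProductSpace ℝ V := InnerProductSpace.ofCore cd.toCore
  have ho := InnerProductSpace.gramSchmidtNormed_orthonormal he
  set v : Fin m → V := InnerProductSpace.gramSchmidtNormed ℝ e with hv
  refine ⟨v, fun i => ?_, fun x => ?_⟩
  · have h1 := (orthonormal_iff_ite.1 ho) i i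
    rw [if_pos rfl] at h1
    exact h1
  · set S := ∑ i, (ev x (v i)) ^ 2 with hS
    set w : V := ∑ i, ev x (v i) • v i with hw
    have e1 : ev x w = S := by
      rw [hw, map_sum, hS]
      refine Finset.sum_congr rfl fun i _ => ?_
      rw [map_smul, smul_eq_mul]
      ring
    have e2 : cd.inner w w = S := by
      have h1 := ho.inner_sum (fun i => ev x (v i)) (fun i => ev x (v i)) Finset.univ
      have h2 : cd.inner w w = ∑ i, (starRingEnd ℝ) (ev x (v i)) * ev x (v i) := h1
      rw [h2, hS]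
      refine Finset.sum_congr rfl fun i _ => ?_
      simp only [conj_trivial]
      ring
    have h3 := hC x w
    rw [e1, e2] at h3
    have hS0 : 0 ≤ S := Finset.sum_nonneg fun i _ => sq_nonneg _
    rcases hS0.eq_or_lt with h0 | h0
    · rw [← h0]
      exact hC0
    · by_contra hcon
      push Not at hcon
      nlinarith

variable {f g : ℝ → ℝ} {L lam : ℝ}

/-- A periodic continuous function attains its maximum. -/
theorem max_pt (hL : 0 < L) {u : ℝ × ℝ → ℝ} (hc : Continuous u)
    (px : ∀ x y, u (x + L, y) = u (x, y)) (py : ∀ x y, u (x, y + 2 * Real.pi) = u (x, y)) :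
    ∃ p, ∀ q, |u q| ≤ |u p| := by
  have hK : IsCompact (Set.Icc (0 : ℝ) L ×ˢ Set.Icc (0 : ℝ) (2 * Real.pi)) :=
    isCompact_Icc.prod isCompact_Icc
  obtain ⟨p, _, hp⟩ := hK.exists_isMaxOn ⟨(0, 0), ⟨⟨le_rfl, hL.le⟩, ⟨le_rfl, by positivity⟩⟩⟩
    hc.abs.continuousOn
  refine ⟨p, fun q => ?_⟩
  obtain ⟨m, n, h3, h4⟩ := reduce hL 0 0 0 q
  rw [← per_all (L := L) (α := 0) (f := u) (fun p => by rw [add_zero]; exact px p.1 p.2)
    (fun p => py p.1 p.2) m n q]
  rw [zero_add] at h3 h4
  exact hp ⟨⟨h3.1, h3.2.le⟩, ⟨h4.1, h4.2.le⟩⟩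

/-- The supremum is controlled by the mean square. -/
theorem sup_le (hf : Continuous f) (hg : Continuous g) (hL : 0 < L) {K : ℝ}
    (hK : ∀ x y, |lam * (f x + g y)| ≤ K) : ∃ Cst, 0 < Cst ∧
    ∀ u ∈ W hf hg L lam, ∀ p, u p ^ 2 ≤ Cst * ip L u u := by
  have hK0 : 0 ≤ K := (abs_nonneg _).trans (hK 0 0)
  have hpi := Real.pi_pos
  set r := min (1 / (4 * (2 + K))) (min (L / 2) Real.pi) with hr
  have hr0 : 0 < r := lt_min (by positivity) (lt_min (by positivity) hpi)
  have hr1 : r ≤ 1 / (4 * (2 + K)) := min_le_left _ _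
  have hr2 : r ≤ L / 2 := (min_le_right _ _).trans (min_le_left _ _)
  have hr3 : r ≤ Real.pi := (min_le_right _ _).trans (min_le_right _ _)
  refine ⟨1 / r ^ 2, by positivity, ?_⟩
  intro u hu
  have hcu := W_cont hu
  obtain ⟨_, φx, φxx, φy, φyy, hs⟩ := hu
  obtain ⟨p0, hp0⟩ := max_pt hL hcu hs.px hs.py
  set M := |u p0| with hM
  have hM0 : 0 ≤ M := abs_nonneg _
  have hb : ∀ a b, |u (a, b)| ≤ M ∧ |φxx a b + φyy a b| ≤ K * M := by
    intro a b
    refine ⟨hp0 _, ?_⟩
    rw [hs.s.pde a b, abs_neg, abs_mul]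
    exact mul_le_mul (hK a b) (hp0 _) (abs_nonneg _) hK0
  have gx : ∀ a b, |φx a b| ≤ (2 + K) * M := by
    intro a b
    have h1 := Pool.Agent.W571.RB.core_abs (fun a b => u (b, a)) (fun a b => φy b a)
      (fun a b => φx b a) (fun a b => φyy b a) (fun a b => φxx b a)
      (hcu.comp continuous_swap) (fun a b => hs.s.dy b a)
      (fun a b => hs.s.dyy b a) (fun a b => hs.s.dx b a) (fun a b => hs.s.dxx b a) b a 1 M (K * M)
      one_pos (fun c d _ _ => by
        have := hb d c
        rw [add_comm] at this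
        exact this)
    refine h1.trans ?_
    have : 0 ≤ K * M := by positivity
    linarith
  have gy : ∀ a b, |φy a b| ≤ (2 + K) * M := by
    intro a b
    have h1 := Pool.Agent.W571.RB.core_abs (fun a b => u (a, b)) φx φy φxx φyy
      hcu hs.s.dx hs.s.dxx hs.s.dy hs.s.dyy a b 1 M (K * M) one_pos (fun c d _ _ => hb c d)
    refine h1.trans ?_
    have : 0 ≤ K * M := by positivity
    linarith
  have hbox : ∀ x y, |x - p0.1| ≤ r → |y - p0.2| ≤ r → M ^ 2 / 4 ≤ u (x, y) * u (x, y) := by
    intro x y hx hy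
    have h1 := (convex_univ (𝕜 := ℝ) (E := ℝ)).norm_image_sub_le_of_norm_hasDerivWithin_le
      (f := fun t => u (t, y)) (f' := fun t => φx t y) (C := (2 + K) * M)
      (fun t _ => (hs.s.dx t y).hasDerivWithinAt) (fun t _ => gx t y) (mem_univ p0.1) (mem_univ x)
    have h2 := (convex_univ (𝕜 := ℝ) (E := ℝ)).norm_image_sub_le_of_norm_hasDerivWithin_le
      (f := fun t => u (p0.1, t)) (f' := fun t => φy p0.1 t) (C := (2 + K) * M)
      (fun t _ => (hs.s.dy p0.1 t).hasDerivWithinAt) (fun t _ => gy p0.1 t) (mem_univ p0.2)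
      (mem_univ y)
    rw [Real.norm_eq_abs, Real.norm_eq_abs] at h1 h2
    have e1 : (2 + K) * M * r ≤ M / 4 := by
      have := mul_le_mul_of_nonneg_left hr1 (by positivity : 0 ≤ (2 + K) * M)
      refine this.trans (le_of_eq ?_)
      field_simp
    have e2 : (2 + K) * M * |x - p0.1| ≤ M / 4 :=
      (mul_le_mul_of_nonneg_left hx (by positivity)).trans e1
    have e3 : (2 + K) * M * |y - p0.2| ≤ M / 4 :=
      (mul_le_mul_of_nonneg_left hy (by positivity)).trans e1
    have e4 : M ≤ |u (x, y)| + M / 2 := by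
      have e5 : u p0 = u (x, y) - (u (x, y) - u (p0.1, y)) - (u (p0.1, y) - u (p0.1, p0.2)) := by
        simp only [Prod.mk.eta]
        ring
      have e6 : |u p0| ≤ |u (x, y)| + |u (x, y) - u (p0.1, y)| +
          |u (p0.1, y) - u (p0.1, p0.2)| := by
        refine (le_of_eq (congrArg abs e5)).trans ?_
        exact (abs_sub _ _).trans (add_le_add (abs_sub _ _) le_rfl)
      linarith
    have e5 : M / 2 ≤ |u (x, y)| := by linarith
    rw [← abs_mul_abs_self (u (x, y))]
    nlinarith
  have cF : Continuous (uncurry fun y x => u (x, y) * u (x, y)) := by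
    have e1 : Continuous fun p : ℝ × ℝ => u (p.2, p.1) := hcu.comp (by fun_prop)
    exact e1.mul e1
  have hper : ip L u u = ∫ y in (p0.2 - r)..(p0.2 - r + 2 * Real.pi),
      ∫ x in (p0.1 - r)..(p0.1 - r + L), u (x, y) * u (x, y) := by
    unfold ip
    have h1 : ∀ y, ∫ x in (0 : ℝ)..L, u (x, y) * u (x, y) =
        ∫ x in (p0.1 - r)..(p0.1 - r + L), u (x, y) * u (x, y) := by
      intro y
      have h2 : Function.Periodic (fun x => u (x, y) * u (x, y)) L := fun x => by
        simp only [hs.px x y]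
      have h3 := h2.intervalIntegral_add_eq 0 (p0.1 - r)
      rwa [zero_add] at h3
    simp only [h1]
    have h2 : Function.Periodic (fun y => ∫ x in (p0.1 - r)..(p0.1 - r + L),
        u (x, y) * u (x, y)) (2 * Real.pi) := fun y => by
      simp only [hs.py]
    have h3 := h2.intervalIntegral_add_eq 0 (p0.2 - r)
    rwa [zero_add] at h3
  have hlow : M ^ 2 * r ^ 2 ≤ ip L u u := by
    rw [hper]
    have h1 := sub2 cF (a := p0.2 - r) (b := p0.2 + r) (a' := p0.2 - r)
      (b' := p0.2 - r + 2 * Real.pi) (c := p0.1 - r) (d := p0.1 + r) (c' := p0.1 - r)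
      (d' := p0.1 - r + L) le_rfl (by linarith) (by linarith) le_rfl (by linarith) (by linarith)
      (fun y _ x _ => mul_self_nonneg _)
    refine le_trans ?_ h1
    have h2 := mono2 (F := fun _ _ => M ^ 2 / 4) (G := fun y x => u (x, y) * u (x, y))
      continuous_const cF (a := p0.2 - r) (b := p0.2 + r) (c := p0.1 - r) (d := p0.1 + r)
      (by linarith) (by linarith) (fun y hy x hx => hbox x y
        (abs_le.2 ⟨by linarith [hx.1], by linarith [hx.2]⟩)
        (abs_le.2 ⟨by linarith [hy.1], by linarith [hy.2]⟩))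
    rw [const2] at h2
    refine le_trans (le_of_eq ?_) h2
    ring
  intro p
  have h1 : u p ^ 2 ≤ M ^ 2 := by
    rw [← sq_abs (u p)]
    exact pow_le_pow_left₀ (abs_nonneg _) (hp0 p) 2
  refine h1.trans ?_
  rw [div_mul_eq_mul_div, one_mul, le_div_iff₀ (by positivity)]
  exact hlow

/-- The spaces are finite dimensional. -/
theorem finW (hf : Continuous f) (hg : Continuous g) (hL : 0 < L) {K : ℝ}
    (hK : ∀ x y, |lam * (f x + g y)| ≤ K) : FiniteDimensional ℝ (W hf hg L lam) := by
  obtain ⟨C, hC, H⟩ := sup_le hf hg hL hK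
  have hpi := Real.pi_pos
  obtain ⟨N, hN⟩ := exists_nat_ge (C * (2 * Real.pi * L))
  have h1 : Module.rank ℝ (W hf hg L lam) ≤ N := by
    refine rank_le fun s hs => ?_
    have h3 : LinearIndependent ℝ fun i : Fin s.card => (s.equivFin.symm i : W hf hg L lam) :=
      hs.comp _ s.equivFin.symm.injective
    set ev : ℝ × ℝ → W hf hg L lam →ₗ[ℝ] ℝ := fun p =>
      (LinearMap.proj (R := ℝ) (φ := fun _ : ℝ × ℝ => ℝ) p).comp (W hf hg L lam).subtype with hev
    obtain ⟨v, hv1, hv2⟩ := abs_bessel (core hf hg hL lam) ev (C := C)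
      (fun p w => by
        have := H w.1 w.2 p
        rw [core_inner]
        exact this) _ h3 hC.le
    have hv1' : ∀ i, ip L (v i).1 (v i).1 = 1 := fun i => hv1 i
    have hv2' : ∀ p, ∑ i, (v i).1 p ^ 2 ≤ C := fun p => hv2 p
    have cF : ∀ i, Continuous (uncurry fun y x => (v i).1 (x, y) * (v i).1 (x, y)) := by
      intro i
      have e1 : Continuous fun p : ℝ × ℝ => (v i).1 (p.2, p.1) :=
        (W_cont (v i).2).comp (by fun_prop)
      exact e1.mul e1
    have e1 : (s.card : ℝ) = ∑ i, ip L (v i).1 (v i).1 := by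
      simp only [hv1']
      simp
    have e2 : ∑ i, ip L (v i).1 (v i).1 = ∫ y in (0 : ℝ)..(2 * Real.pi), ∫ x in (0 : ℝ)..L,
        ∑ i, (v i).1 (x, y) * (v i).1 (x, y) := by
      unfold ip
      rw [← intervalIntegral.integral_finsetSum]
      · congr 1
        funext y
        rw [← intervalIntegral.integral_finsetSum]
        intro i _
        exact (slice2 (cF i) y).intervalIntegrable _ _
      · intro i _
        exact (ic (cF i) 0 L).intervalIntegrable _ _
    have cS : Continuous (uncurry fun y x => ∑ i, (v i).1 (x, y) * (v i).1 (x, y)) := by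
      have : Continuous fun p : ℝ × ℝ => ∑ i, (v i).1 (p.2, p.1) * (v i).1 (p.2, p.1) :=
        continuous_finsetSum _ fun i _ => cF i
      exact this
    have e3 := mono2 cS (G := fun _ _ => C) continuous_const (a := 0) (b := 2 * Real.pi) (c := 0)
      (d := L) (by positivity) hL.le (fun y _ x _ => by
        have := hv2' (x, y)
        simp only [pow_two] at this
        exact this)
    rw [const2] at e3
    have e4 : (s.card : ℝ) ≤ N := by
      rw [e1, e2]
      refine e3.trans (le_trans (le_of_eq ?_) hN)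
      ring
    exact_mod_cast e4
  exact Module.rank_lt_aleph0_iff.1 (h1.trans_lt (Cardinal.natCast_lt_aleph0))

end Pool.Agent.Sub70.LT
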