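import Pool.Agent.Sub70.LT.Sys

/-!
# The flux through a side
-/

set_option autoImplicit false

namespace Pool.Agent.Sub70.LT

open Set MeasureTheory Filter Topology Function

theorem TT_nonneg (dl u p : ℝ) : 0 ≤ TT dl u p := Real.sqrt_nonneg _

theorem PP_ge {dl c u p : ℝ} (hp : 0 < p) : c ≤ PP dl c u p := by
  have := mul_nonneg hp.le (TT_nonneg dl u p)
  unfold PP
  linarith

theorem DD_ge {dl c u p : ℝ} (hc : 0 < c) (hp : 0 < p) (q : ℝ) :
    c ^ 2 + q ^ 2 ≤ DD dl c u p q := by
  have h := PP_ge (dl := dl) (c := c) (u := u) hp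
  unfold DD
  nlinarith

theorem abs_al_le {dl c u p : ℝ} (hc : 0 < c) (hp : 0 < p) (q : ℝ) :
    |al dl c u p q| ≤ 1 / c := by
  have h1 := PP_ge (dl := dl) (c := c) (u := u) hp
  have h2 := DD_ge (dl := dl) (u := u) hc hp q
  have h3 := TT_nonneg dl u p
  have h4 := abs_le_TT (dl := dl) u p
  have hD : 0 < DD dl c u p q := lt_of_lt_of_le (by positivity) h2
  have hP : 0 < PP dl c u p := hc.trans_le h1
  unfold al
  rcases h3.eq_or_lt with h0 | h0
  · rw [← h0, zero_mul, div_zero, abs_zero]
    positivity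
  · rw [abs_div, abs_mul, abs_of_pos hP, abs_of_pos (mul_pos h0 hD), div_le_div_iff₀
      (mul_pos h0 hD) hc]
    have h5 : PP dl c u p * PP dl c u p ≤ DD dl c u p q := by
      unfold DD
      nlinarith [sq_nonneg q]
    calc PP dl c u p * |u| * c ≤ PP dl c u p * TT dl u p * PP dl c u p := by gcongr
      _ = TT dl u p * (PP dl c u p * PP dl c u p) := by ring
      _ ≤ TT dl u p * DD dl c u p q := mul_le_mul_of_nonneg_left h5 h0.le
      _ = 1 * (TT dl u p * DD dl c u p q) := by ring

theorem abs_be_le {dl c u p : ℝ} (hc : 0 < c) (hp : 0 < p) (q : ℝ) :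
    |be dl c u p q| ≤ 1 / c := by
  have h2 := DD_ge (dl := dl) (u := u) hc hp q
  have hD : 0 < DD dl c u p q := lt_of_lt_of_le (by positivity) h2
  unfold be
  rw [abs_div, abs_of_pos hD, div_le_div_iff₀ hD hc, one_mul]
  refine le_trans ?_ h2
  nlinarith [sq_nonneg (|q| - c), sq_abs q, abs_nonneg q]

/-- The integrand on a side. -/
noncomputable def vv (dl c : ℝ) (u p q q' w' : ℝ → ℝ) (t : ℝ) : ℝ :=
  al dl c (u t) (p t) (q t) * q' t - be dl c (u t) (p t) (q t) * w' t

variable {dl c : ℝ} {u p q w q' w' : ℝ → ℝ}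

theorem vv_le (hc : 0 < c) (hp : ∀ t, 0 < p t) (t : ℝ) :
    |vv dl c u p q q' w' t| ≤ (|q' t| + |w' t|) / c := by
  have h1 := abs_al_le (dl := dl) (u := u t) hc (hp t) (q t)
  have h2 := abs_be_le (dl := dl) (u := u t) hc (hp t) (q t)
  unfold vv
  refine (abs_sub _ _).trans ?_
  rw [abs_mul, abs_mul, add_div]
  refine add_le_add ?_ ?_
  · calc _ ≤ 1 / c * |q' t| := mul_le_mul_of_nonneg_right h1 (abs_nonneg _)
      _ = _ := by ring
  · calc _ ≤ 1 / c * |w' t| := mul_le_mul_of_nonneg_right h2 (abs_nonneg _)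
      _ = _ := by ring

theorem vv_meas (hu : Continuous u) (hp : Continuous p) (hq : Continuous q)
    (hq' : Continuous q') (hw' : Continuous w') : Measurable (vv dl c u p q q' w') := by
  have h1 := (TT_c (dl := dl) hu hp).measurable
  have h2 := (PP_c (dl := dl) (c := c) hu hp).measurable
  have h3 := (DD_c (dl := dl) (c := c) hu hp hq).measurable
  unfold vv al be
  exact ((((h2.mul hu.measurable).div (h1.mul h3)).mul hq'.measurable).sub
    ((hq.measurable.div h3).mul hw'.measurable))

theorem vv_int (hc : 0 < c) (hp0 : ∀ t, 0 < p t) (hu : Continuous u) (hp : Continuous p)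
    (hq : Continuous q) (hq' : Continuous q') (hw' : Continuous w') (a b : ℝ) :
    IntervalIntegrable (vv dl c u p q q' w') volume a b := by
  have h1 : IntervalIntegrable (fun t => (|q' t| + |w' t|) / c) volume a b :=
    ((hq'.abs.add hw'.abs).div_const c).intervalIntegrable _ _
  refine h1.mono_fun (vv_meas hu hp hq hq' hw').aestronglyMeasurable
    (Eventually.of_forall fun t => ?_)
  show ‖vv dl c u p q q' w' t‖ ≤ ‖(|q' t| + |w' t|) / c‖
  rw [Real.norm_eq_abs, Real.norm_eq_abs, abs_of_nonneg (by positivity : 0 ≤ (|q' t| + |w' t|) / c)]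
  exact vv_le hc hp0 t

/-- Limits of the integrals. -/
theorem vv_lim (hc : 0 < c) (hp0 : ∀ t, 0 < p t) (hu : Continuous u) (hp : Continuous p)
    (hq : Continuous q) (hq' : Continuous q') (hw' : Continuous w') (a b : ℝ) :
    Tendsto (fun dl => ∫ t in a..b, vv dl c u p q q' w' t) (𝓝[>] 0)
      (𝓝 (∫ t in a..b, vv 0 c u p q q' w' t)) := by
  refine intervalIntegral.tendsto_integral_filter_of_dominated_convergence
    (fun t => (|q' t| + |w' t|) / c)
    (Eventually.of_forall fun dl => (vv_meas hu hp hq hq' hw').aestronglyMeasurable)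
    (Eventually.of_forall fun dl => Eventually.of_forall fun t _ => ?_)
    (((hq'.abs.add hw'.abs).div_const c).intervalIntegrable _ _)
    (Eventually.of_forall fun t _ => ?_)
  · rw [Real.norm_eq_abs]
    exact vv_le hc hp0 t
  · refine Tendsto.mono_left ?_ nhdsWithin_le_nhds
    have cT : ContinuousAt (fun dl => TT dl (u t) (p t)) 0 := by
      unfold TT
      fun_prop
    have cP : ContinuousAt (fun dl => PP dl c (u t) (p t)) 0 := by
      unfold PP
      fun_prop
    have cD : ContinuousAt (fun dl => DD dl c (u t) (p t) (q t)) 0 := by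
      unfold DD
      fun_prop
    have hD0 : DD 0 c (u t) (p t) (q t) ≠ 0 := by
      have := DD_ge (dl := 0) (u := u t) hc (hp0 t) (q t)
      have h2 : 0 < c ^ 2 + q t ^ 2 := by positivity
      linarith
    have ca : ContinuousAt (fun dl => al dl c (u t) (p t) (q t)) 0 := by
      by_cases h0 : u t = 0
      · have : (fun dl => al dl c (u t) (p t) (q t)) = fun _ => 0 := by
          funext dl
          unfold al
          rw [h0, mul_zero, zero_div]
        rw [this]
        exact continuousAt_const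
      · unfold al
        have hT0 : TT 0 (u t) (p t) ≠ 0 := by
          unfold TT
          rw [Real.sqrt_ne_zero (by positivity)]
          simpa using h0
        exact (cP.mul continuousAt_const).div (cT.mul cD) (mul_ne_zero hT0 hD0)
    have cb : ContinuousAt (fun dl => be dl c (u t) (p t) (q t)) 0 := by
      unfold be
      exact continuousAt_const.div cD hD0
    exact ((ca.mul continuousAt_const).sub (cb.mul continuousAt_const))

/-- No zeros inside. -/
theorem vv0_one (hc : 0 < c) (hp0 : ∀ t, 0 < p t) (hu : Continuous u) (hp : Continuous p)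
    (hq : ∀ t, HasDerivAt q (q' t) t) (hw : ∀ t, HasDerivAt w (w' t) t)
    (hq' : Continuous q') (hw' : Continuous w') {a b : ℝ} (hab : a ≤ b)
    (hwe : ∀ t ∈ Icc a b, w t = u t * p t) {σ : ℝ} (hσ : σ = 1 ∨ σ = -1)
    (h : ∀ t ∈ Ioo a b, 0 < σ * u t) :
    |∫ t in a..b, vv 0 c u p q q' w' t| ≤ Real.pi := by
  have cq : Continuous q := continuous_iff_continuousAt.2 fun t => (hq t).continuousAt
  have cw : Continuous w := continuous_iff_continuousAt.2 fun t => (hw t).continuousAt
  rcases hab.eq_or_lt with h0 | h0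
  · rw [h0, intervalIntegral.integral_same, abs_zero]
    exact Real.pi_pos.le
  have hσ2 : σ * σ = 1 := by rcases hσ with h | h <;> rw [h] <;> norm_num
  have hcl : ∀ t ∈ Icc a b, 0 ≤ σ * u t := by
    intro t ht
    have h1 : t ∈ closure (Ioo a b) := by rwa [closure_Ioo h0.ne]
    have h2 : Ioo a b ⊆ {t | 0 ≤ σ * u t} := fun s hs => (h s hs).le
    have h3 : IsClosed {t | 0 ≤ σ * u t} := isClosed_le continuous_const (by fun_prop)
    exact (closure_minimal h2 h3) h1
  have hpos : ∀ t ∈ Icc a b, 0 < σ * w t + c := by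
    intro t ht
    rw [hwe t ht, ← mul_assoc]
    have := mul_nonneg (hcl t ht) (hp0 t).le
    linarith
  set θ : ℝ → ℝ := fun t => σ * Real.arctan (q t / (σ * w t + c)) with hθ
  have hθd : ∀ t ∈ Icc a b, HasDerivAt θ (σ * (1 / (1 + (q t / (σ * w t + c)) ^ 2) *
      ((q' t * (σ * w t + c) - q t * (σ * w' t)) / (σ * w t + c) ^ 2))) t := by
    intro t ht
    have h1 := (hq t).div (((hw t).const_mul σ).add_const c) (hpos t ht).ne'
    exact (h1.arctan).const_mul σ
  have key := intervalIntegral.integral_eq_sub_of_hasDerivAt_of_le (f := θ)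
    (f' := vv 0 c u p q q' w') h0.le
    (fun t ht => (hθd t ht).continuousAt.continuousWithinAt) (fun t ht => by
      have ht' : t ∈ Icc a b := ⟨ht.1.le, ht.2.le⟩
      refine (hθd t ht').congr_deriv ?_
      have e0 : |u t| = σ * u t := by
        rw [← abs_of_pos (h t ht), abs_mul]
        rcases hσ with h | h <;> rw [h] <;> norm_num
      have e1 : TT 0 (u t) (p t) = σ * u t := by
        unfold TT
        rw [← e0, ← Real.sqrt_sq_eq_abs]
        congr 1
        ring
      have e2 : PP 0 c (u t) (p t) = σ * w t + c := by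
        unfold PP
        rw [e1, hwe t ht']
        ring
      have e3 : DD 0 c (u t) (p t) (q t) = (σ * w t + c) ^ 2 + q t ^ 2 := by
        unfold DD
        rw [e2]
      have hpt := hpos t ht'
      have hu0 := h t ht
      unfold vv al be
      rw [e2, e3, e1]
      set W := σ * w t + c with hW
      have hD : W ^ 2 + q t ^ 2 ≠ 0 := by positivity
      have hu1 : σ * u t ≠ 0 := hu0.ne'
      have e4 : u t = σ * (σ * u t) := by rw [← mul_assoc, hσ2, one_mul]
      have e5 : W * u t / (σ * u t * (W ^ 2 + q t ^ 2)) = σ * W / (W ^ 2 + q t ^ 2) := by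
        rw [div_eq_div_iff (mul_ne_zero hu1 hD) hD]
        nth_rewrite 1 [e4]
        ring
      rw [e5]
      have e6 : 1 + (q t / W) ^ 2 = (W ^ 2 + q t ^ 2) / W ^ 2 := by
        field_simp
      rw [e6]
      field_simp
      linear_combination (-(q t * w' t)) * hσ2)
    (vv_int hc hp0 hu hp cq hq' hw' a b)
  rw [key]
  have hbd : ∀ t, |θ t| ≤ Real.pi / 2 := by
    intro t
    simp only [hθ]
    rw [abs_mul]
    have : |σ| = 1 := by rcases hσ with h | h <;> rw [h] <;> norm_num
    rw [this, one_mul, abs_le]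
    exact ⟨(Real.neg_pi_div_two_lt_arctan _).le, (Real.arctan_lt_pi_div_two _).le⟩
  have h1 := hbd a
  have h2 := hbd b
  have h3 := abs_sub (θ b) (θ a)
  linarith

/-- The integral over a side with few zeros. -/
theorem vv0_le (hc : 0 < c) (hp0 : ∀ t, 0 < p t) (hu : Continuous u) (hp : Continuous p)
    (hq : ∀ t, HasDerivAt q (q' t) t) (hw : ∀ t, HasDerivAt w (w' t) t)
    (hq' : Continuous q') (hw' : Continuous w') {A B : ℝ}
    (hwe : ∀ t ∈ Icc A B, w t = u t * p t) : ∀ (n : ℕ) (a b : ℝ) (Z : Finset ℝ), A ≤ a → a ≤ b →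
    b ≤ B → (∀ t ∈ Ioo a b, u t = 0 → t ∈ Z) → Z.card ≤ n →
    |∫ t in a..b, vv 0 c u p q q' w' t| ≤ Real.pi * (n + 1) := by
  have cq : Continuous q := continuous_iff_continuousAt.2 fun t => (hq t).continuousAt
  intro n
  induction n using Nat.strong_induction_on with
  | _ n ih =>
    intro a b Z hAa hab hbB hZ hn
    by_cases hz : ∃ z ∈ Ioo a b, u z = 0
    · obtain ⟨z, hz1, hz2⟩ := hz
      have hzZ : z ∈ Z := hZ z hz1 hz2
      set Z1 := Z.filter (fun t => t < z) with hZ1
      set Z2 := Z.filter (fun t => z < t) with hZ2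
      have hcard : Z1.card + Z2.card + 1 ≤ Z.card := by
        have hd : Disjoint Z1 Z2 := by
          rw [Finset.disjoint_left]
          intro t ht1 ht2
          have e1 := (Finset.mem_filter.1 ht1).2
          have e2 := (Finset.mem_filter.1 ht2).2
          exact lt_asymm e1 e2
        have hzn : z ∉ Z1 ∪ Z2 := by
          intro h
          rcases Finset.mem_union.1 h with h | h
          · exact lt_irrefl _ (Finset.mem_filter.1 h).2
          · exact lt_irrefl _ (Finset.mem_filter.1 h).2
        rw [← Finset.card_union_of_disjoint hd, ← Finset.card_insert_of_notMem hzn]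
        refine Finset.card_le_card ?_
        intro t ht
        rcases Finset.mem_insert.1 ht with h | h
        · rw [h]
          exact hzZ
        · rcases Finset.mem_union.1 h with h | h
          · exact (Finset.mem_filter.1 h).1
          · exact (Finset.mem_filter.1 h).1
      have h1 := ih Z1.card (by omega) a z Z1 hAa hz1.1.le (hz1.2.le.trans hbB)
        (fun t ht h => Finset.mem_filter.2 ⟨hZ t ⟨ht.1, ht.2.trans hz1.2⟩ h, ht.2⟩) le_rfl
      have h2 := ih Z2.card (by omega) z b Z2 (hAa.trans hz1.1.le) hz1.2.le hbB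
        (fun t ht h => Finset.mem_filter.2 ⟨hZ t ⟨hz1.1.trans ht.1, ht.2⟩ h, ht.1⟩) le_rfl
      rw [← intervalIntegral.integral_add_adjacent_intervals
        (vv_int hc hp0 hu hp cq hq' hw' a z) (vv_int hc hp0 hu hp cq hq' hw' z b)]
      refine (abs_add_le _ _).trans ((add_le_add h1 h2).trans ?_)
      rw [← mul_add]
      refine mul_le_mul_of_nonneg_left ?_ Real.pi_pos.le
      have : (Z1.card : ℝ) + Z2.card + 1 ≤ n := by
        have := hcard.trans hn
        exact_mod_cast this
      linarith
    · push Not at hz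
      have hpi := Real.pi_pos
      have hn0 : (0 : ℝ) ≤ n := Nat.cast_nonneg n
      have hfin : ∀ σ : ℝ, σ = 1 ∨ σ = -1 → (∀ t ∈ Ioo a b, 0 < σ * u t) →
          |∫ t in a..b, vv 0 c u p q q' w' t| ≤ Real.pi * (n + 1) := by
        intro σ hσ h
        have h1 := vv0_one hc hp0 hu hp hq hw hq' hw' hab
          (fun t ht => hwe t ⟨hAa.trans ht.1, ht.2.trans hbB⟩) hσ h
        nlinarith
      by_cases hpos : ∃ s ∈ Ioo a b, 0 < u s
      · obtain ⟨s, hs, hs0⟩ := hpos
        refine hfin 1 (Or.inl rfl) fun t ht => ?_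
        rw [one_mul]
        by_contra hcon
        have h3 : (0 : ℝ) ∈ Icc (u t) (u s) := ⟨not_lt.1 hcon, hs0.le⟩
        obtain ⟨r, hr, hr0⟩ := isPreconnected_Ioo.intermediate_value ht hs hu.continuousOn h3
        exact hz r hr hr0
      · push Not at hpos
        refine hfin (-1) (Or.inr rfl) fun t ht => ?_
        have h1 := lt_of_le_of_ne (hpos t ht) (hz t ht)
        linarith

/-- The integral over a side for small parameters. -/
theorem vv_ev (hc : 0 < c) (hp0 : ∀ t, 0 < p t) (hu : Continuous u) (hp : Continuous p)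
    (hq : ∀ t, HasDerivAt q (q' t) t) (hw : ∀ t, HasDerivAt w (w' t) t)
    (hq' : Continuous q') (hw' : Continuous w') {a b : ℝ} (hab : a ≤ b)
    (hwe : ∀ t ∈ Icc a b, w t = u t * p t) {n : ℕ} {Z : Finset ℝ}
    (hZ : ∀ t ∈ Ioo a b, u t = 0 → t ∈ Z) (hn : Z.card ≤ n) :
    ∀ᶠ dl in 𝓝[>] (0 : ℝ), |∫ t in a..b, vv dl c u p q q' w' t| ≤ Real.pi * (n + 1) + 1 := by
  have cq : Continuous q := continuous_iff_continuousAt.2 fun t => (hq t).continuousAt
  have h1 := vv0_le hc hp0 hu hp hq hw hq' hw' hwe n a b Z le_rfl hab le_rfl hZ hn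
  have h2 := (vv_lim hc hp0 hu hp cq hq' hw' a b).abs
  have h3 : |∫ t in a..b, vv 0 c u p q q' w' t| < Real.pi * (n + 1) + 1 := by linarith
  filter_upwards [h2.eventually (gt_mem_nhds h3)] with dl h
  exact h.le

end Pool.Agent.Sub70.LT
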