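import Pool.Agent.R906.LinODE

/-!
# Zeros of sums of solutions of Sturm-Liouville equations on a circle
-/

set_option autoImplicit false

namespace Pool.Agent.Sub70.LT

open Set

/-- The coefficient matrix of `v'' = q v`. -/
noncomputable def mat (q : ℝ → ℝ) (a t : ℝ) : ℝ × ℝ →L[ℝ] ℝ × ℝ :=
  (ContinuousLinearMap.snd ℝ ℝ ℝ).prod (q (t + a) • ContinuousLinearMap.fst ℝ ℝ ℝ)

theorem mat_cont {q : ℝ → ℝ} (hq : Continuous q) (a : ℝ) : Continuous (mat q a) := by
  have h : mat q a = fun t => (ContinuousLinearMap.inl ℝ ℝ ℝ).comp (ContinuousLinearMap.snd ℝ ℝ ℝ) +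
      q (t + a) • (ContinuousLinearMap.inr ℝ ℝ ℝ).comp (ContinuousLinearMap.fst ℝ ℝ ℝ) := by
    funext t
    ext <;> simp [mat]
  rw [h]
  have h1 : Continuous fun t : ℝ => q (t + a) := hq.comp (by fun_prop)
  exact continuous_const.add (h1.smul continuous_const)

/-- Existence for a second order linear equation. -/
theorem ode2 {q : ℝ → ℝ} (hq : Continuous q) (a c d : ℝ) : ∃ v v' : ℝ → ℝ, v a = c ∧ v' a = d ∧
    (∀ t, HasDerivAt v (v' t) t) ∧ ∀ t, HasDerivAt v' (q t * v t) t := by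
  obtain ⟨Y, h0, hY⟩ := Pool.Agent.R906.LinODE.lin_exists (mat q a) (mat_cont hq a) (c, d)
  refine ⟨fun t => (Y (t - a)).1, fun t => (Y (t - a)).2, by simp [h0], by simp [h0], ?_, ?_⟩
  · intro t
    have h1 : HasDerivAt (fun t => Y (t - a)) (mat q a (t - a) (Y (t - a))) t :=
      (hY (t - a)).comp_sub_const t a
    have h2 := (ContinuousLinearMap.fst ℝ ℝ ℝ).hasFDerivAt.comp_hasDerivAt t h1
    exact h2.congr_deriv (by simp [mat])
  · intro t
    have h1 : HasDerivAt (fun t => Y (t - a)) (mat q a (t - a) (Y (t - a))) t :=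
      (hY (t - a)).comp_sub_const t a
    have h2 := (ContinuousLinearMap.snd ℝ ℝ ℝ).hasFDerivAt.comp_hasDerivAt t h1
    exact h2.congr_deriv (by simp [mat])

/-- Uniqueness for a second order linear equation. -/
theorem ode2_unique {q v v' : ℝ → ℝ} (hq : Continuous q) {a : ℝ} (h0 : v a = 0) (h1 : v' a = 0)
    (hv : ∀ t, HasDerivAt v (v' t) t) (hv' : ∀ t, HasDerivAt v' (q t * v t) t) (t : ℝ) :
    v t = 0 := by
  have h2 : (fun t => (v (t + a), v' (t + a))) = fun _ => ((0 : ℝ), (0 : ℝ)) := by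
    refine Pool.Agent.R906.LinODE.lin_unique (mat q a) (mat_cont hq a) (fun t => ?_) (fun t => ?_) ?_
    · have h3 : HasDerivAt (fun t => v (t + a)) (v' (t + a)) t := (hv (t + a)).comp_add_const t a
      have h4 : HasDerivAt (fun t => v' (t + a)) (q (t + a) * v (t + a)) t :=
        (hv' (t + a)).comp_add_const t a
      have h5 := h3.prodMk h4
      exact h5.congr_deriv (by simp [mat])
    · have h5 := hasDerivAt_const t ((0 : ℝ), (0 : ℝ))
      exact h5.congr_deriv (by simp [mat]; rfl)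
    · simp [h0, h1]
  have h3 := congrFun h2 (t - a)
  simp only [sub_add_cancel, Prod.mk.injEq] at h3
  exact h3.1

/-- Rolle's theorem for finite sets of zeros. -/
theorem rolle_card {h h' : ℝ → ℝ} {a b : ℝ} (hd : ∀ t ∈ Ico a b, HasDerivAt h (h' t) t)
    (Z : Finset ℝ) : (∀ z ∈ Z, z ∈ Ico a b ∧ h z = 0) →
    ∃ Z' : Finset ℝ, (∀ z ∈ Z', (z ∈ Ico a b ∧ h' z = 0) ∧ ∃ w ∈ Z, z < w) ∧
      Z.card ≤ Z'.card + 1 := by
  classical
  induction Z using Finset.induction_on_max with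
  | empty => intro _; exact ⟨∅, by simp, by simp⟩
  | insert m Z hm ih =>
    intro hZ
    obtain ⟨Z', h1, h2⟩ := ih fun z hz => hZ z (Finset.mem_insert_of_mem hz)
    rcases Z.eq_empty_or_nonempty with rfl | hne
    · exact ⟨∅, by simp, by simp⟩
    · have hw := Z.max'_mem hne
      have hwm := hm _ hw
      have hwI := hZ _ (Finset.mem_insert_of_mem hw)
      have hmI := hZ m (Finset.mem_insert_self _ _)
      obtain ⟨c, hc, hc0⟩ := exists_hasDerivAt_eq_zero (f := h) (f' := h') hwm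
        (fun x hx => (hd x ⟨hwI.1.1.trans hx.1, hx.2.trans_lt hmI.1.2⟩).continuousAt.continuousWithinAt)
        (by rw [hwI.2, hmI.2])
        (fun x hx => hd x ⟨hwI.1.1.trans hx.1.le, hx.2.trans hmI.1.2⟩)
      have hcn : c ∉ Z' := by
        intro hcZ
        obtain ⟨_, w, hw1, hw2⟩ := h1 c hcZ
        have := Z.le_max' w hw1
        linarith [hc.1]
      refine ⟨insert c Z', ?_, ?_⟩
      · intro z hz
        rcases Finset.mem_insert.1 hz with rfl | hz
        · exact ⟨⟨⟨hwI.1.1.trans hc.1.le, hc.2.trans hmI.1.2⟩, hc0⟩, m,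
            Finset.mem_insert_self _ _, hc.2⟩
        · obtain ⟨h3, w, hw1, hw2⟩ := h1 z hz
          exact ⟨h3, w, Finset.mem_insert_of_mem hw1, hw2⟩
      · rw [Finset.card_insert_of_notMem hcn, Finset.card_insert_of_notMem]
        · omega
        · intro h3
          exact lt_irrefl _ (hm m h3)

/-- A positive solution. -/
theorem pos_sol {Q v v' : ℝ → ℝ} (hQ0 : ∀ t, 0 ≤ Q t) {a : ℝ} (h0 : v a = 1) (h1 : v' a = 0)
    (hv : ∀ t, HasDerivAt v (v' t) t) (hv' : ∀ t, HasDerivAt v' (Q t * v t) t) {t : ℝ}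
    (ht : a ≤ t) : 0 < v t := by
  have e1 : ∀ t, HasDerivAt (fun t => v t * v' t) (v' t * v' t + v t * (Q t * v t)) t := fun t =>
    (hv t).mul (hv' t)
  have m1 : Monotone fun t => v t * v' t := monotone_of_hasDerivAt_nonneg e1 fun t => by
    have h3 := mul_nonneg (hQ0 t) (mul_self_nonneg (v t))
    have h4 := mul_self_nonneg (v' t)
    show (0 : ℝ) ≤ v' t * v' t + v t * (Q t * v t)
    nlinarith
  have e2 : ∀ t, HasDerivAt (fun t => v t * v t) (v' t * v t + v t * v' t) t := fun t =>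
    (hv t).mul (hv t)
  have m2 : ∀ t, a ≤ t → 1 ≤ v t * v t := by
    intro t ht
    have m3 : MonotoneOn (fun t => v t * v t) (Icc a t) := by
      refine monotoneOn_of_deriv_nonneg (convex_Icc a t)
        (fun x _ => (e2 x).continuousAt.continuousWithinAt)
        (fun x _ => (e2 x).differentiableAt.differentiableWithinAt) ?_
      intro x hx
      rw [interior_Icc] at hx
      rw [(e2 x).deriv]
      have h3 := m1 hx.1.le
      simp only [h0, h1, mul_zero] at h3
      nlinarith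
    have h3 := m3 ⟨le_rfl, ht⟩ ⟨ht, le_rfl⟩ ht
    simpa [h0] using h3
  by_contra hneg
  push Not at hneg
  have hc : ContinuousOn v (Icc a t) := fun x _ => (hv x).continuousAt.continuousWithinAt
  obtain ⟨s, hs, hs0⟩ := intermediate_value_Icc' ht hc (show (0 : ℝ) ∈ Icc (v t) (v a) from
    ⟨hneg, by rw [h0]; exact zero_le_one⟩)
  have h4 := m2 s hs.1
  rw [hs0] at h4
  norm_num at h4

/-- The step of Liouville's proof. -/
theorem zeros_step {Q U U' U1 : ℝ → ℝ} (hQ : Continuous Q) (hQ0 : ∀ t, 0 ≤ Q t) {a b : ℝ}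
    (hU : ∀ t, HasDerivAt U (U' t) t) (hU' : ∀ t, HasDerivAt U' (Q t * U t - U1 t) t)
    (Z : Finset ℝ) (hZ : ∀ z ∈ Z, z ∈ Ico a b ∧ U z = 0) :
    ∃ Z' : Finset ℝ, (∀ z ∈ Z', z ∈ Ico a b ∧ U1 z = 0) ∧ Z.card ≤ Z'.card + 2 := by
  obtain ⟨v, v', h0, h1, hv, hv'⟩ := ode2 hQ a 1 0
  have hpos : ∀ t ∈ Ico a b, 0 < v t := fun t ht => pos_sol hQ0 h0 h1 hv hv' ht.1
  have hd1 : ∀ t ∈ Ico a b, HasDerivAt (fun t => U t / v t)
      ((U' t * v t - U t * v' t) / v t ^ 2) t := fun t ht => (hU t).div (hv t) (hpos t ht).ne'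
  obtain ⟨Z1, h2, h3⟩ := rolle_card hd1 Z fun z hz => ⟨(hZ z hz).1, by
    show U z / v z = 0
    rw [(hZ z hz).2, zero_div]⟩
  have hd2 : ∀ t ∈ Ico a b, HasDerivAt (fun t => U' t * v t - U t * v' t) (-(U1 t * v t)) t := by
    intro t _
    have := ((hU' t).mul (hv t)).sub ((hU t).mul (hv' t))
    refine this.congr_deriv ?_
    ring
  obtain ⟨Z2, h4, h5⟩ := rolle_card hd2 Z1 fun z hz => by
    obtain ⟨⟨h6, h7⟩, _⟩ := h2 z hz
    refine ⟨h6, ?_⟩
    have h8 := hpos z h6
    rcases div_eq_zero_iff.1 h7 with h9 | h9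
    · exact h9
    · exact absurd h9 (by positivity)
  refine ⟨Z2, fun z hz => ?_, by omega⟩
  obtain ⟨⟨h6, h7⟩, _⟩ := h4 z hz
  refine ⟨h6, ?_⟩
  rw [neg_eq_zero, mul_eq_zero] at h7
  exact h7.resolve_right (hpos z h6).ne'

/-- The number of zeros on a circle does not decrease. -/
theorem zeros_per {Q U U' U1 : ℝ → ℝ} (hQ : Continuous Q) (hQ0 : ∀ t, 0 ≤ Q t) {a L : ℝ}
    (hL : 0 < L) (hU : ∀ t, HasDerivAt U (U' t) t)
    (hU' : ∀ t, HasDerivAt U' (Q t * U t - U1 t) t) (hper : ∀ t, U (t + L) = U t)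
    (hper1 : ∀ t, U1 (t + L) = U1 t)
    (Z : Finset ℝ) (hZ : ∀ z ∈ Z, z ∈ Ico a (a + L) ∧ U z = 0) :
    ∃ Z' : Finset ℝ, (∀ z ∈ Z', z ∈ Ico a (a + L) ∧ U1 z = 0) ∧ Z.card ≤ Z'.card := by
  classical
  rcases Nat.eq_zero_or_pos Z.card with h0 | hn
  · exact ⟨∅, by simp, by simp [h0]⟩
  have inj : ∀ c : ℝ, Function.Injective fun z : ℝ => z + c := fun c => add_left_injective c
  have hc1 : (Z.image fun z => z + L).card = Z.card := Finset.card_image_of_injective _ (inj L)
  have hc2 : (Z.image fun z => z + 2 * L).card = Z.card :=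
    Finset.card_image_of_injective _ (inj (2 * L))
  have hd1 : Disjoint Z (Z.image fun z => z + L) := by
    rw [Finset.disjoint_left]
    intro x hx hx'
    obtain ⟨y, hy, rfl⟩ := Finset.mem_image.1 hx'
    have h1 := (hZ _ hx).1.2
    have h2 := (hZ y hy).1.1
    linarith
  have hd2 : Disjoint (Z ∪ Z.image fun z => z + L) (Z.image fun z => z + 2 * L) := by
    rw [Finset.disjoint_left]
    intro x hx hx'
    obtain ⟨y, hy, rfl⟩ := Finset.mem_image.1 hx'
    have h2 := (hZ y hy).1.1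
    rcases Finset.mem_union.1 hx with hx | hx
    · have h1 := (hZ _ hx).1.2
      linarith
    · obtain ⟨w, hw, hwe⟩ := Finset.mem_image.1 hx
      have h1 := (hZ w hw).1.2
      linarith
  obtain ⟨Z1, h1, h2⟩ := zeros_step hQ hQ0 (a := a) (b := a + 3 * L) hU hU'
    ((Z ∪ Z.image fun z => z + L) ∪ Z.image fun z => z + 2 * L) (by
      intro z hz
      rcases Finset.mem_union.1 hz with hz | hz
      · rcases Finset.mem_union.1 hz with hz | hz
        · have := hZ z hz
          exact ⟨⟨this.1.1, by linarith [this.1.2]⟩, this.2⟩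
        · obtain ⟨w, hw, rfl⟩ := Finset.mem_image.1 hz
          have := hZ w hw
          exact ⟨⟨by linarith [this.1.1], by linarith [this.1.2]⟩, by rw [hper]; exact this.2⟩
      · obtain ⟨w, hw, rfl⟩ := Finset.mem_image.1 hz
        have := hZ w hw
        refine ⟨⟨by linarith [this.1.1], by linarith [this.1.2]⟩, ?_⟩
        rw [show w + 2 * L = w + L + L by ring, hper, hper]
        exact this.2)
  rw [Finset.card_union_of_disjoint hd2, Finset.card_union_of_disjoint hd1, hc1, hc2] at h2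
  have hmap : ∀ z ∈ Z1, ⌊(z - a) / L⌋₊ ∈ Finset.range 3 := by
    intro z hz
    rw [Finset.mem_range, Nat.floor_lt (div_nonneg (by linarith [(h1 z hz).1.1]) hL.le),
      div_lt_iff₀ hL]
    push_cast
    linarith [(h1 z hz).1.2]
  obtain ⟨j, hj, hj2⟩ := Finset.exists_lt_card_fiber_of_mul_lt_card_of_maps_to hmap
    (n := Z.card - 1) (by rw [Finset.card_range]; omega)
  have hper1' : ∀ (n : ℕ) (t : ℝ), U1 (t + n * L) = U1 t := by
    intro n
    induction n with
    | zero => intro t; simp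
    | succ n ih =>
      intro t
      rw [show t + ((n + 1 : ℕ) : ℝ) * L = t + n * L + L by push_cast; ring, hper1, ih]
  refine ⟨(Z1.filter fun z => ⌊(z - a) / L⌋₊ = j).image fun z => z + -(j * L), ?_, ?_⟩
  · intro z hz
    obtain ⟨w, hw, rfl⟩ := Finset.mem_image.1 hz
    obtain ⟨hw1, hw2⟩ := Finset.mem_filter.1 hw
    have hnn : 0 ≤ (w - a) / L := div_nonneg (by linarith [(h1 w hw1).1.1]) hL.le
    have h3 := Nat.floor_le hnn
    have h4 := Nat.lt_floor_add_one ((w - a) / L)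
    rw [hw2] at h3 h4
    rw [le_div_iff₀ hL] at h3
    rw [div_lt_iff₀ hL] at h4
    refine ⟨⟨by linarith, by linarith⟩, ?_⟩
    have h5 := hper1' j (w + -(j * L))
    rw [show w + -(j * L) + j * L = w by ring] at h5
    rw [← h5]
    exact (h1 w hw1).2
  · rw [Finset.card_image_of_injective _ (inj _)]
    omega

/-- Sturm's bound for the number of zeros of a sum of solutions on a circle. -/
theorem sturm {ι : Type} [Fintype ι] {f : ℝ → ℝ} (hf : Continuous f) {L lam F Q a : ℝ}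
    (hL : 0 < L) (hlam : 0 < lam) (hQ : 0 < Q) (hfF : ∀ x, |f x| ≤ F) (μ : ι → ℝ)
    (X X' : ι → ℝ → ℝ) (hX : ∀ i t, HasDerivAt (X i) (X' i t) t)
    (hX' : ∀ i t, HasDerivAt (X' i) ((μ i - lam * f t) * X i t) t)
    (hper : ∀ i t, X i (t + L) = X i t) (hμF : ∀ i, μ i ≤ lam * F)
    (hμ : ∀ i t, |μ i - lam * f t| ≤ Q) (hU : ∃ t, ∑ i, X i t ≠ 0) (Z : Finset ℝ)
    (hZ : ∀ z ∈ Z, z ∈ Ico a (a + L) ∧ ∑ i, X i z = 0) :
    (Z.card : ℝ) ≤ 2 * L * Real.sqrt Q + 2 := by
  classical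
  -- the iterates
  set M : ℝ := lam * (F + 1) with hM
  set e : ι → ℝ := fun i => M - μ i with he
  have he0 : ∀ i, 0 < e i := by
    intro i
    have := hμF i
    simp only [he, hM]
    nlinarith
  set U : ℕ → ℝ → ℝ := fun k t => ∑ i, e i ^ k * X i t with hUk
  set U' : ℕ → ℝ → ℝ := fun k t => ∑ i, e i ^ k * X' i t with hUk'
  have hU1 : ∀ k t, HasDerivAt (U k) (U' k t) t := by
    intro k t
    have h1 : HasDerivAt (fun t => ∑ i, e i ^ k * X i t) (∑ i, e i ^ k * X' i t) t :=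
      HasDerivAt.fun_sum fun i _ => (hX i t).const_mul (e i ^ k)
    exact h1
  have hU2 : ∀ k t, HasDerivAt (U' k) ((M - lam * f t) * U k t - U (k + 1) t) t := by
    intro k t
    have h1 : HasDerivAt (fun t => ∑ i, e i ^ k * X' i t)
        (∑ i, e i ^ k * ((μ i - lam * f t) * X i t)) t :=
      HasDerivAt.fun_sum fun i _ => (hX' i t).const_mul (e i ^ k)
    refine h1.congr_deriv ?_
    simp only [hUk]
    rw [Finset.mul_sum, ← Finset.sum_sub_distrib]
    refine Finset.sum_congr rfl fun i _ => ?_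
    simp only [he]
    rw [pow_succ]
    ring
  have hUper : ∀ k t, U k (t + L) = U k t := fun k t => by simp only [hUk, hper]
  have hMc : Continuous fun t => M - lam * f t := by fun_prop
  have hM0 : ∀ t, 0 ≤ M - lam * f t := by
    intro t
    have := (abs_le.1 (hfF t)).2
    rw [hM]
    nlinarith
  have hZk : ∀ k, ∃ Z' : Finset ℝ, (∀ z ∈ Z', z ∈ Ico a (a + L) ∧ U k z = 0) ∧
      Z.card ≤ Z'.card := by
    intro k
    induction k with
    | zero => exact ⟨Z, by simpa [hUk] using hZ, le_rfl⟩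
    | succ k ih =>
      obtain ⟨Z1, h1, h2⟩ := ih
      obtain ⟨Z2, h3, h4⟩ := zeros_per hMc hM0 hL (hU1 k) (hU2 k) (hUper k) (hUper (k + 1)) Z1 h1
      exact ⟨Z2, h3, h2.trans h4⟩
  -- the groups
  set E : Finset ℝ := Finset.univ.image e with hE
  set Y : ℝ → ℝ → ℝ := fun s t => ∑ i ∈ Finset.univ.filter (fun i => e i = s), X i t with hY
  set Y' : ℝ → ℝ → ℝ := fun s t => ∑ i ∈ Finset.univ.filter (fun i => e i = s), X' i t with hY'
  have hYd : ∀ s t, HasDerivAt (Y s) (Y' s t) t := fun s t =>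
    HasDerivAt.fun_sum fun i _ => hX i t
  have hYd' : ∀ s t, HasDerivAt (Y' s) ((M - s - lam * f t) * Y s t) t := by
    intro s t
    have h1 : HasDerivAt (Y' s)
        (∑ i ∈ Finset.univ.filter (fun i => e i = s), (μ i - lam * f t) * X i t) t :=
      HasDerivAt.fun_sum fun i _ => hX' i t
    refine h1.congr_deriv ?_
    simp only [hY]
    rw [Finset.mul_sum]
    refine Finset.sum_congr rfl fun i hi => ?_
    have h2 := (Finset.mem_filter.1 hi).2
    simp only [he] at h2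
    rw [← h2]
    ring
  have hgrp : ∀ (k : ℕ) (t : ℝ), U k t = ∑ s ∈ E, s ^ k * Y s t := by
    intro k t
    simp only [hUk]
    rw [← Finset.sum_fiberwise_of_maps_to (s := Finset.univ) (t := E) (g := e)
      (fun i _ => Finset.mem_image_of_mem e (Finset.mem_univ i))]
    refine Finset.sum_congr rfl fun s _ => ?_
    simp only [hY]
    rw [Finset.mul_sum]
    refine Finset.sum_congr rfl fun i hi => ?_
    rw [(Finset.mem_filter.1 hi).2]
  have hgrp' : ∀ (k : ℕ) (t : ℝ), U' k t = ∑ s ∈ E, s ^ k * Y' s t := by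
    intro k t
    simp only [hUk']
    rw [← Finset.sum_fiberwise_of_maps_to (s := Finset.univ) (t := E) (g := e)
      (fun i _ => Finset.mem_image_of_mem e (Finset.mem_univ i))]
    refine Finset.sum_congr rfl fun s _ => ?_
    simp only [hY']
    rw [Finset.mul_sum]
    refine Finset.sum_congr rfl fun i hi => ?_
    rw [(Finset.mem_filter.1 hi).2]
  set E1 : Finset ℝ := E.filter fun s => ∃ t, Y s t ≠ 0 with hE1
  have hne : E1.Nonempty := by
    by_contra h1
    rw [Finset.not_nonempty_iff_eq_empty, hE1, Finset.filter_eq_empty_iff] at h1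
    obtain ⟨t, ht⟩ := hU
    apply ht
    have h2 := hgrp 0 t
    simp only [hUk, pow_zero, one_mul] at h2
    rw [h2]
    refine Finset.sum_eq_zero fun s hs => ?_
    have h3 := h1 hs
    push Not at h3
    exact h3 t
  set m : ℝ := E1.max' hne with hm
  have hmE1 : m ∈ E1 := E1.max'_mem hne
  have hmE : m ∈ E := (Finset.mem_filter.1 hmE1).1
  obtain ⟨i0, -, hi0⟩ := Finset.mem_image.1 hmE
  have hm0 : 0 < m := by rw [← hi0]; exact he0 i0
  have hE0 : ∀ s ∈ E, 0 < s := by
    intro s hs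
    obtain ⟨i, -, rfl⟩ := Finset.mem_image.1 hs
    exact he0 i
  -- contradiction hypothesis
  by_contra hcon
  push Not at hcon
  have hsQ : 0 < Real.sqrt Q := Real.sqrt_pos.2 hQ
  have hn2 : (2 : ℝ) < Z.card := by nlinarith [mul_pos hL hsQ]
  set n : ℕ := Z.card - 1 with hn
  have hn2' : 2 < Z.card := by exact_mod_cast hn2
  have hnR : (n : ℝ) = Z.card - 1 := by
    rw [hn, Nat.cast_sub (by omega)]
    simp
  have hnpos : 0 < (n : ℝ) := by rw [hnR]; linarith
  set d : ℝ := L / n with hd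
  have hd0 : 0 < d := by positivity
  have hdQ : Q * d ^ 2 ≤ 1 / 2 := by
    have h1 : 2 * (d * Real.sqrt Q) ≤ 1 := by
      rw [hd]
      have h2 : 2 * (L / n * Real.sqrt Q) = (2 * L * Real.sqrt Q) / n := by ring
      rw [h2, div_le_one hnpos, hnR]
      linarith
    have h3 : (d * Real.sqrt Q) ^ 2 = Q * d ^ 2 := by
      rw [mul_pow, Real.sq_sqrt hQ.le]
      ring
    rw [← h3]
    nlinarith [mul_pos hd0 hsQ]
  -- the top group does not vanish to second order
  have hYm : ∃ t, Y m t ≠ 0 := (Finset.mem_filter.1 hmE1).2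
  have cY : ∀ s, Continuous (Y s) := fun s =>
    continuous_iff_continuousAt.2 fun t => (hYd s t).continuousAt
  have cY' : ∀ s, Continuous (Y' s) := fun s =>
    continuous_iff_continuousAt.2 fun t => (hYd' s t).continuousAt
  obtain ⟨t0, ht0, hmin⟩ := (isCompact_Icc (a := a) (b := a + L)).exists_isMinOn
    (Set.nonempty_Icc.2 (by linarith))
    (f := fun t => |Y m t| + |Y' m t|) ((cY m).abs.add (cY' m).abs).continuousOn
  have hη : 0 < |Y m t0| + |Y' m t0| := by
    by_contra h1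
    have h2 : |Y m t0| = 0 := by linarith [abs_nonneg (Y m t0), abs_nonneg (Y' m t0)]
    have h3 : |Y' m t0| = 0 := by linarith [abs_nonneg (Y m t0), abs_nonneg (Y' m t0)]
    obtain ⟨t, ht⟩ := hYm
    exact ht (ode2_unique (q := fun t => M - m - lam * f t) (by fun_prop) (abs_eq_zero.1 h2)
      (abs_eq_zero.1 h3) (hYd m) (hYd' m) t)
  -- bounds on the circle
  have hbd : ∃ B : ℝ, 0 ≤ B ∧ ∀ s ∈ E, ∀ t ∈ Icc a (a + L), |Y s t| ≤ B ∧ |Y' s t| ≤ B := by
    have h1 : ∀ s, ∃ B : ℝ, ∀ t ∈ Icc a (a + L), |Y s t| ≤ B ∧ |Y' s t| ≤ B := by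
      intro s
      obtain ⟨B1, hB1⟩ := isCompact_Icc.exists_bound_of_continuousOn
        (s := Icc a (a + L)) (cY s).continuousOn
      obtain ⟨B2, hB2⟩ := isCompact_Icc.exists_bound_of_continuousOn
        (s := Icc a (a + L)) (cY' s).continuousOn
      exact ⟨max B1 B2, fun t ht => ⟨(hB1 t ht).trans (le_max_left _ _),
        (hB2 t ht).trans (le_max_right _ _)⟩⟩
    choose B hB using h1
    refine ⟨∑ s ∈ E, |B s|, Finset.sum_nonneg fun s _ => abs_nonneg _, fun s hs t ht => ?_⟩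
    have h2 : |B s| ≤ ∑ s ∈ E, |B s| := Finset.single_le_sum (fun s _ => abs_nonneg (B s)) hs
    exact ⟨(hB s t ht).1.trans ((le_abs_self _).trans h2),
      (hB s t ht).2.trans ((le_abs_self _).trans h2)⟩
  obtain ⟨B, hB0, hB⟩ := hbd
  have hrat : ∃ r : ℝ, 0 ≤ r ∧ r < 1 ∧ ∀ s ∈ E, (∃ t, Y s t ≠ 0) → s ≠ m → s / m ≤ r := by
    rcases (E1.erase m).eq_empty_or_nonempty with h1 | h1
    · refine ⟨0, le_rfl, one_pos, fun s hs hs1 hs2 => ?_⟩
      have : s ∈ E1.erase m := Finset.mem_erase.2 ⟨hs2, Finset.mem_filter.2 ⟨hs, hs1⟩⟩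
      rw [h1] at this
      simp at this
    · set m1 := (E1.erase m).max' h1 with hm1
      have h2 := Finset.mem_erase.1 ((E1.erase m).max'_mem h1)
      have h3 : m1 < m := lt_of_le_of_ne (E1.le_max' _ h2.2) h2.1
      have h4 : 0 < m1 := hE0 _ (Finset.mem_filter.1 h2.2).1
      refine ⟨m1 / m, by positivity, by rwa [div_lt_one hm0], fun s hs hs1 hs2 => ?_⟩
      have h5 : s ≤ m1 := (E1.erase m).le_max' s
        (Finset.mem_erase.2 ⟨hs2, Finset.mem_filter.2 ⟨hs, hs1⟩⟩)
      gcongr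
  obtain ⟨r, hr0, hr1, hr⟩ := hrat
  have hconv : ∀ (k : ℕ) (G : ℝ → ℝ → ℝ), (∀ s ∈ E, ∀ t ∈ Icc a (a + L), |G s t| ≤ B) →
      (∀ s, (∀ t, Y s t = 0) → ∀ t, G s t = 0) → ∀ t ∈ Icc a (a + L),
      |(∑ s ∈ E, s ^ k * G s t) / m ^ k - G m t| ≤ E.card * (B * r ^ k) := by
    intro k G hG hG0 t ht
    have h1 : (∑ s ∈ E, s ^ k * G s t) / m ^ k - G m t =
        ∑ s ∈ E.erase m, (s / m) ^ k * G s t := by
      rw [← Finset.add_sum_erase E _ hmE, add_div, mul_div_assoc, mul_comm (m ^ k),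
        div_mul_cancel₀ _ (pow_ne_zero k hm0.ne'), add_sub_cancel_left, Finset.sum_div]
      refine Finset.sum_congr rfl fun s _ => ?_
      rw [div_pow]
      ring
    rw [h1]
    refine (Finset.abs_sum_le_sum_abs _ _).trans ?_
    calc ∑ s ∈ E.erase m, |(s / m) ^ k * G s t| ≤ ∑ s ∈ E.erase m, B * r ^ k := by
          refine Finset.sum_le_sum fun s hs => ?_
          obtain ⟨hs1, hs2⟩ := Finset.mem_erase.1 hs
          by_cases h2 : ∃ t, Y s t ≠ 0
          · rw [abs_mul, abs_of_nonneg (pow_nonneg (div_nonneg (hE0 s hs2).le hm0.le) k), mul_comm]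
            exact mul_le_mul (hG s hs2 t ht) (pow_le_pow_left₀
              (div_nonneg (hE0 s hs2).le hm0.le) (hr s hs2 h2 hs1) k)
              (pow_nonneg (div_nonneg (hE0 s hs2).le hm0.le) k) hB0
          · push Not at h2
            rw [hG0 s h2 t, mul_zero, abs_zero]
            positivity
      _ = (E.erase m).card * (B * r ^ k) := by rw [Finset.sum_const, nsmul_eq_mul]
      _ ≤ E.card * (B * r ^ k) := by
          refine mul_le_mul_of_nonneg_right ?_ (by positivity)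
          exact_mod_cast Finset.card_le_card (Finset.erase_subset _ _)
  have hY0' : ∀ s, (∀ t, Y s t = 0) → ∀ t, Y' s t = 0 := by
    intro s hs t
    have h1 : HasDerivAt (Y s) 0 t := by
      have : Y s = fun _ => 0 := funext hs
      rw [this]
      exact hasDerivAt_const _ _
    exact (hYd s t).unique h1
  -- choose the power
  set η : ℝ := |Y m t0| + |Y' m t0| with hηdef
  have hlim : ∃ k : ℕ, (4 + 4 * d + Q * d * (2 * (1 + d))) * (E.card * (B * r ^ k)) < η := by
    have h1 : Filter.Tendsto (fun k : ℕ => (4 + 4 * d + Q * d * (2 * (1 + d))) *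
        (E.card * (B * r ^ k))) Filter.atTop (nhds ((4 + 4 * d + Q * d * (2 * (1 + d))) *
        (E.card * (B * 0)))) :=
      (((tendsto_pow_atTop_nhds_zero_of_lt_one hr0 hr1).const_mul B).const_mul _).const_mul _
    rw [mul_zero, mul_zero, mul_zero] at h1
    exact ((h1.eventually (gt_mem_nhds hη)).exists)
  obtain ⟨k, hk⟩ := hlim
  set ε : ℝ := E.card * (B * r ^ k) with hε
  have hε0 : 0 ≤ ε := by positivity
  obtain ⟨Zk, h1, h2⟩ := hZk k
  have hmaps : ∀ z ∈ Zk, ⌊(z - a) / d⌋₊ ∈ Finset.range n := by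
    intro z hz
    rw [Finset.mem_range, Nat.floor_lt (div_nonneg (by linarith [(h1 z hz).1.1]) hd0.le),
      div_lt_iff₀ hd0]
    have h3 : (n : ℝ) * d = L := by rw [hd]; field_simp
    rw [h3]
    linarith [(h1 z hz).1.2]
  obtain ⟨z1, hz1, z2, hz2, hz12, hfl⟩ := Finset.exists_ne_map_eq_of_card_lt_of_maps_to
    (s := Zk) (t := Finset.range n) (by rw [Finset.card_range]; omega) hmaps
  have hclose : ∀ z1 z2 : ℝ, z1 ∈ Zk → z2 ∈ Zk → ⌊(z1 - a) / d⌋₊ = ⌊(z2 - a) / d⌋₊ →
      z2 - z1 ≤ d := by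
    intro z1 z2 hz1 hz2 hfl
    have h3 := Nat.floor_le (div_nonneg (by linarith [(h1 z1 hz1).1.1] : 0 ≤ z1 - a) hd0.le)
    have h4 := Nat.lt_floor_add_one ((z2 - a) / d)
    rw [hfl, le_div_iff₀ hd0] at h3
    rw [div_lt_iff₀ hd0] at h4
    nlinarith
  have hmain : ∀ z1 z2 : ℝ, z1 ∈ Zk → z2 ∈ Zk → z1 < z2 → z2 - z1 ≤ d → False := by
    intro z1 z2 hz1 hz2 hlt hdd
    have hI1 := (h1 z1 hz1).1
    have hI2 := (h1 z2 hz2).1
    have hsub : ∀ t ∈ Icc z1 z2, t ∈ Icc a (a + L) := fun t ht =>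
      ⟨hI1.1.trans ht.1, ht.2.trans hI2.2.le⟩
    have hVY : ∀ t ∈ Icc z1 z2, |U k t / m ^ k - Y m t| ≤ ε := by
      intro t ht
      rw [hgrp]
      exact hconv k Y (fun s hs t ht => (hB s hs t ht).1) (fun s hs => hs) t (hsub t ht)
    have hVY' : ∀ t ∈ Icc z1 z2, |U' k t / m ^ k - Y' m t| ≤ ε := by
      intro t ht
      rw [hgrp']
      exact hconv k Y' (fun s hs t ht => (hB s hs t ht).2) hY0' t (hsub t ht)
    have e1 : |Y m z1| ≤ ε := by
      have := hVY z1 ⟨le_rfl, hlt.le⟩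
      rwa [(h1 z1 hz1).2, zero_div, zero_sub, abs_neg] at this
    obtain ⟨c, hc, hc0⟩ := exists_hasDerivAt_eq_zero (f := U k) (f' := U' k) hlt
      (fun x _ => (hU1 k x).continuousAt.continuousWithinAt)
      (by rw [(h1 z1 hz1).2, (h1 z2 hz2).2]) (fun x _ => hU1 k x)
    have e2 : |Y' m c| ≤ ε := by
      have := hVY' c ⟨hc.1.le, hc.2.le⟩
      rwa [hc0, zero_div, zero_sub, abs_neg] at this
    -- the maximum of `|Y|`
    obtain ⟨tm, htm, hmax⟩ := (isCompact_Icc (a := z1) (b := z2)).exists_isMaxOn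
      (Set.nonempty_Icc.2 hlt.le) (f := fun t => |Y m t|) (cY m).abs.continuousOn
    set A : ℝ := |Y m tm| with hA
    have hA0 : 0 ≤ A := abs_nonneg _
    have hAt : ∀ t ∈ Icc z1 z2, |Y m t| ≤ A := fun t ht => hmax ht
    have hqm : ∀ t, |M - m - lam * f t| ≤ Q := by
      intro t
      have h3 := hμ i0 t
      rw [← hi0]
      simp only [he]
      rwa [show M - (M - μ i0) - lam * f t = μ i0 - lam * f t by ring]
    have hd2 : ∀ t ∈ Icc z1 z2, |Y' m t - Y' m c| ≤ Q * A * d := by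
      intro t ht
      have hconvx : Convex ℝ (Icc z1 z2) := convex_Icc _ _
      have h3 := hconvx.norm_image_sub_le_of_norm_hasDerivWithin_le
        (f := Y' m) (f' := fun t => (M - m - lam * f t) * Y m t) (C := Q * A)
        (fun x _ => (hYd' m x).hasDerivWithinAt) (fun x hx => by
          rw [Real.norm_eq_abs, abs_mul]
          exact mul_le_mul (hqm x) (hAt x hx) (abs_nonneg _) hQ.le)
        (x := c) (y := t) ⟨hc.1.le, hc.2.le⟩ ht
      rw [Real.norm_eq_abs, Real.norm_eq_abs] at h3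
      refine h3.trans (mul_le_mul_of_nonneg_left ?_ (by positivity))
      rw [abs_le]
      constructor
      · linarith [ht.1, hc.2]
      · linarith [ht.2, hc.1]
    have hd3 : ∀ t ∈ Icc z1 z2, |Y' m t| ≤ ε + Q * A * d := by
      intro t ht
      have h3 := hd2 t ht
      have h4 : |Y' m t| ≤ |Y' m t - Y' m c| + |Y' m c| := by
        have := abs_add_le (Y' m t - Y' m c) (Y' m c)
        rwa [sub_add_cancel] at this
      linarith
    have hA2 : A ≤ ε + (ε + Q * A * d) * d := by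
      have hconvx : Convex ℝ (Icc z1 z2) := convex_Icc _ _
      have h3 := hconvx.norm_image_sub_le_of_norm_hasDerivWithin_le
        (f := Y m) (f' := Y' m) (C := ε + Q * A * d)
        (fun x _ => (hYd m x).hasDerivWithinAt) (fun x hx => by
          rw [Real.norm_eq_abs]
          exact hd3 x hx)
        (x := z1) (y := tm) ⟨le_rfl, hlt.le⟩ htm
      rw [Real.norm_eq_abs, Real.norm_eq_abs] at h3
      have h4 : |tm - z1| ≤ d := by
        rw [abs_le]
        constructor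
        · linarith [htm.1]
        · linarith [htm.2]
      have h5 : |Y m tm| ≤ |Y m tm - Y m z1| + |Y m z1| := by
        have := abs_add_le (Y m tm - Y m z1) (Y m z1)
        rwa [sub_add_cancel] at this
      have h6 : (ε + Q * A * d) * |tm - z1| ≤ (ε + Q * A * d) * d :=
        mul_le_mul_of_nonneg_left h4 (by positivity)
      rw [← hA] at h5
      linarith
    have hA3 : A ≤ 2 * (1 + d) * ε := by
      have h3 : Q * A * d * d = Q * d ^ 2 * A := by ring
      have h4 : Q * d ^ 2 * A ≤ 1 / 2 * A := mul_le_mul_of_nonneg_right hdQ hA0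
      nlinarith
    have h5 : η ≤ |Y m z1| + |Y' m z1| := hmin (hsub z1 ⟨le_rfl, hlt.le⟩)
    have h6 := hd3 z1 ⟨le_rfl, hlt.le⟩
    have h7 : Q * A * d ≤ Q * d * (2 * (1 + d)) * ε := by
      have : Q * A * d ≤ Q * (2 * (1 + d) * ε) * d := by gcongr
      linarith
    have h8 : 0 ≤ 4 * d * ε := by positivity
    nlinarith
  rcases lt_or_gt_of_ne hz12 with h3 | h3
  · exact hmain z1 z2 hz1 hz2 h3 (hclose z1 z2 hz1 hz2 hfl)
  · exact hmain z2 z1 hz2 hz1 h3 (hclose z2 z1 hz2 hz1 hfl.symm)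

end Pool.Agent.Sub70.LT
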