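import Pool.Agent.Sub70.LT.FinW
import Pool.Agent.Sub70.LT.Sturm

/-!
# Zeros of an eigenfunction on horizontal and vertical lines
-/

set_option autoImplicit false

namespace Pool.Agent.Sub70.LT

open Set MeasureTheory Function Pool.Agent.R220.LV Pool.Agent.Y291.DB

variable {f g : ℝ → ℝ} {L lam K0 : ℝ} {φ : ℝ × ℝ → ℝ}

theorem line_both (hf : Continuous f) (hg : Continuous g) (hL : 0 < L) (hK0 : 0 < K0)
    (hfK : ∀ t, |f t| ≤ K0) (hgK : ∀ t, |g t| ≤ K0)
    (h : Eigen (fun p => f p.1 + g p.2) L 0 lam φ) :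
    (∀ (y a : ℝ) (Z : Finset ℝ), (∃ x, φ (x, y) ≠ 0) →
      (∀ z ∈ Z, z ∈ Ico a (a + L) ∧ φ (z, y) = 0) →
      (Z.card : ℝ) ≤ 2 * L * Real.sqrt (2 * lam * K0) + 2) ∧
    (∀ (x a : ℝ) (Z : Finset ℝ), (∃ y, φ (x, y) ≠ 0) →
      (∀ z ∈ Z, z ∈ Ico a (a + 2 * Real.pi) ∧ φ (x, z) = 0) →
      (Z.card : ℝ) ≤ 2 * (2 * Real.pi) * Real.sqrt (2 * lam * K0) + 2) := by
  have hlam := h.pos
  have hmem := mem_of_eigen hf hg h
  have hK : ∀ x y, |lam * (f x + g y)| ≤ 2 * lam * K0 := by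
    intro x y
    rw [abs_mul, abs_of_pos hlam]
    have := (abs_add_le (f x) (g y)).trans (add_le_add (hfK x) (hgK y))
    nlinarith
  have := finW hf hg hL hK
  obtain ⟨μ, e, h1, h2, h3, h4⟩ := decomp (lam := lam) hf hg hL
  obtain ⟨c, hc⟩ := h4 φ hmem
  have hdat : ∀ i, ∃ φx φxx φy φyy : ℝ → ℝ → ℝ,
      SP f g L lam (fun x y => e i (x, y)) φx φxx φy φyy := fun i => (h1 i).2
  choose φx φxx φy φyy hSP using hdat
  have hsum : ∀ x y, φ (x, y) = ∑ i, c i * e i (x, y) := by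
    intro x y
    rw [hc]
    simp [Finset.sum_apply]
  have hμ1 : ∀ i, μ i ≤ lam * K0 := fun i => mu_le hL (h1 i) (h2 i) (h3 i) hlam
    (fun x => (le_abs_self _).trans (hfK x))
  have hμ2 : ∀ i, -μ i ≤ lam * K0 := fun i => mu_ge hL (h1 i) (h2 i) (h3 i) hlam
    (fun x => (le_abs_self _).trans (hgK x))
  have hf1 : ∀ t, |lam * f t| ≤ lam * K0 := fun t => by
    rw [abs_mul, abs_of_pos hlam]
    exact mul_le_mul_of_nonneg_left (hfK t) hlam.le
  have hg1 : ∀ t, |lam * g t| ≤ lam * K0 := fun t => by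
    rw [abs_mul, abs_of_pos hlam]
    exact mul_le_mul_of_nonneg_left (hgK t) hlam.le
  constructor
  · intro y a Z hne hZ
    refine sturm (a := a) hf hL hlam (Q := 2 * lam * K0) (by positivity) hfK μ
      (fun i t => c i * e i (t, y)) (fun i t => c i * φx i t y)
      (fun i t => ((hSP i).s.dx t y).const_mul (c i)) (fun i t => ?_) (fun i t => ?_) hμ1
      (fun i t => ?_) ?_ Z (fun z hz => ?_)
    · have k := ((hSP i).s.dxx t y).const_mul (c i)
      refine k.congr_deriv ?_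
      rw [(joint_deriv (hSP i) (h3 i) t y).1]
      ring
    · rw [(hSP i).px t y]
    · have k1 := hμ1 i
      have k2 := hμ2 i
      have k3 := abs_le.1 (hf1 t)
      exact abs_le.2 ⟨by linarith, by linarith⟩
    · obtain ⟨x, hx⟩ := hne
      exact ⟨x, by rwa [← hsum]⟩
    · have k := hZ z hz
      exact ⟨k.1, by rw [← hsum]; exact k.2⟩
  · intro x a Z hne hZ
    refine sturm (a := a) hg (by positivity) hlam (Q := 2 * lam * K0) (by positivity) hgK (fun i => -μ i)
      (fun i t => c i * e i (x, t)) (fun i t => c i * φy i x t)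
      (fun i t => ((hSP i).s.dy x t).const_mul (c i)) (fun i t => ?_) (fun i t => ?_) hμ2
      (fun i t => ?_) ?_ Z (fun z hz => ?_)
    · have k := ((hSP i).s.dyy x t).const_mul (c i)
      refine k.congr_deriv ?_
      rw [(joint_deriv (hSP i) (h3 i) x t).2]
      ring
    · rw [(hSP i).py x t]
    · have k1 := hμ1 i
      have k2 := hμ2 i
      have k3 := abs_le.1 (hg1 t)
      exact abs_le.2 ⟨by linarith, by linarith⟩
    · obtain ⟨y, hy⟩ := hne
      exact ⟨y, by rwa [← hsum]⟩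
    · have k := hZ z hz
      exact ⟨k.1, by rw [← hsum]; exact k.2⟩

end Pool.Agent.Sub70.LT
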