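import Pool.Agent.Sub70.LT.Prod

/-!
# The local estimate for eigenfunctions, and chains
-/

set_option autoImplicit false

namespace Pool.Agent.Sub70.LT

open Set MeasureTheory Filter Topology Function Pool.Agent.Y291.DB

/-- The constant. -/
noncomputable def CC (ℓ : ℝ) : ℝ := 1 + 64 * (Real.log 13 + (4 * Real.pi + 5) * ℓ + 4) + 5

variable {f g : ℝ → ℝ} {L lam K0 : ℝ} {φ : ℝ × ℝ → ℝ}

theorem CC_nonneg {ℓ : ℝ} (hℓ : 0 ≤ ℓ) : 0 ≤ CC ℓ := by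
  have h1 : 0 ≤ Real.log 13 := Real.log_nonneg (by norm_num)
  have h2 := Real.pi_pos
  unfold CC
  positivity

theorem CC_le {ℓ e m E : ℝ} (he0 : 0 ≤ e) (he : e ≤ ℓ) (hm : 0 ≤ m) (hE : E ≤ 4) :
    2 * Real.exp (64 * (Real.log 13 + (Real.pi * (m + 4) + 5) * e + E) + E + 1) ≤
      Real.exp (CC ℓ * (m + 1)) := by
  have h2 : (2 : ℝ) ≤ Real.exp 1 := by
    have := Real.add_one_le_exp (1 : ℝ)
    linarith
  have h3 : 2 * Real.exp (64 * (Real.log 13 + (Real.pi * (m + 4) + 5) * e + E) + E + 1) ≤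
      Real.exp 1 * Real.exp (64 * (Real.log 13 + (Real.pi * (m + 4) + 5) * e + E) + E + 1) :=
    mul_le_mul_of_nonneg_right h2 (Real.exp_pos _).le
  refine h3.trans ?_
  rw [← Real.exp_add, Real.exp_le_exp]
  have hl : 0 ≤ Real.log 13 := Real.log_nonneg (by norm_num)
  have hpi := Real.pi_pos
  have h4 : (Real.pi * (m + 4) + 5) * e ≤ (4 * Real.pi + 5) * (m + 1) * ℓ := by
    have h5 : Real.pi * (m + 4) + 5 ≤ (4 * Real.pi + 5) * (m + 1) := by nlinarith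
    exact mul_le_mul h5 he he0 (by positivity)
  have h6 : Real.log 13 ≤ Real.log 13 * (m + 1) := by nlinarith
  unfold CC
  nlinarith

theorem loc_phi (hf : Continuous f) (hg : Continuous g) (hK0 : 0 < K0)
    (hfK : ∀ t, |f t| ≤ K0) (hgK : ∀ t, |g t| ≤ K0)
    (h : Eigen (fun p => f p.1 + g p.2) L 0 lam φ) {X0 X1 Y0 Y1 H S s1 x1 y1 ℓ : ℝ}
    (hH : 0 < H) (hH1 : lam * K0 * H ^ 2 ≤ 1 / 16) (hX : X1 - X0 ≤ H) (hY : Y1 - Y0 ≤ H)
    (hI : Ins X0 X1 Y0 Y1 x1 y1 S) (hs1 : 0 < s1) (hs1S : s1 ≤ S)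
    (hℓ : Real.log (S / s1) ≤ ℓ) {n1 n2 n3 n4 : ℕ} {Z1 Z2 Z3 Z4 : Finset ℝ}
    (hZ1 : ∀ t ∈ Ioo Y0 Y1, φ (X0, t) = 0 → t ∈ Z1) (hn1 : Z1.card ≤ n1)
    (hZ2 : ∀ t ∈ Ioo Y0 Y1, φ (X1, t) = 0 → t ∈ Z2) (hn2 : Z2.card ≤ n2)
    (hZ3 : ∀ t ∈ Ioo X0 X1, φ (t, Y0) = 0 → t ∈ Z3) (hn3 : Z3.card ≤ n3)
    (hZ4 : ∀ t ∈ Ioo X0 X1, φ (t, Y1) = 0 → t ∈ Z4) (hn4 : Z4.card ≤ n4)
    {ε : ℝ} (hε0 : 0 ≤ ε)
    (hε : ∀ x y, |x - x1| ≤ 2 * s1 → |y - y1| ≤ 2 * s1 → |φ (x, y)| ≤ ε)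
    {x0 y0 : ℝ} (hx0 : |x0 - x1| ≤ S / 4) (hy0 : |y0 - y1| ≤ S / 4) :
    |φ (x0, y0)| ≤ Real.exp (CC ℓ * (n1 + n2 + n3 + n4 + 1)) * ε := by
  have hlam := h.pos
  obtain ⟨u1, u2, u11, u12, u22, hu⟩ := D2_of h.smooth
  have eu : ∀ x y, u11 x y + u22 x y = -((lam * (f x + g y)) * φ (x, y)) := by
    intro x y
    have h1 := h.eq (x, y)
    simp only at h1
    rw [Pool.Agent.R220.TI.iter2 (fun t => hu.d1 t y) (hu.d11 x y),
      Pool.Agent.R220.TI.iter2 (fun t => hu.d2 x t) (hu.d22 x y)] at h1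
    linarith
  have hf1 : ∀ t, |lam * f t| ≤ lam * K0 := fun t => by
    rw [abs_mul, abs_of_pos hlam]
    exact mul_le_mul_of_nonneg_left (hfK t) hlam.le
  have hg1 : ∀ t, |lam * g t| ≤ lam * K0 := fun t => by
    rw [abs_mul, abs_of_pos hlam]
    exact mul_le_mul_of_nonneg_left (hgK t) hlam.le
  obtain ⟨p, p1, p2, p11, p12, p22, hp, ep, hpb⟩ := prod_sol hf hg hf1 hg1 hH hH1 x1 y1
  obtain ⟨i1, i2, i3, i4⟩ := hI
  have hS : 0 < S := hs1.trans_le hs1S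
  have hmx : ∀ x ∈ Icc X0 X1, |x - x1| ≤ H := fun x hx =>
    abs_le.2 ⟨by linarith [hx.1], by linarith [hx.2]⟩
  have hmy : ∀ y ∈ Icc Y0 Y1, |y - y1| ≤ H := fun y hy =>
    abs_le.2 ⟨by linarith [hy.1], by linarith [hy.2]⟩
  have hSH : S ≤ H / 2 := by linarith
  have hq : ∀ x y, |lam * (f x + g y)| ≤ 2 * (lam * K0) := by
    intro x y
    rw [mul_add]
    exact (abs_add_le _ _).trans (by linarith [hf1 x, hg1 y])
  have hlK : 0 < lam * K0 := mul_pos hlam hK0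
  have hs1H : s1 ^ 2 ≤ H ^ 2 := pow_le_pow_left₀ hs1.le (by linarith) 2
  have key : ∀ ε' : ℝ, 0 < ε' → |φ (x0, y0)| ≤
      Real.exp (CC ℓ * (n1 + n2 + n3 + n4 + 1)) * (ε + ε') := by
    intro ε' hε'
    have h1 := local_est (qq := fun x y => lam * (f x + g y)) (Γ := 1 / H) (S := S) (s1 := s1)
      (ε := ε + ε') (qh := 2 * (lam * K0)) (x1 := x1) (y1 := y1) hu hp eu ep
      (fun x hx y hy => (hpb x y (hmx x hx) (hmy y hy)).1) (by positivity)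
      (fun x hx y hy => (hpb x y (hmx x hx) (hmy y hy)).2) ⟨i1, i2, i3, i4⟩ hs1 hs1S hq
      (by nlinarith) (by
        rw [div_mul_eq_mul_div, one_mul, div_le_one hH]
        linarith) (by linarith)
      (fun x y hx hy => (hε x y hx hy).trans (by linarith)) hZ1 hn1 hZ2 hn2 hZ3 hn3 hZ4 hn4
      hx0 hy0
    refine h1.trans ?_
    refine mul_le_mul_of_nonneg_right ?_ (by linarith)
    refine CC_le (Real.log_nonneg (by rwa [one_le_div hs1])) hℓ (by positivity) ?_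
    have : 4 * (1 / H) * S = 4 * S / H := by ring
    rw [this, div_le_iff₀ hH]
    linarith
  have hE : 0 < Real.exp (CC ℓ * (n1 + n2 + n3 + n4 + 1)) := Real.exp_pos _
  refine le_of_forall_pos_le_add fun η hη => ?_
  have h1 := key (η / Real.exp (CC ℓ * (n1 + n2 + n3 + n4 + 1))) (by positivity)
  refine h1.trans (le_of_eq ?_)
  rw [mul_add, mul_div_cancel₀ _ hE.ne']

/-- Chains of squares. -/
theorem chain {p : ℝ × ℝ} {d s1 ε Λ : ℝ} (hd : 0 < d) (hs1 : 0 < s1) (hs1d : 2 * s1 ≤ d)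
    (hΛ : 1 ≤ Λ) (hε0 : 0 ≤ ε) (N : ℕ)
    (hstep : ∀ z : ℝ × ℝ, |z.1 - p.1| ≤ N * d → |z.2 - p.2| ≤ N * d → ∀ ε : ℝ, 0 ≤ ε →
      (∀ x y, |x - z.1| ≤ 2 * s1 → |y - z.2| ≤ 2 * s1 → |φ (x, y)| ≤ ε) →
      ∀ x y, |x - z.1| ≤ 2 * d → |y - z.2| ≤ 2 * d → |φ (x, y)| ≤ Λ * ε)
    (hε : ∀ x y, |x - p.1| ≤ 2 * s1 → |y - p.2| ≤ 2 * s1 → |φ (x, y)| ≤ ε) (n : ℕ) (hn : n ≤ N) :
    ∀ x y, |x - p.1| ≤ (n + 1) * d → |y - p.2| ≤ (n + 1) * d → |φ (x, y)| ≤ Λ ^ (n + 1) * ε := by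
  have hΛ0 : 0 < Λ := by linarith
  induction n with
  | zero =>
    intro x y hx hy
    rw [Nat.cast_zero, zero_add, one_mul] at hx hy
    rw [zero_add, pow_one]
    refine hstep p (by rw [sub_self, abs_zero]; positivity) (by rw [sub_self, abs_zero]; positivity)
      ε hε0 hε x y (by linarith) (by linarith)
  | succ n ih =>
    intro x y hx hy
    have ih' := ih (Nat.le_of_succ_le hn)
    set κ : ℝ := n / (n + 2) with hκ
    have hκ0 : 0 ≤ κ := by positivity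
    have hn2 : (0 : ℝ) < n + 2 := by positivity
    push_cast at hx hy
    have e1 : κ * ((n + 1 + 1) * d) = n * d := by
      rw [hκ]
      field_simp
      ring
    have e2 : (1 - κ) * ((n + 1 + 1) * d) = 2 * d := by
      rw [hκ]
      field_simp
      ring
    have hκ1 : 0 ≤ 1 - κ := by
      rw [sub_nonneg, hκ, div_le_one hn2]
      linarith
    have hnN : (n : ℝ) * d ≤ N * d := by
      have : (n : ℝ) ≤ N := by exact_mod_cast (Nat.le_of_succ_le hn)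
      exact mul_le_mul_of_nonneg_right this hd.le
    have hz : ∀ a b : ℝ, |a - b| ≤ (n + 1 + 1) * d → |b + κ * (a - b) - b| ≤ n * d ∧
        |a - (b + κ * (a - b))| ≤ 2 * d := by
      intro a b hab
      constructor
      · rw [add_sub_cancel_left, abs_mul, abs_of_nonneg hκ0, ← e1]
        exact mul_le_mul_of_nonneg_left hab hκ0
      · have : a - (b + κ * (a - b)) = (1 - κ) * (a - b) := by ring
        rw [this, abs_mul, abs_of_nonneg hκ1, ← e2]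
        exact mul_le_mul_of_nonneg_left hab hκ1
    obtain ⟨z1, z2⟩ := hz x p.1 hx
    obtain ⟨z3, z4⟩ := hz y p.2 hy
    have h1 := hstep (p.1 + κ * (x - p.1), p.2 + κ * (y - p.2)) (z1.trans hnN) (z3.trans hnN)
      (Λ ^ (n + 1) * ε) (by positivity) (fun a b ha hb => ?_) x y z2 z4
    · refine h1.trans (le_of_eq ?_)
      ring
    · refine ih' a b ?_ ?_
      · have : a - p.1 = (a - (p.1 + κ * (x - p.1))) + (p.1 + κ * (x - p.1) - p.1) := by ring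
        rw [this]
        refine (abs_add_le _ _).trans ?_
        have ha' : |a - (p.1 + κ * (x - p.1))| ≤ 2 * s1 := ha
        linarith
      · have : b - p.2 = (b - (p.2 + κ * (y - p.2))) + (p.2 + κ * (y - p.2) - p.2) := by ring
        rw [this]
        refine (abs_add_le _ _).trans ?_
        have hb' : |b - (p.2 + κ * (y - p.2))| ≤ 2 * s1 := hb
        linarith

end Pool.Agent.Sub70.LT
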