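import Pool.Agent.Sub70.LT.Cnt
import Pool.Agent.Sub70.LT.Lines
import Pool.Agent.Sub70.LT.LocPhi

/-!
# Grids adapted to an eigenfunction
-/

set_option autoImplicit false

namespace Pool.Agent.Sub70.LT

open Set MeasureTheory Function Pool.Agent.R220.LV Pool.Agent.Y291.DB

/-- A grid of mesh comparable to `d` whose lines are not nodal. -/
structure Grid (φ : ℝ × ℝ → ℝ) (L : ℝ) (n1 n2 : ℕ) (d hx hy τ τ' : ℝ) : Prop where
  hn1 : 0 < n1
  hn2 : 0 < n2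
  hd : 0 < d
  ex : n1 * hx = L
  ey : n2 * hy = 2 * Real.pi
  x1 : d / 2 ≤ hx
  x2 : hx ≤ d
  y1 : d / 2 ≤ hy
  y2 : hy ≤ d
  ne1 : ∀ i : ℤ, ∃ y, φ (τ + i * hx, y) ≠ 0
  ne2 : ∀ j : ℤ, ∃ x, φ (x, τ' + j * hy) ≠ 0

/-- The number of steps. -/
theorem mesh {d L : ℝ} (hd : 0 < d) (hdL : d ≤ L) : ∃ (n : ℕ) (h : ℝ), 0 < n ∧ n * h = L ∧
    d / 2 ≤ h ∧ h ≤ d := by
  have hL : 0 < L := hd.trans_le hdL
  set n := ⌈L / d⌉₊ with hn
  have h1 : L / d ≤ n := Nat.le_ceil _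
  have h2 : (n : ℝ) < L / d + 1 := Nat.ceil_lt_add_one (by positivity)
  have h3 : 1 ≤ L / d := by rwa [one_le_div hd]
  have hn0 : (0 : ℝ) < n := by linarith
  refine ⟨n, L / n, by exact_mod_cast hn0, by field_simp, ?_, ?_⟩
  · rw [le_div_iff₀ hn0]
    have h4 : (n : ℝ) < 2 * (L / d) := by linarith
    have h5 : d / 2 * n ≤ d / 2 * (2 * (L / d)) := mul_le_mul_of_nonneg_left h4.le (by positivity)
    refine h5.trans (le_of_eq ?_)
    field_simp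
  · rw [div_le_iff₀ hn0]
    rwa [div_le_iff₀ hd, mul_comm] at h1

/-- Shifts avoiding a discrete set. -/
theorem shift {B : ℝ → Prop} (hB : ∀ a b : ℝ, {t : ℝ | t ∈ Ico a b ∧ B t}.Finite) {h : ℝ}
    (hh : 0 < h) (n : ℕ) : ∃ τ : ℝ, ∀ i : ℕ, i < n → ¬ B (τ + i * h) := by
  have h1 : ({τ : ℝ | ∃ i ∈ Finset.range n, τ ∈ Ico 0 h ∧ B (τ + i * h)}).Finite := by
    have : {τ : ℝ | ∃ i ∈ Finset.range n, τ ∈ Ico 0 h ∧ B (τ + i * h)} =
        ⋃ i ∈ Finset.range n, {τ : ℝ | τ ∈ Ico 0 h ∧ B (τ + i * h)} := by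
      ext τ
      simp only [Set.mem_ofPred_eq, Set.mem_iUnion, exists_prop]
    rw [this]
    refine Set.Finite.biUnion (Finset.finite_toSet _) fun i _ => ?_
    have h2 : {τ : ℝ | τ ∈ Ico 0 h ∧ B (τ + i * h)} ⊆
        (fun t => t - i * h) '' {t : ℝ | t ∈ Ico (0 + i * h) (h + i * h) ∧ B t} := by
      rintro τ ⟨h3, h4⟩
      exact ⟨τ + i * h, ⟨⟨by linarith [h3.1], by linarith [h3.2]⟩, h4⟩, by ring⟩
    exact ((hB _ _).image _).subset h2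
  obtain ⟨τ, hτ1, hτ2⟩ := ((Set.Ico_infinite hh).sdiff h1).nonempty
  refine ⟨τ, fun i hi hb => hτ2 ⟨i, Finset.mem_range.2 hi, hτ1, hb⟩⟩

variable {f g : ℝ → ℝ} {L lam K0 : ℝ} {φ : ℝ × ℝ → ℝ}

theorem grid_exists (hf : Continuous f) (hg : Continuous g) (hL : 0 < L) (hK0 : 0 < K0)
    (hfK : ∀ t, |f t| ≤ K0) (hgK : ∀ t, |g t| ≤ K0)
    (h : Eigen (fun p => f p.1 + g p.2) L 0 lam φ) {d : ℝ} (hd : 0 < d) (hdL : d ≤ L)
    (hdp : d ≤ 2 * Real.pi) : ∃ (n1 n2 : ℕ) (hx hy τ τ' : ℝ), Grid φ L n1 n2 d hx hy τ τ' := by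
  obtain ⟨n1, hx, hn1, ex, x1, x2⟩ := mesh hd hdL
  obtain ⟨n2, hy, hn2, ey, y1, y2⟩ := mesh hd hdp
  obtain ⟨l1, l2⟩ := line_both hf hg hL hK0 hfK hgK h
  obtain ⟨p0, hp0⟩ := h.ne
  have hx0 : 0 < hx := lt_of_lt_of_le (by positivity) x1
  have hy0 : 0 < hy := lt_of_lt_of_le (by positivity) y1
  obtain ⟨τ, hτ⟩ := shift (B := fun x => φ (x, p0.2) = 0)
    (fun a b => zs_fin (ψ := fun x => φ (x, p0.2)) hL
      (fun a Z hZ => l1 p0.2 a Z ⟨p0.1, hp0⟩ hZ) a b) hx0 n1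
  obtain ⟨τ', hτ'⟩ := shift (B := fun y => φ (p0.1, y) = 0)
    (fun a b => zs_fin (ψ := fun y => φ (p0.1, y)) (by positivity : 0 < 2 * Real.pi)
      (fun a Z hZ => l2 p0.1 a Z ⟨p0.2, hp0⟩ hZ) a b) hy0 n2
  have hper : ∀ (m n : ℤ) (p : ℝ × ℝ), φ (p.1 + m * L, p.2 + n * (2 * Real.pi)) = φ p := by
    intro m n p
    have := per_all (L := L) (α := 0) (f := φ) h.perx h.pery m n p
    rwa [mul_zero, add_zero] at this
  refine ⟨n1, n2, hx, hy, τ, τ', hn1, hn2, hd, ex, ey, x1, x2, y1, y2, fun i => ⟨p0.2, ?_⟩,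
    fun j => ⟨p0.1, ?_⟩⟩
  · have e0 : (0 : ℤ) ≤ i % n1 := Int.emod_nonneg _ (by exact_mod_cast hn1.ne')
    have e1 : i % n1 < n1 := Int.emod_lt_of_pos _ (by exact_mod_cast hn1)
    have e2 := hτ (i % n1).toNat (by omega)
    have e3 : (((i % n1).toNat : ℕ) : ℝ) = ((i % n1 : ℤ) : ℝ) := by
      have : (((i % n1).toNat : ℕ) : ℤ) = i % n1 := Int.toNat_of_nonneg e0
      exact_mod_cast congrArg (Int.cast : ℤ → ℝ) this
    rw [e3] at e2
    have e4 := hper (i / n1) 0 (τ + ((i % n1 : ℤ) : ℝ) * hx, p0.2)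
    simp only [Int.cast_zero, zero_mul, add_zero] at e4
    have e5 : τ + ((i % n1 : ℤ) : ℝ) * hx + ((i / n1 : ℤ) : ℝ) * L = τ + i * hx := by
      have e6 : ((i % n1 : ℤ) : ℝ) + n1 * ((i / n1 : ℤ) : ℝ) = i := by
        have := Int.emod_add_mul_ediv i n1
        exact_mod_cast congrArg (Int.cast : ℤ → ℝ) this
      rw [← ex, ← e6]
      ring
    rw [e5] at e4
    rw [e4]
    exact e2
  · have e0 : (0 : ℤ) ≤ j % n2 := Int.emod_nonneg _ (by exact_mod_cast hn2.ne')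
    have e1 : j % n2 < n2 := Int.emod_lt_of_pos _ (by exact_mod_cast hn2)
    have e2 := hτ' (j % n2).toNat (by omega)
    have e3 : (((j % n2).toNat : ℕ) : ℝ) = ((j % n2 : ℤ) : ℝ) := by
      have : (((j % n2).toNat : ℕ) : ℤ) = j % n2 := Int.toNat_of_nonneg e0
      exact_mod_cast congrArg (Int.cast : ℤ → ℝ) this
    rw [e3] at e2
    have e4 := hper 0 (j / n2) (p0.1, τ' + ((j % n2 : ℤ) : ℝ) * hy)
    simp only [Int.cast_zero, zero_mul, add_zero] at e4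
    have e5 : τ' + ((j % n2 : ℤ) : ℝ) * hy + ((j / n2 : ℤ) : ℝ) * (2 * Real.pi) = τ' + j * hy := by
      have e6 : ((j % n2 : ℤ) : ℝ) + n2 * ((j / n2 : ℤ) : ℝ) = j := by
        have := Int.emod_add_mul_ediv j n2
        exact_mod_cast congrArg (Int.cast : ℤ → ℝ) this
      rw [← ey, ← e6]
      ring
    rw [e5] at e4
    rw [e4]
    exact e2

/-- The number of zeros on a vertical edge. -/
noncomputable def vz (φ : ℝ × ℝ → ℝ) (hx hy τ τ' : ℝ) (i j : ℤ) : ℝ :=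
  zc (fun t => φ (τ + i * hx, t)) (τ' + j * hy) (τ' + ((j + 1 : ℤ) : ℝ) * hy)

/-- The number of zeros on a horizontal edge. -/
noncomputable def hz (φ : ℝ × ℝ → ℝ) (hx hy τ τ' : ℝ) (i j : ℤ) : ℝ :=
  zc (fun t => φ (t, τ' + j * hy)) (τ + i * hx) (τ + ((i + 1 : ℤ) : ℝ) * hx)

/-- The number of zeros on the boundary of a block. -/
noncomputable def mm (φ : ℝ × ℝ → ℝ) (hx hy τ τ' : ℝ) (i j : ℤ) : ℝ :=
  ∑ l ∈ Finset.range 33, (vz φ hx hy τ τ' (i + -16) (j + (-16 + l)) +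
    vz φ hx hy τ τ' (i + 17) (j + (-16 + l)) + hz φ hx hy τ τ' (i + (-16 + l)) (j + -16) +
    hz φ hx hy τ τ' (i + (-16 + l)) (j + 17))

/-- The number of zeros near a cell. -/
noncomputable def MM (φ : ℝ × ℝ → ℝ) (hx hy τ τ' : ℝ) (r : ℕ) (i j : ℤ) : ℝ :=
  ∑ a ∈ Finset.range (2 * r + 1), ∑ b ∈ Finset.range (2 * r + 1),
    mm φ hx hy τ τ' (i + (-r + a)) (j + (-r + b))

section facts

variable {hx hy τ τ' : ℝ}

theorem vz_nonneg (i j : ℤ) : 0 ≤ vz φ hx hy τ τ' i j := Nat.cast_nonneg _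

theorem hz_nonneg (i j : ℤ) : 0 ≤ hz φ hx hy τ τ' i j := Nat.cast_nonneg _

theorem mm_nonneg (i j : ℤ) : 0 ≤ mm φ hx hy τ τ' i j :=
  Finset.sum_nonneg fun _ _ => by
    have := vz_nonneg (φ := φ) (hx := hx) (hy := hy) (τ := τ) (τ' := τ')
    have := hz_nonneg (φ := φ) (hx := hx) (hy := hy) (τ := τ) (τ' := τ')
    exact add_nonneg (add_nonneg (add_nonneg (vz_nonneg _ _) (vz_nonneg _ _)) (hz_nonneg _ _))
      (hz_nonneg _ _)

theorem MM_nonneg (r : ℕ) (i j : ℤ) : 0 ≤ MM φ hx hy τ τ' r i j :=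
  Finset.sum_nonneg fun _ _ => Finset.sum_nonneg fun _ _ => mm_nonneg _ _

/-- Near cells. -/
theorem mm_le_MM {r : ℕ} {i j i' j' : ℤ} (h1 : |i' - i| ≤ r) (h2 : |j' - j| ≤ r) :
    mm φ hx hy τ τ' i' j' ≤ MM φ hx hy τ τ' r i j := by
  have k1 := abs_le.1 h1
  have k2 := abs_le.1 h2
  have e1 : i' = i + (-r + ((i' - i + r).toNat : ℕ)) := by omega
  have e2 : j' = j + (-r + ((j' - j + r).toNat : ℕ)) := by omega
  have m1 : (i' - i + r).toNat ∈ Finset.range (2 * r + 1) := Finset.mem_range.2 (by omega)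
  have m2 : (j' - j + r).toNat ∈ Finset.range (2 * r + 1) := Finset.mem_range.2 (by omega)
  unfold MM
  have s1 := Finset.single_le_sum (f := fun a : ℕ => ∑ b ∈ Finset.range (2 * r + 1),
    mm φ hx hy τ τ' (i + (-r + a)) (j + (-r + b)))
    (fun _ _ => Finset.sum_nonneg fun _ _ => mm_nonneg _ _) m1
  have s2 := Finset.single_le_sum (f := fun b : ℕ =>
    mm φ hx hy τ τ' (i + (-r + ((i' - i + r).toNat : ℕ))) (j + (-r + b)))
    (fun _ _ => mm_nonneg _ _) m2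
  rw [← e1] at s1 s2
  rw [← e2] at s2
  exact s2.trans s1

variable {n1 n2 : ℕ} {d : ℝ}

theorem vz_per1 (hG : Grid φ L n1 n2 d hx hy τ τ')
    (hper : ∀ (m n : ℤ) (p : ℝ × ℝ), φ (p.1 + m * L, p.2 + n * (2 * Real.pi)) = φ p) (i j : ℤ) :
    vz φ hx hy τ τ' (i + n1) j = vz φ hx hy τ τ' i j := by
  unfold vz
  have : (fun t => φ (τ + ((i + n1 : ℤ) : ℝ) * hx, t)) = fun t => φ (τ + i * hx, t) := by
    funext t
    have h1 := hper 1 0 (τ + i * hx, t)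
    simp only [Int.cast_one, one_mul, Int.cast_zero, zero_mul, add_zero] at h1
    rw [← h1, ← hG.ex]
    congr 2
    push_cast
    ring
  rw [this]

theorem vz_per2 (hG : Grid φ L n1 n2 d hx hy τ τ')
    (hper : ∀ (m n : ℤ) (p : ℝ × ℝ), φ (p.1 + m * L, p.2 + n * (2 * Real.pi)) = φ p) (i j : ℤ) :
    vz φ hx hy τ τ' i (j + n2) = vz φ hx hy τ τ' i j := by
  unfold vz
  rw [← zc_shift (ψ := fun t => φ (τ + i * hx, t)) (T := 2 * Real.pi) (fun t => by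
    have h1 := hper 0 1 (τ + i * hx, t)
    simpa using h1) (τ' + j * hy)]
  rw [← hG.ey]
  congr 2
  · push_cast
    ring
  · push_cast
    ring

theorem hz_per1 (hG : Grid φ L n1 n2 d hx hy τ τ')
    (hper : ∀ (m n : ℤ) (p : ℝ × ℝ), φ (p.1 + m * L, p.2 + n * (2 * Real.pi)) = φ p) (i j : ℤ) :
    hz φ hx hy τ τ' (i + n1) j = hz φ hx hy τ τ' i j := by
  unfold hz
  rw [← zc_shift (ψ := fun t => φ (t, τ' + j * hy)) (T := L) (fun t => by
    have h1 := hper 1 0 (t, τ' + j * hy)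
    simpa using h1) (τ + i * hx)]
  rw [← hG.ex]
  congr 2
  · push_cast
    ring
  · push_cast
    ring

theorem hz_per2 (hG : Grid φ L n1 n2 d hx hy τ τ')
    (hper : ∀ (m n : ℤ) (p : ℝ × ℝ), φ (p.1 + m * L, p.2 + n * (2 * Real.pi)) = φ p) (i j : ℤ) :
    hz φ hx hy τ τ' i (j + n2) = hz φ hx hy τ τ' i j := by
  unfold hz
  have : (fun t => φ (t, τ' + ((j + n2 : ℤ) : ℝ) * hy)) = fun t => φ (t, τ' + j * hy) := by
    funext t
    have h1 := hper 0 1 (t, τ' + j * hy)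
    simp only [Int.cast_one, one_mul, Int.cast_zero, zero_mul, add_zero] at h1
    rw [← h1, ← hG.ey]
    congr 2
    push_cast
    ring
  rw [this]

theorem mm_per1 (hG : Grid φ L n1 n2 d hx hy τ τ')
    (hper : ∀ (m n : ℤ) (p : ℝ × ℝ), φ (p.1 + m * L, p.2 + n * (2 * Real.pi)) = φ p) (i j : ℤ) :
    mm φ hx hy τ τ' (i + n1) j = mm φ hx hy τ τ' i j := by
  unfold mm
  refine Finset.sum_congr rfl fun l _ => ?_
  have e : ∀ c : ℤ, i + n1 + c = i + c + n1 := fun c => by ring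
  simp only [e, vz_per1 hG hper, hz_per1 hG hper]

theorem mm_per2 (hG : Grid φ L n1 n2 d hx hy τ τ')
    (hper : ∀ (m n : ℤ) (p : ℝ × ℝ), φ (p.1 + m * L, p.2 + n * (2 * Real.pi)) = φ p) (i j : ℤ) :
    mm φ hx hy τ τ' i (j + n2) = mm φ hx hy τ τ' i j := by
  unfold mm
  refine Finset.sum_congr rfl fun l _ => ?_
  have e : ∀ c : ℤ, j + n2 + c = j + c + n2 := fun c => by ring
  simp only [e, vz_per2 hG hper, hz_per2 hG hper]

theorem MM_per1 (hG : Grid φ L n1 n2 d hx hy τ τ')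
    (hper : ∀ (m n : ℤ) (p : ℝ × ℝ), φ (p.1 + m * L, p.2 + n * (2 * Real.pi)) = φ p) (r : ℕ)
    (i j : ℤ) : MM φ hx hy τ τ' r (i + n1) j = MM φ hx hy τ τ' r i j := by
  unfold MM
  refine Finset.sum_congr rfl fun a _ => Finset.sum_congr rfl fun b _ => ?_
  rw [add_right_comm i, mm_per1 hG hper]

theorem MM_per2 (hG : Grid φ L n1 n2 d hx hy τ τ')
    (hper : ∀ (m n : ℤ) (p : ℝ × ℝ), φ (p.1 + m * L, p.2 + n * (2 * Real.pi)) = φ p) (r : ℕ)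
    (i j : ℤ) : MM φ hx hy τ τ' r i (j + n2) = MM φ hx hy τ τ' r i j := by
  unfold MM
  refine Finset.sum_congr rfl fun a _ => Finset.sum_congr rfl fun b _ => ?_
  rw [add_right_comm j, mm_per2 hG hper]

end facts

end Pool.Agent.Sub70.LT
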