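import Pool.Agent.R220.LV.Psi

/-!
# Averages of functions with almost nonnegative Laplacian
-/

set_option autoImplicit false

namespace Pool.Agent.Sub70.LT

open Set MeasureTheory Function

/-- The bump. -/
noncomputable def bb (x y : ℝ) : ℝ := max 0 (1 - x ^ 2 - y ^ 2)

theorem bb_nonneg (x y : ℝ) : 0 ≤ bb x y := le_max_left _ _

theorem bb_le_one (x y : ℝ) : bb x y ≤ 1 :=
  max_le zero_le_one (by nlinarith [sq_nonneg x, sq_nonneg y])

theorem bb_cont : Continuous fun p : ℝ × ℝ => bb p.1 p.2 := by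
  unfold bb
  fun_prop

theorem bb_half {x y : ℝ} (hx : |x| ≤ 1 / 2) (hy : |y| ≤ 1 / 2) : 1 / 2 ≤ bb x y := by
  refine le_max_of_le_right ?_
  have h1 := sq_le_sq' (abs_le.1 hx).1 (abs_le.1 hx).2
  have h2 := sq_le_sq' (abs_le.1 hy).1 (abs_le.1 hy).2
  norm_num at h1 h2
  linarith

theorem cube_deriv (w : ℝ) : HasDerivAt (fun w : ℝ => (max 0 w) ^ 3) (3 * (max 0 w) ^ 2) w := by
  rcases lt_trichotomy w 0 with h | h | h
  · have h1 : (fun w : ℝ => (max 0 w) ^ 3) =ᶠ[nhds w] fun _ => 0 := by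
      filter_upwards [gt_mem_nhds h] with v hv
      rw [max_eq_left hv.le]
      norm_num
    have h2 : 3 * (max 0 w) ^ 2 = 0 := by
      rw [max_eq_left h.le]
      norm_num
    rw [h2]
    exact (hasDerivAt_const w (0 : ℝ)).congr_of_eventuallyEq h1
  · subst h
    simp only [max_self, ne_eq, OfNat.ofNat_ne_zero, not_false_eq_true, zero_pow, mul_zero]
    rw [hasDerivAt_iff_isLittleO_nhds_zero]
    simp only [zero_add, max_self, ne_eq, OfNat.ofNat_ne_zero, not_false_eq_true, zero_pow,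
      sub_zero, smul_zero]
    have h1 : (fun h : ℝ => (max 0 h) ^ 3) =O[nhds 0] fun h => h ^ 3 := by
      refine Asymptotics.IsBigO.of_bound 1 (Filter.Eventually.of_forall fun h => ?_)
      rw [one_mul, norm_pow, norm_pow]
      refine pow_le_pow_left₀ (norm_nonneg _) ?_ 3
      rw [Real.norm_eq_abs, Real.norm_eq_abs, abs_of_nonneg (le_max_left 0 h)]
      exact max_le (abs_nonneg _) (le_abs_self _)
    have h2 : (fun h : ℝ => h ^ 3) =o[nhds 0] fun h : ℝ => h ^ 1 :=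
      Asymptotics.isLittleO_pow_pow (by norm_num)
    simpa using h1.trans_isLittleO h2
  · have h1 : (fun w : ℝ => (max 0 w) ^ 3) =ᶠ[nhds w] fun w => w ^ 3 := by
      filter_upwards [lt_mem_nhds h] with v hv
      rw [max_eq_right hv.le]
    have h2 : 3 * (max 0 w) ^ 2 = 3 * w ^ 2 := by rw [max_eq_right h.le]
    rw [h2]
    have h3 := hasDerivAt_pow 3 w
    norm_num at h3
    exact h3.congr_of_eventuallyEq h1

theorem bb_deriv1 (x y : ℝ) :
    HasDerivAt (fun x => bb x y ^ 3) (-6 * (x * bb x y ^ 2)) x := by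
  have h1 : HasDerivAt (fun x : ℝ => 1 - x ^ 2 - y ^ 2) (-(2 * x)) x := by
    have h := (((hasDerivAt_pow 2 x).const_sub 1).sub_const (y ^ 2))
    refine h.congr_deriv ?_
    norm_num
  have h2 := (cube_deriv (1 - x ^ 2 - y ^ 2)).comp x h1
  refine h2.congr_deriv ?_
  unfold bb
  ring

theorem bb_symm (x y : ℝ) : bb x y = bb y x := by
  unfold bb
  congr 1
  ring

theorem bb_deriv2 (x y : ℝ) :
    HasDerivAt (fun y => bb x y ^ 3) (-6 * (y * bb x y ^ 2)) y := by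
  have h := bb_deriv1 y x
  rw [bb_symm x y]
  refine h.congr_of_eventuallyEq (Filter.Eventually.of_forall fun t => ?_)
  show bb x t ^ 3 = bb t x ^ 3
  rw [bb_symm]

theorem bb_edge1 (y : ℝ) : bb 1 y = 0 := by
  unfold bb
  exact max_eq_left (by nlinarith [sq_nonneg y])

theorem bb_edge1' (y : ℝ) : bb (-1) y = 0 := by
  unfold bb
  exact max_eq_left (by nlinarith [sq_nonneg y])

/-- The mass of the square of the bump. -/
noncomputable def N0 : ℝ := ∫ x in (-1 : ℝ)..1, ∫ y in (-1 : ℝ)..1, bb x y ^ 2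

section two

variable {F G : ℝ → ℝ → ℝ}

theorem ic (hF : Continuous (uncurry F)) (c d : ℝ) : Continuous fun x => ∫ y in c..d, F x y :=
  Pool.Agent.R220.LV.par_cont hF c d

theorem slice1 (hF : Continuous (uncurry F)) (y : ℝ) : Continuous fun x => F x y :=
  hF.comp (Continuous.prodMk_left y)

theorem slice2 (hF : Continuous (uncurry F)) (x : ℝ) : Continuous fun y => F x y :=
  hF.comp (Continuous.prodMk_right x)

theorem mono2 (hF : Continuous (uncurry F)) (hG : Continuous (uncurry G)) {a b c d : ℝ}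
    (hab : a ≤ b) (hcd : c ≤ d) (h : ∀ x ∈ Icc a b, ∀ y ∈ Icc c d, F x y ≤ G x y) :
    ∫ x in a..b, ∫ y in c..d, F x y ≤ ∫ x in a..b, ∫ y in c..d, G x y := by
  refine intervalIntegral.integral_mono_on hab ((ic hF c d).intervalIntegrable _ _)
    ((ic hG c d).intervalIntegrable _ _) fun x hx => ?_
  exact intervalIntegral.integral_mono_on hcd ((slice2 hF x).intervalIntegrable _ _)
    ((slice2 hG x).intervalIntegrable _ _) fun y hy => h x hx y hy

theorem const2 (a b c d k : ℝ) : ∫ _x in a..b, ∫ _y in c..d, k = k * ((b - a) * (d - c)) := by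
  simp only [intervalIntegral.integral_const, smul_eq_mul]
  ring

theorem add2 (hF : Continuous (uncurry F)) (hG : Continuous (uncurry G)) (a b c d : ℝ) :
    ∫ x in a..b, ∫ y in c..d, (F x y + G x y) =
      (∫ x in a..b, ∫ y in c..d, F x y) + ∫ x in a..b, ∫ y in c..d, G x y := by
  rw [← intervalIntegral.integral_add ((ic hF c d).intervalIntegrable _ _)
    ((ic hG c d).intervalIntegrable _ _)]
  congr 1
  funext x
  exact intervalIntegral.integral_add ((slice2 hF x).intervalIntegrable _ _)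
    ((slice2 hG x).intervalIntegrable _ _)

theorem mul2 (k : ℝ) (a b c d : ℝ) :
    ∫ x in a..b, ∫ y in c..d, k * F x y = k * ∫ x in a..b, ∫ y in c..d, F x y := by
  simp only [intervalIntegral.integral_const_mul]

/-- Larger rectangles. -/
theorem sub1 {u : ℝ → ℝ} (hu : Continuous u) {a b a' b' : ℝ} (h1 : a' ≤ a) (h2 : a ≤ b)
    (h3 : b ≤ b') (h : ∀ x ∈ Icc a' b', 0 ≤ u x) : ∫ x in a..b, u x ≤ ∫ x in a'..b', u x := by
  have i := fun p q => hu.intervalIntegrable (μ := volume) p q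
  rw [← intervalIntegral.integral_add_adjacent_intervals (i a' a) (i a b'),
    ← intervalIntegral.integral_add_adjacent_intervals (i a b) (i b b')]
  have e1 : 0 ≤ ∫ x in a'..a, u x := intervalIntegral.integral_nonneg h1 fun x hx =>
    h x ⟨hx.1, hx.2.trans (h2.trans h3)⟩
  have e2 : 0 ≤ ∫ x in b..b', u x := intervalIntegral.integral_nonneg h3 fun x hx =>
    h x ⟨h1.trans (h2.trans hx.1), hx.2⟩
  linarith

theorem sub2 (hF : Continuous (uncurry F)) {a b a' b' c d c' d' : ℝ} (h1 : a' ≤ a) (h2 : a ≤ b)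
    (h3 : b ≤ b') (k1 : c' ≤ c) (k2 : c ≤ d) (k3 : d ≤ d')
    (h : ∀ x ∈ Icc a' b', ∀ y ∈ Icc c' d', 0 ≤ F x y) :
    ∫ x in a..b, ∫ y in c..d, F x y ≤ ∫ x in a'..b', ∫ y in c'..d', F x y := by
  refine (intervalIntegral.integral_mono_on h2 ((ic hF c d).intervalIntegrable _ _)
    ((ic hF c' d').intervalIntegrable _ _) fun x hx => ?_).trans
    (sub1 (ic hF c' d') h1 h2 h3 fun x hx => ?_)
  · exact sub1 (slice2 hF x) k1 k2 k3 fun y hy => h x ⟨h1.trans hx.1, hx.2.trans h3⟩ y hy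
  · exact intervalIntegral.integral_nonneg (k1.trans (k2.trans k3)) fun y hy => h x hx y hy

theorem chg (x0 y0 : ℝ) {s : ℝ} (hs : s ≠ 0) (a b c d : ℝ) :
    ∫ x in a..b, ∫ y in c..d, F (x0 + s * x) (y0 + s * y) =
      (s⁻¹) ^ 2 * ∫ x in (x0 + s * a)..(x0 + s * b), ∫ y in (y0 + s * c)..(y0 + s * d), F x y := by
  have h1 : ∀ x, ∫ y in c..d, F (x0 + s * x) (y0 + s * y) =
      s⁻¹ * ∫ y in (y0 + s * c)..(y0 + s * d), F (x0 + s * x) y := by
    intro x
    rw [intervalIntegral.integral_comp_add_mul (fun y => F (x0 + s * x) y) hs, smul_eq_mul]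
  simp only [h1]
  rw [intervalIntegral.integral_const_mul,
    intervalIntegral.integral_comp_add_mul
      (fun x => ∫ y in (y0 + s * c)..(y0 + s * d), F x y) hs, smul_eq_mul]
  ring

end two

theorem bb2_cont : Continuous (uncurry fun x y => bb x y ^ 2) := by
  have := bb_cont.pow 2
  exact this

theorem N0_ge : 1 / 4 ≤ N0 := by
  have h1 : (∫ x in (-(1 / 2) : ℝ)..(1 / 2), ∫ y in (-(1 / 2) : ℝ)..(1 / 2), (1 / 4 : ℝ)) ≤
      ∫ x in (-(1 / 2) : ℝ)..(1 / 2), ∫ y in (-(1 / 2) : ℝ)..(1 / 2), bb x y ^ 2 := by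
    refine mono2 (F := fun _ _ => (1 / 4 : ℝ)) (G := fun x y => bb x y ^ 2) continuous_const
      bb2_cont (by norm_num) (by norm_num) fun x hx y hy => ?_
    have := bb_half (abs_le.2 hx) (abs_le.2 hy)
    nlinarith
  have h2 := sub2 (F := fun x y => bb x y ^ 2) bb2_cont (a := -(1 / 2)) (b := 1 / 2) (a' := -1)
    (b' := 1) (c := -(1 / 2)) (d := 1 / 2) (c' := -1) (d' := 1) (by norm_num) (by norm_num)
    (by norm_num) (by norm_num) (by norm_num) (by norm_num) fun x _ y _ => sq_nonneg _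
  rw [const2] at h1
  unfold N0
  norm_num at h1 h2 ⊢
  linarith

theorem N0_le : N0 ≤ 4 := by
  have h1 := mono2 (F := fun x y => bb x y ^ 2) (G := fun _ _ => (1 : ℝ)) bb2_cont
    continuous_const (a := -1) (b := 1) (c := -1) (d := 1) (by norm_num) (by norm_num)
    fun x _ y _ => pow_le_one₀ (bb_nonneg x y) (bb_le_one x y)
  rw [const2] at h1
  unfold N0
  norm_num at h1 ⊢
  linarith

/-- The data on a rectangle: `a` has the gradient `(V₁ + b₁, V₂ + b₂)`, and the divergence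
`c₁ + c₂` of `(V₁, V₂)` is at least `-η`. -/
structure Dat (a V1 V2 b1 b2 c1 c2 : ℝ → ℝ → ℝ) (X0 X1 Y0 Y1 η Bd : ℝ) : Prop where
  ca : Continuous (uncurry a)
  cV1 : Continuous (uncurry V1)
  cV2 : Continuous (uncurry V2)
  cb1 : Continuous (uncurry b1)
  cb2 : Continuous (uncurry b2)
  cc1 : Continuous (uncurry c1)
  cc2 : Continuous (uncurry c2)
  ray : ∀ x0 y0 ξ ζ s : ℝ, x0 + s * ξ ∈ Icc X0 X1 → y0 + s * ζ ∈ Icc Y0 Y1 →
    HasDerivAt (fun s => a (x0 + s * ξ) (y0 + s * ζ))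
      (ξ * (V1 (x0 + s * ξ) (y0 + s * ζ) + b1 (x0 + s * ξ) (y0 + s * ζ)) +
        ζ * (V2 (x0 + s * ξ) (y0 + s * ζ) + b2 (x0 + s * ξ) (y0 + s * ζ))) s
  dV1 : ∀ x ∈ Icc X0 X1, ∀ y ∈ Icc Y0 Y1, HasDerivAt (fun t => V1 t y) (c1 x y) x
  dV2 : ∀ x ∈ Icc X0 X1, ∀ y ∈ Icc Y0 Y1, HasDerivAt (fun t => V2 x t) (c2 x y) y
  dv : ∀ x ∈ Icc X0 X1, ∀ y ∈ Icc Y0 Y1, -η ≤ c1 x y + c2 x y
  hb : ∀ x ∈ Icc X0 X1, ∀ y ∈ Icc Y0 Y1, b1 x y ^ 2 + b2 x y ^ 2 ≤ Bd ^ 2
  hX : X0 ≤ X1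
  hY : Y0 ≤ Y1
  hη : 0 ≤ η
  hBd : 0 ≤ Bd

/-- The flux of `(V₁, V₂)` through the boundary. -/
noncomputable def flux (V1 V2 : ℝ → ℝ → ℝ) (X0 X1 Y0 Y1 : ℝ) : ℝ :=
  (∫ y in Y0..Y1, (V1 X1 y - V1 X0 y)) + ∫ x in X0..X1, (V2 x Y1 - V2 x Y0)

section dat

variable {a V1 V2 b1 b2 c1 c2 : ℝ → ℝ → ℝ} {X0 X1 Y0 Y1 η Bd : ℝ}

theorem Dat.div (h : Dat a V1 V2 b1 b2 c1 c2 X0 X1 Y0 Y1 η Bd) :
    ∫ x in X0..X1, ∫ y in Y0..Y1, (c1 x y + c2 x y) = flux V1 V2 X0 X1 Y0 Y1 := by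
  rw [add2 h.cc1 h.cc2]
  unfold flux
  congr 1
  · rw [Pool.Agent.R220.LV.swap h.cc1]
    refine intervalIntegral.integral_congr fun y hy => ?_
    rw [uIcc_of_le h.hY] at hy
    refine intervalIntegral.integral_eq_sub_of_hasDerivAt (f := fun t => V1 t y) (fun x hx => ?_)
      ((slice1 h.cc1 y).intervalIntegrable _ _)
    rw [uIcc_of_le h.hX] at hx
    exact h.dV1 x hx y hy
  · refine intervalIntegral.integral_congr fun x hx => ?_
    rw [uIcc_of_le h.hX] at hx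
    refine intervalIntegral.integral_eq_sub_of_hasDerivAt (f := fun t => V2 x t) (fun y hy => ?_)
      ((slice2 h.cc2 x).intervalIntegrable _ _)
    rw [uIcc_of_le h.hY] at hy
    exact h.dV2 x hx y hy

/-- The average over a disc, not normalised. -/
noncomputable def Av (a : ℝ → ℝ → ℝ) (x0 y0 s : ℝ) : ℝ :=
  ∫ x in (-1 : ℝ)..1, ∫ y in (-1 : ℝ)..1, a (x0 + s * x) (y0 + s * y) * bb x y ^ 2

/-- The square lies in the rectangle. -/
def Ins (X0 X1 Y0 Y1 x0 y0 s : ℝ) : Prop := X0 ≤ x0 - s ∧ x0 + s ≤ X1 ∧ Y0 ≤ y0 - s ∧ y0 + s ≤ Y1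

theorem Ins.mem {x0 y0 S s x y : ℝ} (h : Ins X0 X1 Y0 Y1 x0 y0 S) (hs : 0 ≤ s) (hsS : s ≤ S)
    (hx : x ∈ Icc (-1 : ℝ) 1) (hy : y ∈ Icc (-1 : ℝ) 1) :
    x0 + s * x ∈ Icc X0 X1 ∧ y0 + s * y ∈ Icc Y0 Y1 := by
  obtain ⟨h1, h2, h3, h4⟩ := h
  have e1 : -S ≤ s * x := by nlinarith [hx.1, hx.2]
  have e2 : s * x ≤ S := by nlinarith [hx.1, hx.2]
  have e3 : -S ≤ s * y := by nlinarith [hy.1, hy.2]
  have e4 : s * y ≤ S := by nlinarith [hy.1, hy.2]
  exact ⟨⟨by linarith, by linarith⟩, ⟨by linarith, by linarith⟩⟩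

/-- The derivative of the average. -/
noncomputable def Av' (g1 g2 : ℝ → ℝ → ℝ) (x0 y0 s : ℝ) : ℝ :=
  ∫ x in (-1 : ℝ)..1, ∫ y in (-1 : ℝ)..1,
    (x * g1 (x0 + s * x) (y0 + s * y) + y * g2 (x0 + s * x) (y0 + s * y)) * bb x y ^ 2

end dat

end Pool.Agent.Sub70.LT
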