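import Pool.Agent.Sub70.LT.Kern

/-!
# Averages: the differential inequalities
-/

set_option autoImplicit false

namespace Pool.Agent.Sub70.LT

open Set MeasureTheory Function

variable {a V1 V2 b1 b2 c1 c2 : ℝ → ℝ → ℝ} {X0 X1 Y0 Y1 η Bd : ℝ}

theorem comp_cont {F : ℝ → ℝ → ℝ} (hF : Continuous (uncurry F)) (x0 y0 s : ℝ) :
    Continuous (uncurry fun x y => F (x0 + s * x) (y0 + s * y)) := by
  have : Continuous fun p : ℝ × ℝ => uncurry F (x0 + s * p.1, y0 + s * p.2) :=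
    hF.comp (by fun_prop)
  exact this

theorem bbsq : Continuous fun p : ℝ × ℝ => bb p.1 p.2 ^ 2 := bb_cont.pow 2

theorem integrand_cont {g1 g2 : ℝ → ℝ → ℝ} (h1 : Continuous (uncurry g1))
    (h2 : Continuous (uncurry g2)) (x0 y0 s : ℝ) : Continuous (uncurry fun x y =>
    (x * g1 (x0 + s * x) (y0 + s * y) + y * g2 (x0 + s * x) (y0 + s * y)) * bb x y ^ 2) := by
  have k1 := comp_cont h1 x0 y0 s
  have k2 := comp_cont h2 x0 y0 s
  have : Continuous fun p : ℝ × ℝ => (p.1 * uncurry (fun x y => g1 (x0 + s * x) (y0 + s * y)) p +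
      p.2 * uncurry (fun x y => g2 (x0 + s * x) (y0 + s * y)) p) * bb p.1 p.2 ^ 2 :=
    ((continuous_fst.mul k1).add (continuous_snd.mul k2)).mul bbsq
  exact this

/-- The average is the integral of its derivative. -/
theorem Dat.ftc (h : Dat a V1 V2 b1 b2 c1 c2 X0 X1 Y0 Y1 η Bd) {x0 y0 S s1 s2 : ℝ}
    (hI : Ins X0 X1 Y0 Y1 x0 y0 S) (h0 : 0 ≤ s1) (h12 : s1 ≤ s2) (h2S : s2 ≤ S) :
    Av a x0 y0 s2 - Av a x0 y0 s1 = ∫ s in s1..s2,
      Av' (fun x y => V1 x y + b1 x y) (fun x y => V2 x y + b2 x y) x0 y0 s := by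
  have k1 : Continuous (uncurry fun x y => V1 x y + b1 x y) := h.cV1.add h.cb1
  have k2 : Continuous (uncurry fun x y => V2 x y + b2 x y) := h.cV2.add h.cb2
  set g1 : ℝ → ℝ → ℝ := fun x y => V1 x y + b1 x y with hg1
  set g2 : ℝ → ℝ → ℝ := fun x y => V2 x y + b2 x y with hg2
  set I : ℝ → ℝ → ℝ → ℝ := fun s x y =>
    (x * g1 (x0 + s * x) (y0 + s * y) + y * g2 (x0 + s * x) (y0 + s * y)) * bb x y ^ 2 with hI3
  have cI : Continuous fun p : ℝ × ℝ × ℝ => I p.1 p.2.1 p.2.2 := by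
    have e1 : Continuous fun p : ℝ × ℝ × ℝ => uncurry g1 (x0 + p.1 * p.2.1, y0 + p.1 * p.2.2) :=
      k1.comp (by fun_prop)
    have e2 : Continuous fun p : ℝ × ℝ × ℝ => uncurry g2 (x0 + p.1 * p.2.1, y0 + p.1 * p.2.2) :=
      k2.comp (by fun_prop)
    have e3 : Continuous fun p : ℝ × ℝ × ℝ => bb p.2.1 p.2.2 ^ 2 :=
      bbsq.comp (continuous_snd : Continuous fun p : ℝ × ℝ × ℝ => p.2)
    have e4 : Continuous fun p : ℝ × ℝ × ℝ => p.2.1 := by fun_prop
    have e5 : Continuous fun p : ℝ × ℝ × ℝ => p.2.2 := by fun_prop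
    exact ((e4.mul e1).add (e5.mul e2)).mul e3
  -- the pointwise identity
  have hpt : ∀ x ∈ Icc (-1 : ℝ) 1, ∀ y ∈ Icc (-1 : ℝ) 1,
      a (x0 + s2 * x) (y0 + s2 * y) * bb x y ^ 2 - a (x0 + s1 * x) (y0 + s1 * y) * bb x y ^ 2 =
        ∫ s in s1..s2, I s x y := by
    intro x hx y hy
    have e1 : ∀ s ∈ uIcc s1 s2, HasDerivAt (fun s => a (x0 + s * x) (y0 + s * y) * bb x y ^ 2)
        (I s x y) s := by
      intro s hs
      rw [uIcc_of_le h12] at hs
      have e2 := hI.mem (h0.trans hs.1) (hs.2.trans h2S) hx hy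
      exact (h.ray x0 y0 x y s e2.1 e2.2).mul_const _
    have e3 : Continuous fun s => I s x y := cI.comp (by fun_prop :
      Continuous fun s : ℝ => ((s, x, y) : ℝ × ℝ × ℝ))
    exact (intervalIntegral.integral_eq_sub_of_hasDerivAt e1 (e3.intervalIntegrable _ _)).symm
  have k3 : ∀ s, Continuous (uncurry fun x y => a (x0 + s * x) (y0 + s * y) * bb x y ^ 2) := by
    intro s
    have := (comp_cont h.ca x0 y0 s).mul bbsq
    exact this
  unfold Av Av'
  rw [← intervalIntegral.integral_sub ((ic (k3 s2) _ _).intervalIntegrable _ _)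
    ((ic (k3 s1) _ _).intervalIntegrable _ _)]
  -- swap `s` and `x`
  have e4 : Continuous (uncurry fun s x => ∫ y in (-1 : ℝ)..1, I s x y) := by
    refine Pool.Agent.R220.LV.par_cont (X := ℝ × ℝ) (F := fun p y => I p.1 p.2 y) ?_ _ _
    exact cI.comp (by fun_prop : Continuous fun q : (ℝ × ℝ) × ℝ => ((q.1.1, q.1.2, q.2) : ℝ × ℝ × ℝ))
  have e5 : ∫ s in s1..s2, ∫ x in (-1 : ℝ)..1, ∫ y in (-1 : ℝ)..1, I s x y =
      ∫ x in (-1 : ℝ)..1, ∫ s in s1..s2, ∫ y in (-1 : ℝ)..1, I s x y :=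
    Pool.Agent.R220.LV.swap e4 _ _ _ _
  show _ = ∫ s in s1..s2, ∫ x in (-1 : ℝ)..1, ∫ y in (-1 : ℝ)..1, I s x y
  rw [e5]
  refine intervalIntegral.integral_congr fun x hx => ?_
  rw [uIcc_of_le (by norm_num)] at hx
  have e6 : Continuous (uncurry fun s y => I s x y) :=
    cI.comp (by fun_prop : Continuous fun q : ℝ × ℝ => ((q.1, x, q.2) : ℝ × ℝ × ℝ))
  show _ = ∫ s in s1..s2, ∫ y in (-1 : ℝ)..1, I s x y
  rw [Pool.Agent.R220.LV.swap e6]
  show ((∫ y in (-1 : ℝ)..1, a (x0 + s2 * x) (y0 + s2 * y) * bb x y ^ 2) -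
    ∫ y in (-1 : ℝ)..1, a (x0 + s1 * x) (y0 + s1 * y) * bb x y ^ 2) = _
  rw [← intervalIntegral.integral_sub ((slice2 (k3 s2) x).intervalIntegrable _ _)
    ((slice2 (k3 s1) x).intervalIntegrable _ _)]
  refine intervalIntegral.integral_congr fun y hy => ?_
  rw [uIcc_of_le (by norm_num)] at hy
  exact hpt x hx y hy

theorem bb3_cont : Continuous fun p : ℝ × ℝ => bb p.1 p.2 ^ 3 := bb_cont.pow 3

/-- Integration by parts in the first variable. -/
theorem parts1 {V c : ℝ → ℝ → ℝ} (cV : Continuous (uncurry V)) (cc : Continuous (uncurry c))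
    {x0 y0 S s : ℝ} (hI : Ins X0 X1 Y0 Y1 x0 y0 S) (h0 : 0 ≤ s) (hs : s ≤ S)
    (hd : ∀ x ∈ Icc X0 X1, ∀ y ∈ Icc Y0 Y1, HasDerivAt (fun t => V t y) (c x y) x) :
    ∫ x in (-1 : ℝ)..1, ∫ y in (-1 : ℝ)..1, x * V (x0 + s * x) (y0 + s * y) * bb x y ^ 2 =
      s / 6 * ∫ x in (-1 : ℝ)..1, ∫ y in (-1 : ℝ)..1, c (x0 + s * x) (y0 + s * y) * bb x y ^ 3 := by
  have k1 : Continuous (uncurry fun x y => x * V (x0 + s * x) (y0 + s * y) * bb x y ^ 2) := by
    have := (continuous_fst.mul (comp_cont cV x0 y0 s)).mul bbsq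
    exact this
  have k2 : Continuous (uncurry fun x y => c (x0 + s * x) (y0 + s * y) * bb x y ^ 3) := by
    have := (comp_cont cc x0 y0 s).mul bb3_cont
    exact this
  rw [Pool.Agent.R220.LV.swap k1, Pool.Agent.R220.LV.swap k2, ← intervalIntegral.integral_const_mul]
  refine intervalIntegral.integral_congr fun y hy => ?_
  rw [uIcc_of_le (by norm_num)] at hy
  have e1 : ∀ x ∈ uIcc (-1 : ℝ) 1, HasDerivAt (fun x => V (x0 + s * x) (y0 + s * y) * bb x y ^ 3)
      (s * c (x0 + s * x) (y0 + s * y) * bb x y ^ 3 +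
        V (x0 + s * x) (y0 + s * y) * (-6 * (x * bb x y ^ 2))) x := by
    intro x hx
    rw [uIcc_of_le (by norm_num)] at hx
    have e2 := hI.mem h0 hs hx hy
    have e3 := hd _ e2.1 _ e2.2
    have e4 : HasDerivAt (fun x : ℝ => x0 + s * x) s x := by
      have := ((hasDerivAt_id x).const_mul s).const_add x0
      simpa using this
    have e5 := (e3.comp x e4).mul (bb_deriv1 x y)
    refine e5.congr_deriv ?_
    simp only [comp]
    ring
  have i1 : IntervalIntegrable (fun x => s * c (x0 + s * x) (y0 + s * y) * bb x y ^ 3) volume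
      (-1) 1 := by
    have := ((slice1 k2 y).const_mul s).intervalIntegrable (μ := volume) (-1) 1
    refine this.congr ?_
    intro x _
    show s * (c (x0 + s * x) (y0 + s * y) * bb x y ^ 3) = s * c (x0 + s * x) (y0 + s * y) * bb x y ^ 3
    ring
  have i2 : IntervalIntegrable (fun x => V (x0 + s * x) (y0 + s * y) * (-6 * (x * bb x y ^ 2)))
      volume (-1) 1 := by
    have := ((slice1 k1 y).const_mul (-6)).intervalIntegrable (μ := volume) (-1) 1
    refine this.congr ?_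
    intro x _
    show -6 * (x * V (x0 + s * x) (y0 + s * y) * bb x y ^ 2) =
      V (x0 + s * x) (y0 + s * y) * (-6 * (x * bb x y ^ 2))
    ring
  have e6 := intervalIntegral.integral_eq_sub_of_hasDerivAt e1 (i1.add i2)
  rw [intervalIntegral.integral_add i1 i2, bb_edge1, bb_edge1'] at e6
  have e7 : ∫ x in (-1 : ℝ)..1, s * c (x0 + s * x) (y0 + s * y) * bb x y ^ 3 =
      s * ∫ x in (-1 : ℝ)..1, c (x0 + s * x) (y0 + s * y) * bb x y ^ 3 := by
    rw [← intervalIntegral.integral_const_mul]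
    congr 1
    funext x
    ring
  have e8 : ∫ x in (-1 : ℝ)..1, V (x0 + s * x) (y0 + s * y) * (-6 * (x * bb x y ^ 2)) =
      -6 * ∫ x in (-1 : ℝ)..1, x * V (x0 + s * x) (y0 + s * y) * bb x y ^ 2 := by
    rw [← intervalIntegral.integral_const_mul]
    congr 1
    funext x
    ring
  rw [e7, e8] at e6
  show ∫ x in (-1 : ℝ)..1, x * V (x0 + s * x) (y0 + s * y) * bb x y ^ 2 =
    s / 6 * ∫ x in (-1 : ℝ)..1, c (x0 + s * x) (y0 + s * y) * bb x y ^ 3
  norm_num at e6
  linarith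

/-- Integration by parts in the second variable. -/
theorem parts2 {V c : ℝ → ℝ → ℝ} (cV : Continuous (uncurry V)) (cc : Continuous (uncurry c))
    {x0 y0 S s : ℝ} (hI : Ins X0 X1 Y0 Y1 x0 y0 S) (h0 : 0 ≤ s) (hs : s ≤ S)
    (hd : ∀ x ∈ Icc X0 X1, ∀ y ∈ Icc Y0 Y1, HasDerivAt (fun t => V x t) (c x y) y) :
    ∫ x in (-1 : ℝ)..1, ∫ y in (-1 : ℝ)..1, y * V (x0 + s * x) (y0 + s * y) * bb x y ^ 2 =
      s / 6 * ∫ x in (-1 : ℝ)..1, ∫ y in (-1 : ℝ)..1, c (x0 + s * x) (y0 + s * y) * bb x y ^ 3 := by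
  have cV' : Continuous (uncurry fun x y => V y x) := by
    have : Continuous fun p : ℝ × ℝ => uncurry V (p.2, p.1) := cV.comp (by fun_prop)
    exact this
  have cc' : Continuous (uncurry fun x y => c y x) := by
    have : Continuous fun p : ℝ × ℝ => uncurry c (p.2, p.1) := cc.comp (by fun_prop)
    exact this
  have h1 := parts1 (X0 := Y0) (X1 := Y1) (Y0 := X0) (Y1 := X1) (V := fun x y => V y x)
    (c := fun x y => c y x) cV' cc' (x0 := y0) (y0 := x0) (S := S) (s := s)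
    ⟨hI.2.2.1, hI.2.2.2, hI.1, hI.2.1⟩ h0 hs fun x hx y hy => hd y hy x hx
  have k1 : Continuous (uncurry fun x y => y * V (x0 + s * x) (y0 + s * y) * bb x y ^ 2) := by
    have := (continuous_snd.mul (comp_cont cV x0 y0 s)).mul bbsq
    exact this
  have k2 : Continuous (uncurry fun x y => c (x0 + s * x) (y0 + s * y) * bb x y ^ 3) := by
    have := (comp_cont cc x0 y0 s).mul bb3_cont
    exact this
  rw [Pool.Agent.R220.LV.swap k1, Pool.Agent.R220.LV.swap k2]
  refine Eq.trans ?_ (h1.trans ?_)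
  · congr 1
    funext y
    congr 1
    funext x
    rw [bb_symm x y]
  · congr 2
    funext y
    congr 1
    funext x
    rw [bb_symm x y]

/-- The bounds of the derivative of the average. -/
theorem Dat.bounds (h : Dat a V1 V2 b1 b2 c1 c2 X0 X1 Y0 Y1 η Bd) {x0 y0 S s : ℝ}
    (hI : Ins X0 X1 Y0 Y1 x0 y0 S) (h0 : 0 < s) (hs : s ≤ S) :
    -(η * S + Bd * N0) ≤
      Av' (fun x y => V1 x y + b1 x y) (fun x y => V2 x y + b2 x y) x0 y0 s ∧
    Av' (fun x y => V1 x y + b1 x y) (fun x y => V2 x y + b2 x y) x0 y0 s ≤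
      (flux V1 V2 X0 X1 Y0 Y1 + η * ((X1 - X0) * (Y1 - Y0))) / (6 * s) + Bd * N0 := by
  have kV1 : Continuous (uncurry fun x y => x * V1 (x0 + s * x) (y0 + s * y) * bb x y ^ 2) := by
    have := (continuous_fst.mul (comp_cont h.cV1 x0 y0 s)).mul bbsq
    exact this
  have kV2 : Continuous (uncurry fun x y => y * V2 (x0 + s * x) (y0 + s * y) * bb x y ^ 2) := by
    have := (continuous_snd.mul (comp_cont h.cV2 x0 y0 s)).mul bbsq
    exact this
  have kb := integrand_cont h.cb1 h.cb2 x0 y0 s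
  have kc1 : Continuous (uncurry fun x y => c1 (x0 + s * x) (y0 + s * y) * bb x y ^ 3) := by
    have := (comp_cont h.cc1 x0 y0 s).mul bb3_cont
    exact this
  have kc2 : Continuous (uncurry fun x y => c2 (x0 + s * x) (y0 + s * y) * bb x y ^ 3) := by
    have := (comp_cont h.cc2 x0 y0 s).mul bb3_cont
    exact this
  have cc : Continuous (uncurry fun x y => c1 x y + c2 x y) := h.cc1.add h.cc2
  have kc : Continuous (uncurry fun x y => (c1 (x0 + s * x) (y0 + s * y) +
      c2 (x0 + s * x) (y0 + s * y)) * bb x y ^ 3) := by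
    have := (comp_cont cc x0 y0 s).mul bb3_cont
    exact this
  -- decomposition
  have e1 : Av' (fun x y => V1 x y + b1 x y) (fun x y => V2 x y + b2 x y) x0 y0 s =
      s / 6 * (∫ x in (-1 : ℝ)..1, ∫ y in (-1 : ℝ)..1, (c1 (x0 + s * x) (y0 + s * y) +
        c2 (x0 + s * x) (y0 + s * y)) * bb x y ^ 3) + Av' b1 b2 x0 y0 s := by
    have e2 := add2 kc1 kc2 (-1) 1 (-1) 1
    have e3 : ∫ x in (-1 : ℝ)..1, ∫ y in (-1 : ℝ)..1, (c1 (x0 + s * x) (y0 + s * y) +
        c2 (x0 + s * x) (y0 + s * y)) * bb x y ^ 3 = ∫ x in (-1 : ℝ)..1, ∫ y in (-1 : ℝ)..1,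
        (c1 (x0 + s * x) (y0 + s * y) * bb x y ^ 3 + c2 (x0 + s * x) (y0 + s * y) * bb x y ^ 3) := by
      simp only [add_mul]
    rw [e3, e2, mul_add, ← parts1 h.cV1 h.cc1 hI h0.le hs h.dV1,
      ← parts2 h.cV2 h.cc2 hI h0.le hs h.dV2, ← add2 kV1 kV2]
    unfold Av'
    have kVV : Continuous (uncurry fun x y => x * V1 (x0 + s * x) (y0 + s * y) * bb x y ^ 2 +
      y * V2 (x0 + s * x) (y0 + s * y) * bb x y ^ 2) := kV1.add kV2
    rw [← add2 kVV kb]
    congr 1
    funext x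
    congr 1
    funext y
    ring
  -- the term with `b`
  have hbpt : ∀ x ∈ Icc (-1 : ℝ) 1, ∀ y ∈ Icc (-1 : ℝ) 1,
      |(x * b1 (x0 + s * x) (y0 + s * y) + y * b2 (x0 + s * x) (y0 + s * y)) * bb x y ^ 2| ≤
        Bd * bb x y ^ 2 := by
    intro x hx y hy
    have e2 := hI.mem h0.le hs hx hy
    have e3 := h.hb _ e2.1 _ e2.2
    rw [abs_mul, abs_of_nonneg (sq_nonneg (bb x y))]
    rcases (bb_nonneg x y).eq_or_lt with e4 | e4
    · rw [← e4]
      simp
    · refine mul_le_mul_of_nonneg_right ?_ (sq_nonneg _)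
      have e5 : x ^ 2 + y ^ 2 ≤ 1 := by
        by_contra e6
        push Not at e6
        have : bb x y = 0 := by
          unfold bb
          exact max_eq_left (by linarith)
        linarith
      refine abs_le_of_sq_le_sq ?_ h.hBd
      set p := b1 (x0 + s * x) (y0 + s * y)
      set q := b2 (x0 + s * x) (y0 + s * y)
      have e6 : (x * p + y * q) ^ 2 ≤ (x ^ 2 + y ^ 2) * (p ^ 2 + q ^ 2) := by
        nlinarith [sq_nonneg (x * q - y * p)]
      have e7 : (x ^ 2 + y ^ 2) * (p ^ 2 + q ^ 2) ≤ 1 * (p ^ 2 + q ^ 2) :=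
        mul_le_mul_of_nonneg_right e5 (by positivity)
      linarith
  have kB : Continuous (uncurry fun x y => Bd * bb x y ^ 2) := by
    have := (continuous_const (y := Bd)).mul bbsq
    exact this
  have kB' : Continuous (uncurry fun x y => -Bd * bb x y ^ 2) := by
    have := (continuous_const (y := -Bd)).mul bbsq
    exact this
  have hb1 : Av' b1 b2 x0 y0 s ≤ Bd * N0 := by
    have := mono2 kb kB (a := -1) (b := 1) (c := -1) (d := 1) (by norm_num) (by norm_num)
      fun x hx y hy => (abs_le.1 (hbpt x hx y hy)).2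
    rw [mul2] at this
    exact this
  have hb2 : -(Bd * N0) ≤ Av' b1 b2 x0 y0 s := by
    have := mono2 kB' kb (a := -1) (b := 1) (c := -1) (d := 1) (by norm_num) (by norm_num)
      fun x hx y hy => by
        have := (abs_le.1 (hbpt x hx y hy)).1
        linarith
    rw [mul2] at this
    have e8 : -(Bd * N0) = -Bd * N0 := by ring
    rw [e8]
    exact this
  -- lower bound of the divergence term
  have hlow : -(4 * η) ≤ ∫ x in (-1 : ℝ)..1, ∫ y in (-1 : ℝ)..1, (c1 (x0 + s * x) (y0 + s * y) +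
        c2 (x0 + s * x) (y0 + s * y)) * bb x y ^ 3 := by
    have := mono2 (F := fun _ _ => -η) continuous_const kc (a := -1) (b := 1) (c := -1) (d := 1)
      (by norm_num) (by norm_num) fun x hx y hy => by
        have e2 := hI.mem h0.le hs hx hy
        have e3 := h.dv _ e2.1 _ e2.2
        have e4 : 0 ≤ bb x y ^ 3 := pow_nonneg (bb_nonneg x y) 3
        have e5 : bb x y ^ 3 ≤ 1 := pow_le_one₀ (bb_nonneg x y) (bb_le_one x y)
        have e6 := mul_le_mul_of_nonneg_right e3 e4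
        have e7 : -η ≤ -η * bb x y ^ 3 := by nlinarith [h.hη]
        linarith
    rw [const2] at this
    linarith
  -- upper bound of the divergence term
  have hup : ∫ x in (-1 : ℝ)..1, ∫ y in (-1 : ℝ)..1, (c1 (x0 + s * x) (y0 + s * y) +
        c2 (x0 + s * x) (y0 + s * y)) * bb x y ^ 3 ≤
      (s⁻¹) ^ 2 * (flux V1 V2 X0 X1 Y0 Y1 + η * ((X1 - X0) * (Y1 - Y0))) := by
    have cη : Continuous (uncurry fun x y => c1 x y + c2 x y + η) := cc.add continuous_const
    have e2 := mono2 kc (comp_cont cη x0 y0 s) (a := -1) (b := 1) (c := -1) (d := 1)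
      (by norm_num) (by norm_num) fun x hx y hy => by
        have e2 := hI.mem h0.le hs hx hy
        have e3 := h.dv _ e2.1 _ e2.2
        have e4 : 0 ≤ bb x y ^ 3 := pow_nonneg (bb_nonneg x y) 3
        have e5 : bb x y ^ 3 ≤ 1 := pow_le_one₀ (bb_nonneg x y) (bb_le_one x y)
        set w := c1 (x0 + s * x) (y0 + s * y) + c2 (x0 + s * x) (y0 + s * y)
        have e6 : (w + η) * bb x y ^ 3 ≤ (w + η) * 1 :=
          mul_le_mul_of_nonneg_left e5 (by linarith)
        have e7 := mul_nonneg h.hη e4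
        nlinarith
    rw [chg (F := fun x y => c1 x y + c2 x y + η) x0 y0 h0.ne'] at e2
    refine e2.trans (mul_le_mul_of_nonneg_left ?_ (by positivity))
    obtain ⟨i1, i2, i3, i4⟩ := hI
    have e3 := sub2 cη (a := x0 + s * -1) (b := x0 + s * 1) (a' := X0) (b' := X1)
      (c := y0 + s * -1) (d := y0 + s * 1) (c' := Y0) (d' := Y1) (by linarith) (by linarith)
      (by linarith) (by linarith) (by linarith) (by linarith) fun x hx y hy => by
        have := h.dv x hx y hy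
        linarith
    refine e3.trans ?_
    have e4 := add2 (G := fun _ _ => η) cc continuous_const X0 X1 Y0 Y1
    rw [e4, h.div, const2]
  rw [e1]
  constructor
  · have e2 : s / 6 * -(4 * η) ≤ s / 6 * ∫ x in (-1 : ℝ)..1, ∫ y in (-1 : ℝ)..1,
        (c1 (x0 + s * x) (y0 + s * y) + c2 (x0 + s * x) (y0 + s * y)) * bb x y ^ 3 :=
      mul_le_mul_of_nonneg_left hlow (by positivity)
    have e3 : η * s ≤ η * S := mul_le_mul_of_nonneg_left hs h.hη
    have e4 : 0 ≤ η * s := mul_nonneg h.hη h0.le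
    nlinarith
  · have e2 : s / 6 * (∫ x in (-1 : ℝ)..1, ∫ y in (-1 : ℝ)..1,
        (c1 (x0 + s * x) (y0 + s * y) + c2 (x0 + s * x) (y0 + s * y)) * bb x y ^ 3) ≤
        s / 6 * ((s⁻¹) ^ 2 * (flux V1 V2 X0 X1 Y0 Y1 + η * ((X1 - X0) * (Y1 - Y0)))) :=
      mul_le_mul_of_nonneg_left hup (by positivity)
    have e3 : s / 6 * ((s⁻¹) ^ 2 * (flux V1 V2 X0 X1 Y0 Y1 + η * ((X1 - X0) * (Y1 - Y0)))) =
        (flux V1 V2 X0 X1 Y0 Y1 + η * ((X1 - X0) * (Y1 - Y0))) / (6 * s) := by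
      field_simp
    rw [e3] at e2
    linarith

end Pool.Agent.Sub70.LT
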