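import Pool.Agent.Sub70.LT.Kern2

/-!
# Averages: the main inequality
-/

set_option autoImplicit false

namespace Pool.Agent.Sub70.LT

open Set MeasureTheory Function

variable {a V1 V2 b1 b2 c1 c2 : ℝ → ℝ → ℝ} {X0 X1 Y0 Y1 η Bd : ℝ}

theorem Av'_cont {g1 g2 : ℝ → ℝ → ℝ} (k1 : Continuous (uncurry g1))
    (k2 : Continuous (uncurry g2)) (x0 y0 : ℝ) : Continuous fun s => Av' g1 g2 x0 y0 s := by
  have cI : Continuous fun p : ℝ × ℝ × ℝ => (p.2.1 * g1 (x0 + p.1 * p.2.1) (y0 + p.1 * p.2.2) +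
      p.2.2 * g2 (x0 + p.1 * p.2.1) (y0 + p.1 * p.2.2)) * bb p.2.1 p.2.2 ^ 2 := by
    have e1 : Continuous fun p : ℝ × ℝ × ℝ => uncurry g1 (x0 + p.1 * p.2.1, y0 + p.1 * p.2.2) :=
      k1.comp (by fun_prop)
    have e2 : Continuous fun p : ℝ × ℝ × ℝ => uncurry g2 (x0 + p.1 * p.2.1, y0 + p.1 * p.2.2) :=
      k2.comp (by fun_prop)
    have e3 : Continuous fun p : ℝ × ℝ × ℝ => bb p.2.1 p.2.2 ^ 2 :=
      bbsq.comp (continuous_snd : Continuous fun p : ℝ × ℝ × ℝ => p.2)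
    have e4 : Continuous fun p : ℝ × ℝ × ℝ => p.2.1 := by fun_prop
    have e5 : Continuous fun p : ℝ × ℝ × ℝ => p.2.2 := by fun_prop
    exact ((e4.mul e1).add (e5.mul e2)).mul e3
  have e4 : Continuous (uncurry fun s x => ∫ y in (-1 : ℝ)..1,
      (x * g1 (x0 + s * x) (y0 + s * y) + y * g2 (x0 + s * x) (y0 + s * y)) * bb x y ^ 2) := by
    refine Pool.Agent.R220.LV.par_cont (X := ℝ × ℝ) (F := fun p y =>
      (p.2 * g1 (x0 + p.1 * p.2) (y0 + p.1 * y) + y * g2 (x0 + p.1 * p.2) (y0 + p.1 * y)) *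
        bb p.2 y ^ 2) ?_ _ _
    exact cI.comp (by fun_prop : Continuous fun q : (ℝ × ℝ) × ℝ => ((q.1.1, q.1.2, q.2) : ℝ × ℝ × ℝ))
  exact Pool.Agent.R220.LV.par_cont e4 _ _

/-- Averages over two discs. -/
theorem av_compare (ca : Continuous (uncurry a)) {x1 y1 x0 y0 S α : ℝ} (hS : 0 < S)
    (hI : Ins X0 X1 Y0 Y1 x1 y1 S) (hx : |x0 - x1| ≤ S / 4) (hy : |y0 - y1| ≤ S / 4)
    (hα : ∀ x ∈ Icc X0 X1, ∀ y ∈ Icc Y0 Y1, α ≤ a x y) :
    Av a x0 y0 (S / 4) - α * N0 ≤ 64 * (Av a x1 y1 S - α * N0) := by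
  set F : ℝ → ℝ → ℝ := fun x y => a x y + -α with hF
  have cF : Continuous (uncurry F) := ca.add continuous_const
  have hx' := abs_le.1 hx
  have hy' := abs_le.1 hy
  obtain ⟨i1, i2, i3, i4⟩ := hI
  have hI1 : Ins X0 X1 Y0 Y1 x1 y1 S := ⟨i1, i2, i3, i4⟩
  have hI0 : Ins X0 X1 Y0 Y1 x0 y0 (S / 4) := ⟨by linarith, by linarith, by linarith, by linarith⟩
  have hAv : ∀ x y s, Av a x y s - α * N0 =
      ∫ ξ in (-1 : ℝ)..1, ∫ ζ in (-1 : ℝ)..1, F (x + s * ξ) (y + s * ζ) * bb ξ ζ ^ 2 := by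
    intro x y s
    have k1 : Continuous (uncurry fun ξ ζ => a (x + s * ξ) (y + s * ζ) * bb ξ ζ ^ 2) := by
      have := (comp_cont ca x y s).mul bbsq
      exact this
    have k2 : Continuous (uncurry fun ξ ζ => -α * bb ξ ζ ^ 2) := by
      have := (continuous_const (y := -α)).mul bbsq
      exact this
    have e1 := add2 k1 k2 (-1) 1 (-1) 1
    rw [mul2] at e1
    simp only [hF, add_mul]
    rw [e1]
    unfold Av N0
    ring
  rw [hAv, hAv]
  have kB : ∀ x y s, Continuous (uncurry fun ξ ζ => F (x + s * ξ) (y + s * ζ) * bb ξ ζ ^ 2) := by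
    intro x y s
    have := (comp_cont cF x y s).mul bbsq
    exact this
  have e1 := mono2 (kB x0 y0 (S / 4)) (comp_cont cF x0 y0 (S / 4)) (a := -1) (b := 1) (c := -1)
    (d := 1) (by norm_num) (by norm_num) fun ξ hξ ζ hζ => by
      have e2 := hI0.mem (s := S / 4) (by positivity) le_rfl hξ hζ
      have e3 := hα _ e2.1 _ e2.2
      have e4 : bb ξ ζ ^ 2 ≤ 1 := pow_le_one₀ (bb_nonneg ξ ζ) (bb_le_one ξ ζ)
      have e5 : 0 ≤ F (x0 + S / 4 * ξ) (y0 + S / 4 * ζ) := by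
        simp only [hF]
        linarith
      nlinarith
  rw [chg x0 y0 (by positivity : S / 4 ≠ 0)] at e1
  have e2 := sub2 cF (a := x0 + S / 4 * -1) (b := x0 + S / 4 * 1) (a' := x1 + S * -(1 / 2))
    (b' := x1 + S * (1 / 2)) (c := y0 + S / 4 * -1) (d := y0 + S / 4 * 1)
    (c' := y1 + S * -(1 / 2)) (d' := y1 + S * (1 / 2)) (by linarith) (by linarith) (by linarith)
    (by linarith) (by linarith) (by linarith) fun x hx y hy => by
      have e3 := hα x ⟨by linarith [hx.1], by linarith [hx.2]⟩ y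
        ⟨by linarith [hy.1], by linarith [hy.2]⟩
      simp only [hF]
      linarith
  have e3 := chg (F := F) x1 y1 hS.ne' (-(1 / 2)) (1 / 2) (-(1 / 2)) (1 / 2)
  have e4 := mono2 (comp_cont cF x1 y1 S) (G := fun ξ ζ =>
    4 * (F (x1 + S * ξ) (y1 + S * ζ) * bb ξ ζ ^ 2)) (by
      have := (continuous_const (y := (4 : ℝ))).mul (kB x1 y1 S)
      exact this)
    (a := -(1 / 2)) (b := 1 / 2) (c := -(1 / 2)) (d := 1 / 2) (by norm_num) (by norm_num)
    fun ξ hξ ζ hζ => by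
      have e5 : ξ ∈ Icc (-1 : ℝ) 1 := ⟨by linarith [hξ.1], by linarith [hξ.2]⟩
      have e6 : ζ ∈ Icc (-1 : ℝ) 1 := ⟨by linarith [hζ.1], by linarith [hζ.2]⟩
      have e7 := hI1.mem (s := S) hS.le le_rfl e5 e6
      have e8 := hα _ e7.1 _ e7.2
      have e9 := bb_half (abs_le.2 hξ) (abs_le.2 hζ)
      have e10 : 0 ≤ F (x1 + S * ξ) (y1 + S * ζ) := by
        simp only [hF]
        linarith
      have e11 : 1 / 4 ≤ bb ξ ζ ^ 2 := by nlinarith
      nlinarith
  rw [mul2] at e4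
  have e5 := sub2 (kB x1 y1 S) (a := -(1 / 2)) (b := 1 / 2) (a' := -1) (b' := 1) (c := -(1 / 2))
    (d := 1 / 2) (c' := -1) (d' := 1) (by norm_num) (by norm_num) (by norm_num) (by norm_num)
    (by norm_num) (by norm_num) fun ξ hξ ζ hζ => by
      have e7 := hI1.mem (s := S) hS.le le_rfl hξ hζ
      have e8 := hα _ e7.1 _ e7.2
      refine mul_nonneg ?_ (sq_nonneg _)
      simp only [hF]
      linarith
  have e6 : ((S / 4)⁻¹) ^ 2 * (∫ x in (x1 + S * -(1 / 2))..(x1 + S * (1 / 2)),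
      ∫ y in (y1 + S * -(1 / 2))..(y1 + S * (1 / 2)), F x y) =
      16 * ((S⁻¹) ^ 2 * ∫ x in (x1 + S * -(1 / 2))..(x1 + S * (1 / 2)),
      ∫ y in (y1 + S * -(1 / 2))..(y1 + S * (1 / 2)), F x y) := by
    have e8 : ((S / 4)⁻¹) ^ 2 = 16 * (S⁻¹) ^ 2 := by
      field_simp
      norm_num
    rw [e8]
    ring
  have e7 := mul_le_mul_of_nonneg_left e2 (by positivity : 0 ≤ ((S / 4)⁻¹) ^ 2)
  rw [e6, ← e3] at e7
  linarith

theorem Dat.main (h : Dat a V1 V2 b1 b2 c1 c2 X0 X1 Y0 Y1 η Bd) {x1 y1 x0 y0 S s1 α β : ℝ}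
    (hI : Ins X0 X1 Y0 Y1 x1 y1 S) (hs1 : 0 < s1) (hs1S : s1 ≤ S)
    (hx : |x0 - x1| ≤ S / 4) (hy : |y0 - y1| ≤ S / 4)
    (hα : ∀ x ∈ Icc X0 X1, ∀ y ∈ Icc Y0 Y1, α ≤ a x y)
    (hβ : ∀ x y, |x - x1| ≤ s1 → |y - y1| ≤ s1 → a x y ≤ β) :
    a x0 y0 - α ≤ 64 * ((β - α) + (flux V1 V2 X0 X1 Y0 Y1 + η * ((X1 - X0) * (Y1 - Y0))) *
      Real.log (S / s1) + Bd * S) + (Bd + 4 * η * S) * S := by
  have hS : 0 < S := hs1.trans_le hs1S
  have hN := N0_ge
  have hx' := abs_le.1 hx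
  have hy' := abs_le.1 hy
  obtain ⟨i1, i2, i3, i4⟩ := hI
  have hI1 : Ins X0 X1 Y0 Y1 x1 y1 S := ⟨i1, i2, i3, i4⟩
  have hI0 : Ins X0 X1 Y0 Y1 x0 y0 (S / 4) := ⟨by linarith, by linarith, by linarith, by linarith⟩
  have k1 : Continuous (uncurry fun x y => V1 x y + b1 x y) := h.cV1.add h.cb1
  have k2 : Continuous (uncurry fun x y => V2 x y + b2 x y) := h.cV2.add h.cb2
  set Φ := flux V1 V2 X0 X1 Y0 Y1 + η * ((X1 - X0) * (Y1 - Y0)) with hΦ
  have hΦ0 : 0 ≤ Φ := by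
    have cc : Continuous (uncurry fun x y => c1 x y + c2 x y) := h.cc1.add h.cc2
    have e4 := add2 (G := fun _ _ => η) cc continuous_const X0 X1 Y0 Y1
    rw [h.div, const2] at e4
    rw [hΦ, ← e4]
    refine intervalIntegral.integral_nonneg h.hX fun x hx => intervalIntegral.integral_nonneg h.hY
      fun y hy => ?_
    have := h.dv x hx y hy
    linarith
  -- from `s1` to `S`
  have e1 := h.ftc hI1 hs1.le hs1S le_rfl
  have e2 : ∫ s in s1..S, Av' (fun x y => V1 x y + b1 x y) (fun x y => V2 x y + b2 x y) x1 y1 s ≤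
      ∫ s in s1..S, (Φ / 6 * s⁻¹ + Bd * N0) := by
    refine intervalIntegral.integral_mono_on hs1S ((Av'_cont k1 k2 x1 y1).intervalIntegrable _ _)
      ?_ fun s hs => ?_
    · refine ContinuousOn.intervalIntegrable ?_
      rw [uIcc_of_le hs1S]
      refine (continuousOn_const.mul (continuousOn_id.inv₀ fun s hs => ?_)).add continuousOn_const
      exact (hs1.trans_le hs.1).ne'
    · refine ((h.bounds hI1 (hs1.trans_le hs.1) hs.2).2).trans (le_of_eq ?_)
      have : s ≠ 0 := (hs1.trans_le hs.1).ne'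
      rw [← hΦ]
      field_simp
  have e3 : ∫ s in s1..S, (Φ / 6 * s⁻¹ + Bd * N0) = Φ / 6 * Real.log (S / s1) + Bd * N0 * (S - s1) := by
    rw [intervalIntegral.integral_add, intervalIntegral.integral_const_mul,
      integral_inv_of_pos hs1 hS, intervalIntegral.integral_const, smul_eq_mul]
    · ring
    · refine ContinuousOn.intervalIntegrable ?_
      rw [uIcc_of_le hs1S]
      refine continuousOn_const.mul (continuousOn_id.inv₀ fun s hs => ?_)
      exact (hs1.trans_le hs.1).ne'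
    · exact continuous_const.intervalIntegrable _ _
  -- from `0` to `S / 4`
  have e4 := h.ftc hI0 le_rfl (by positivity : (0 : ℝ) ≤ S / 4) le_rfl
  have e5 : ∫ _s in (0 : ℝ)..(S / 4), -(η * (S / 4) + Bd * N0) ≤
      ∫ s in (0 : ℝ)..(S / 4),
        Av' (fun x y => V1 x y + b1 x y) (fun x y => V2 x y + b2 x y) x0 y0 s := by
    refine intervalIntegral.integral_mono_on_of_le_Ioo (by positivity)
      (continuous_const.intervalIntegrable _ _)
      ((Av'_cont k1 k2 x0 y0).intervalIntegrable _ _) fun s hs => ?_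
    exact (h.bounds hI0 hs.1 hs.2.le).1
  rw [intervalIntegral.integral_const, smul_eq_mul] at e5
  have e6 : Av a x0 y0 0 = a x0 y0 * N0 := by
    unfold Av N0
    simp only [zero_mul, add_zero]
    rw [← intervalIntegral.integral_const_mul]
    congr 1
    funext x
    rw [intervalIntegral.integral_const_mul]
  have e7 := av_compare h.ca hS hI1 hx hy hα
  -- the small disc
  have e8 : Av a x1 y1 s1 ≤ β * N0 := by
    have kB : Continuous (uncurry fun x y => β * bb x y ^ 2) := by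
      have := (continuous_const (y := β)).mul bbsq
      exact this
    have kA : Continuous (uncurry fun x y => a (x1 + s1 * x) (y1 + s1 * y) * bb x y ^ 2) := by
      have := (comp_cont h.ca x1 y1 s1).mul bbsq
      exact this
    have := mono2 kA kB (a := -1) (b := 1) (c := -1) (d := 1) (by norm_num) (by norm_num)
      fun x hx y hy => by
        refine mul_le_mul_of_nonneg_right (hβ _ _ ?_ ?_) (sq_nonneg _)
        · rw [add_sub_cancel_left, abs_mul, abs_of_pos hs1]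
          exact mul_le_of_le_one_right hs1.le (abs_le.2 hx)
        · rw [add_sub_cancel_left, abs_mul, abs_of_pos hs1]
          exact mul_le_of_le_one_right hs1.le (abs_le.2 hy)
    rw [mul2] at this
    exact this
  rw [e6] at e4
  have hlog : 0 ≤ Real.log (S / s1) := Real.log_nonneg (by rwa [one_le_div hs1])
  have hN4 := N0_le
  have hBd := h.hBd
  have hη := h.hη
  -- assemble
  have f1 : (a x0 y0 - α) * N0 ≤ 64 * ((β - α) * N0 + Φ / 6 * Real.log (S / s1) + Bd * N0 * S) +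
      (η * (S / 4) + Bd * N0) * (S / 4) := by
    have g1 : 0 ≤ Bd * N0 * s1 := by positivity
    nlinarith
  have f2 : Φ / 6 * Real.log (S / s1) ≤ Φ * Real.log (S / s1) * N0 := by
    have g1 := mul_nonneg hΦ0 hlog
    nlinarith
  have f3 : (η * (S / 4) + Bd * N0) * (S / 4) ≤ ((Bd + 4 * η * S) * S) * N0 := by
    have g1 : η * (S / 4) * (S / 4) ≤ 4 * η * S * S * N0 := by
      have g2 : 0 ≤ η * S * S := by positivity
      nlinarith
    have g3 : Bd * N0 * (S / 4) ≤ Bd * S * N0 := by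
      have g4 : 0 ≤ Bd * N0 * S := by positivity
      nlinarith
    nlinarith
  have hN0 : 0 < N0 := by linarith
  refine le_of_mul_le_mul_right (a := N0) ?_ hN0
  nlinarith

end Pool.Agent.Sub70.LT
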