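import Pool.Agent.Sub70.LT.Flux
import Pool.Agent.W571.RB.GR

/-!
# The local estimate
-/

set_option autoImplicit false

namespace Pool.Agent.Sub70.LT

open Set MeasureTheory Filter Topology Function

variable {u u1 u2 u11 u12 u22 p p1 p2 p11 p12 p22 qq : ℝ → ℝ → ℝ}

theorem Q_facts (hu : D2 u u1 u2 u11 u12 u22) (hp : D2 p p1 p2 p11 p12 p22)
    (eu : ∀ x y, u11 x y + u22 x y = -(qq x y * u x y))
    (ep : ∀ x y, p11 x y + p22 x y = -(qq x y * p x y)) (x1 y1 : ℝ) :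
    (∀ x y, HasDerivAt (fun t => QQ (GG1 u u1 p p1) (GG1 u u2 p p2) x1 y1 t y)
      (-GG1 u u2 p p2 x y) x) ∧
    (∀ x y, HasDerivAt (fun t => QQ (GG1 u u1 p p1) (GG1 u u2 p p2) x1 y1 x t)
      (GG1 u u1 p p1 x y) y) := by
  have cG1 := GG1_c hu.c hu.k1 hp.c hp.k1
  have cG2 := GG1_c hu.c hu.k2 hp.c hp.k2
  have cg1 : Continuous (uncurry fun x y => p x y * u11 x y - u x y * p11 x y) :=
    (hp.c.mul hu.k11).sub (hu.c.mul hp.k11)
  have cg2 : Continuous (uncurry fun x y => p x y * u22 x y - u x y * p22 x y) :=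
    (hp.c.mul hu.k22).sub (hu.c.mul hp.k22)
  refine ⟨QQ_x cG1 cG2 cg1 cg2 (fun x y => ?_) (fun x y => ?_) (fun x y => ?_), QQ_y cG1⟩
  · have := ((hp.d1 x y).mul (hu.d11 x y)).sub ((hu.d1 x y).mul (hp.d11 x y))
    refine this.congr_deriv ?_
    ring
  · have := ((hp.d2 x y).mul (hu.d22 x y)).sub ((hu.d2 x y).mul (hp.d22 x y))
    refine this.congr_deriv ?_
    ring
  · have h1 := eu x y
    have h2 := ep x y
    have e : p x y * u11 x y - u x y * p11 x y + (p x y * u22 x y - u x y * p22 x y) =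
        p x y * (u11 x y + u22 x y) - u x y * (p11 x y + p22 x y) := by ring
    rw [e, h1, h2]
    ring

/-- Vertical sides. -/
theorem side_v (hu : D2 u u1 u2 u11 u12 u22) (hp : D2 p p1 p2 p11 p12 p22)
    (eu : ∀ x y, u11 x y + u22 x y = -(qq x y * u x y))
    (ep : ∀ x y, p11 x y + p22 x y = -(qq x y * p x y)) {X Y0 Y1 c : ℝ} (hY : Y0 ≤ Y1)
    (hp1 : ∀ y ∈ Icc Y0 Y1, 1 / 2 < p X y) (hc : 0 < c) (x1 y1 : ℝ) {n : ℕ} {Z : Finset ℝ}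
    (hZ : ∀ t ∈ Ioo Y0 Y1, u X t = 0 → t ∈ Z) (hn : Z.card ≤ n) :
    ∀ᶠ dl in 𝓝[>] (0 : ℝ), |∫ y in Y0..Y1, fV1 dl c x1 y1 u u1 u2 p p1 p2 X y| ≤
      Real.pi * (n + 1) + 1 := by
  have hQ := Q_facts hu hp eu ep x1 y1
  refine vv_ev (c := c) (u := fun y => u X y) (p := fun y => max (p X y) (1 / 2))
    (q := fun y => QQ (GG1 u u1 p p1) (GG1 u u2 p p2) x1 y1 X y) (w := fun y => u X y * p X y)
    (q' := fun y => GG1 u u1 p p1 X y) (w' := fun y => u2 X y * p X y + u X y * p2 X y)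
    hc (fun t => lt_of_lt_of_le (by norm_num) (le_max_right _ _)) (slice2 hu.c X)
    ((slice2 hp.c X).max continuous_const) (fun t => hQ.2 X t)
    (fun t => (hu.d2 X t).mul (hp.d2 X t)) (slice2 (GG1_c hu.c hu.k1 hp.c hp.k1) X)
    (((slice2 hu.k2 X).mul (slice2 hp.c X)).add ((slice2 hu.c X).mul (slice2 hp.k2 X))) hY
    (fun t ht => ?_) hZ hn
  rw [max_eq_left (hp1 t ht).le]

/-- Horizontal sides. -/
theorem side_h (hu : D2 u u1 u2 u11 u12 u22) (hp : D2 p p1 p2 p11 p12 p22)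
    (eu : ∀ x y, u11 x y + u22 x y = -(qq x y * u x y))
    (ep : ∀ x y, p11 x y + p22 x y = -(qq x y * p x y)) {Y X0 X1 c : ℝ} (hX : X0 ≤ X1)
    (hp1 : ∀ x ∈ Icc X0 X1, 1 / 2 < p x Y) (hc : 0 < c) (x1 y1 : ℝ) {n : ℕ} {Z : Finset ℝ}
    (hZ : ∀ t ∈ Ioo X0 X1, u t Y = 0 → t ∈ Z) (hn : Z.card ≤ n) :
    ∀ᶠ dl in 𝓝[>] (0 : ℝ), |∫ x in X0..X1, fV2 dl c x1 y1 u u1 u2 p p1 p2 x Y| ≤
      Real.pi * (n + 1) + 1 := by
  have hQ := Q_facts hu hp eu ep x1 y1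
  have h := vv_ev (c := c) (u := fun x => u x Y) (p := fun x => max (p x Y) (1 / 2))
    (q := fun x => QQ (GG1 u u1 p p1) (GG1 u u2 p p2) x1 y1 x Y) (w := fun x => u x Y * p x Y)
    (q' := fun x => -GG1 u u2 p p2 x Y) (w' := fun x => u1 x Y * p x Y + u x Y * p1 x Y)
    hc (fun t => lt_of_lt_of_le (by norm_num) (le_max_right _ _)) (slice1 hu.c Y)
    ((slice1 hp.c Y).max continuous_const) (fun t => hQ.1 t Y)
    (fun t => (hu.d1 t Y).mul (hp.d1 t Y)) (slice1 (GG1_c hu.c hu.k2 hp.c hp.k2) Y).neg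
    (((slice1 hu.k1 Y).mul (slice1 hp.c Y)).add ((slice1 hu.c Y).mul (slice1 hp.k1 Y))) hX
    (fun t ht => by rw [max_eq_left (hp1 t ht).le]) hZ hn
  filter_upwards [h] with dl h1
  rw [← abs_neg, ← intervalIntegral.integral_neg]
  refine le_trans (le_of_eq ?_) h1
  congr 2
  funext x
  unfold vv fV2
  ring

/-- The flux. -/
theorem flux_ev (hu : D2 u u1 u2 u11 u12 u22) (hp : D2 p p1 p2 p11 p12 p22)
    (eu : ∀ x y, u11 x y + u22 x y = -(qq x y * u x y))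
    (ep : ∀ x y, p11 x y + p22 x y = -(qq x y * p x y)) {X0 X1 Y0 Y1 c : ℝ} (hX : X0 ≤ X1)
    (hY : Y0 ≤ Y1) (hp1 : ∀ x ∈ Icc X0 X1, ∀ y ∈ Icc Y0 Y1, 1 / 2 < p x y) (hc : 0 < c)
    (x1 y1 : ℝ) {n1 n2 n3 n4 : ℕ} {Z1 Z2 Z3 Z4 : Finset ℝ}
    (hZ1 : ∀ t ∈ Ioo Y0 Y1, u X0 t = 0 → t ∈ Z1) (hn1 : Z1.card ≤ n1)
    (hZ2 : ∀ t ∈ Ioo Y0 Y1, u X1 t = 0 → t ∈ Z2) (hn2 : Z2.card ≤ n2)
    (hZ3 : ∀ t ∈ Ioo X0 X1, u t Y0 = 0 → t ∈ Z3) (hn3 : Z3.card ≤ n3)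
    (hZ4 : ∀ t ∈ Ioo X0 X1, u t Y1 = 0 → t ∈ Z4) (hn4 : Z4.card ≤ n4) :
    ∀ᶠ dl in 𝓝[>] (0 : ℝ), flux (fV1 dl c x1 y1 u u1 u2 p p1 p2)
      (fV2 dl c x1 y1 u u1 u2 p p1 p2) X0 X1 Y0 Y1 ≤
        Real.pi * (n1 + n2 + n3 + n4 + 4) + 4 := by
  have h1 := side_v hu hp eu ep hY (hp1 X0 ⟨le_rfl, hX⟩) hc x1 y1 hZ1 hn1
  have h2 := side_v hu hp eu ep hY (hp1 X1 ⟨hX, le_rfl⟩) hc x1 y1 hZ2 hn2
  have h3 := side_h hu hp eu ep hX (fun x hx => hp1 x hx Y0 ⟨le_rfl, hY⟩) hc x1 y1 hZ3 hn3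
  have h4 := side_h hu hp eu ep hX (fun x hx => hp1 x hx Y1 ⟨hY, le_rfl⟩) hc x1 y1 hZ4 hn4
  filter_upwards [h1, h2, h3, h4, self_mem_nhdsWithin] with dl k1 k2 k3 k4 hdl
  have hdl0 : 0 < dl := hdl
  have cG1 := GG1_c hu.c hu.k1 hp.c hp.k1
  have cG2 := GG1_c hu.c hu.k2 hp.c hp.k2
  have hQ := Q_facts hu hp eu ep x1 y1
  have cQ : Continuous (uncurry (QQ (GG1 u u1 p p1) (GG1 u u2 p p2) x1 y1)) :=
    (Pool.Agent.R220.LV.contDiff_one_of (F := QQ (GG1 u u1 p p1) (GG1 u u2 p p2) x1 y1)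
      (Fx := fun x y => -GG1 u u2 p p2 x y) cG2.neg cG1 hQ.1 hQ.2).2.continuous
  have cP : Continuous (uncurry fun x y => max (p x y) (1 / 2)) := hp.c.max continuous_const
  have P0 : ∀ z : ℝ × ℝ, 0 < uncurry (fun x y => max (p x y) (1 / 2)) z := fun z =>
    lt_of_lt_of_le (by norm_num) (le_max_right _ _)
  have cal := al_c hdl0 hc hu.c cP cQ P0
  have cbe := be_c hdl0 hc hu.c cP cQ P0
  have cV1 : Continuous (uncurry (fV1 dl c x1 y1 u u1 u2 p p1 p2)) :=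
    (cal.mul cG1).sub (cbe.mul ((hu.k2.mul hp.c).add (hu.c.mul hp.k2)))
  have cV2 : Continuous (uncurry (fV2 dl c x1 y1 u u1 u2 p p1 p2)) :=
    (cal.mul cG2).add (cbe.mul ((hu.k1.mul hp.c).add (hu.c.mul hp.k1)))
  unfold flux
  rw [intervalIntegral.integral_sub ((slice2 cV1 X1).intervalIntegrable _ _)
    ((slice2 cV1 X0).intervalIntegrable _ _), intervalIntegral.integral_sub
    ((slice1 cV2 Y1).intervalIntegrable _ _) ((slice1 cV2 Y0).intervalIntegrable _ _)]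
  have e1 := (abs_le.1 k1).1
  have e2 := (abs_le.1 k2).2
  have e3 := (abs_le.1 k3).1
  have e4 := (abs_le.1 k4).2
  linarith

/-- The bound of the conjugate function near the center. -/
theorem Q_small (hu : D2 u u1 u2 u11 u12 u22) (eu : ∀ x y, u11 x y + u22 x y = -(qq x y * u x y))
    {x1 y1 s1 ε qh Γ : ℝ} (hs1 : 0 < s1) (hqh : ∀ x y, |qq x y| ≤ qh)
    (hqs : qh * s1 ^ 2 ≤ 1) (hΓs : Γ * s1 ≤ 1) (hΓ0 : 0 ≤ Γ)
    (hε0 : 0 ≤ ε) (hε : ∀ x y, |x - x1| ≤ 2 * s1 → |y - y1| ≤ 2 * s1 → |u x y| ≤ ε)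
    (hp : ∀ x y, |x - x1| ≤ s1 → |y - y1| ≤ s1 → 0 ≤ p x y ∧ p x y ≤ 2)
    (hΓ : ∀ x y, |x - x1| ≤ s1 → |y - y1| ≤ s1 → p1 x y ^ 2 + p2 x y ^ 2 ≤ Γ ^ 2)
    {x y : ℝ} (hx : |x - x1| ≤ s1) (hy : |y - y1| ≤ s1) :
    |QQ (GG1 u u1 p p1) (GG1 u u2 p p2) x1 y1 x y| ≤ 12 * ε := by
  have hqh0 : 0 ≤ qh := (abs_nonneg _).trans (hqh 0 0)
  have grad : ∀ x y, |x - x1| ≤ s1 → |y - y1| ≤ s1 →
      |u1 x y| ≤ 2 * ε / s1 + qh * ε * s1 / 2 ∧ |u2 x y| ≤ 2 * ε / s1 + qh * ε * s1 / 2 := by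
    intro x y hx hy
    have hb : ∀ a b, |a - x| ≤ s1 → |b - y| ≤ s1 → |u a b| ≤ ε ∧ |u11 a b + u22 a b| ≤ qh * ε := by
      intro a b ha hb
      have h1 : |a - x1| ≤ 2 * s1 := by
        have : a - x1 = (a - x) + (x - x1) := by ring
        rw [this]
        refine (abs_add_le _ _).trans (by linarith)
      have h2 : |b - y1| ≤ 2 * s1 := by
        have : b - y1 = (b - y) + (y - y1) := by ring
        rw [this]
        refine (abs_add_le _ _).trans (by linarith)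
      have h3 := hε a b h1 h2
      refine ⟨h3, ?_⟩
      rw [eu, abs_neg, abs_mul]
      exact mul_le_mul (hqh a b) h3 (abs_nonneg _) hqh0
    constructor
    · refine Pool.Agent.W571.RB.core_abs (fun a b => u b a) (fun a b => u2 b a)
        (fun a b => u1 b a) (fun a b => u22 b a) (fun a b => u11 b a)
        (hu.c.comp (continuous_swap)) (fun a b => hu.d2 b a)
        (fun a b => hu.d22 b a) (fun a b => hu.d1 b a) (fun a b => hu.d11 b a) y x s1 ε (qh * ε)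
        hs1 fun a b ha hb' => ?_
      have := hb b a hb' ha
      rw [add_comm] at this
      exact this
    · exact Pool.Agent.W571.RB.core_abs u u1 u2 u11 u22 hu.c hu.d1 hu.d11 hu.d2 hu.d22 x y s1 ε
        (qh * ε) hs1 hb
  have hG : ∀ x y, |x - x1| ≤ s1 → |y - y1| ≤ s1 →
      |GG1 u u1 p p1 x y| ≤ 6 * ε / s1 ∧ |GG1 u u2 p p2 x y| ≤ 6 * ε / s1 := by
    intro x y hx hy
    obtain ⟨g1, g2⟩ := grad x y hx hy
    obtain ⟨q1, q2⟩ := hp x y hx hy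
    have h1 := hΓ x y hx hy
    have h2 : |p1 x y| ≤ Γ := abs_le_of_sq_le_sq (by nlinarith [sq_nonneg (p2 x y)]) hΓ0
    have h3 : |p2 x y| ≤ Γ := abs_le_of_sq_le_sq (by nlinarith [sq_nonneg (p1 x y)]) hΓ0
    have h4 : |u x y| ≤ ε := hε x y (by linarith) (by linarith)
    have h5 : 2 * (2 * ε / s1 + qh * ε * s1 / 2) + ε * Γ ≤ 6 * ε / s1 := by
      rw [le_div_iff₀ hs1]
      have e1 : (2 * (2 * ε / s1 + qh * ε * s1 / 2) + ε * Γ) * s1 =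
          4 * ε + ε * (qh * s1 ^ 2) + ε * (Γ * s1) := by
        field_simp
        ring
      rw [e1]
      have e2 := mul_le_mul_of_nonneg_left hqs hε0
      have e3 := mul_le_mul_of_nonneg_left hΓs hε0
      linarith
    have key : ∀ v r : ℝ, |v| ≤ 2 * ε / s1 + qh * ε * s1 / 2 → |r| ≤ Γ →
        |p x y * v - u x y * r| ≤ 6 * ε / s1 := by
      intro v r hv hr
      refine le_trans ?_ h5
      refine (abs_sub _ _).trans ?_
      rw [abs_mul, abs_mul, abs_of_nonneg q1]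
      exact add_le_add (mul_le_mul q2 hv (abs_nonneg _) (by norm_num))
        (mul_le_mul h4 hr (abs_nonneg _) hε0)
    exact ⟨key _ _ g1 h2, key _ _ g2 h3⟩
  have hbet : ∀ {a b s t : ℝ}, s ∈ Set.uIoc a b → |b - a| ≤ t → |s - a| ≤ t := by
    intro a b s t hs ht
    have h1 := Set.abs_sub_left_of_mem_uIcc (Set.uIoc_subset_uIcc hs)
    exact h1.trans ht
  have i1 : |∫ s in x1..x, -GG1 u u2 p p2 s y1| ≤ 6 * ε := by
    have h1 := intervalIntegral.norm_integral_le_of_norm_le_const (a := x1) (b := x)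
      (f := fun s => -GG1 u u2 p p2 s y1) (C := 6 * ε / s1) fun s hs => by
        rw [Real.norm_eq_abs, abs_neg]
        exact (hG s y1 (hbet hs hx) (by rw [sub_self, abs_zero]; exact hs1.le)).2
    rw [Real.norm_eq_abs] at h1
    refine h1.trans ?_
    calc 6 * ε / s1 * |x - x1| ≤ 6 * ε / s1 * s1 := by gcongr
      _ = 6 * ε := by field_simp
  have i2 : |∫ t in y1..y, GG1 u u1 p p1 x t| ≤ 6 * ε := by
    have h1 := intervalIntegral.norm_integral_le_of_norm_le_const (a := y1) (b := y)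
      (f := fun t => GG1 u u1 p p1 x t) (C := 6 * ε / s1) fun s hs => by
        rw [Real.norm_eq_abs]
        exact (hG x s hx (hbet hs hy)).1
    rw [Real.norm_eq_abs] at h1
    refine h1.trans ?_
    calc 6 * ε / s1 * |y - y1| ≤ 6 * ε / s1 * s1 := by gcongr
      _ = 6 * ε := by field_simp
  unfold QQ
  refine (abs_add_le _ _).trans (by linarith)

/-- The local estimate. -/
theorem local_est (hu : D2 u u1 u2 u11 u12 u22) (hp : D2 p p1 p2 p11 p12 p22)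
    (eu : ∀ x y, u11 x y + u22 x y = -(qq x y * u x y))
    (ep : ∀ x y, p11 x y + p22 x y = -(qq x y * p x y)) {X0 X1 Y0 Y1 Γ S s1 ε qh x1 y1 : ℝ}
    (hp1 : ∀ x ∈ Icc X0 X1, ∀ y ∈ Icc Y0 Y1, 1 / 2 < p x y ∧ p x y ≤ 2)
    (hΓ0 : 0 ≤ Γ)
    (hΓ : ∀ x ∈ Icc X0 X1, ∀ y ∈ Icc Y0 Y1, p1 x y ^ 2 + p2 x y ^ 2 ≤ Γ ^ 2)
    (hI : Ins X0 X1 Y0 Y1 x1 y1 S) (hs1 : 0 < s1) (hs1S : s1 ≤ S)
    (hqh : ∀ x y, |qq x y| ≤ qh) (hqs : qh * s1 ^ 2 ≤ 1) (hΓs : Γ * s1 ≤ 1)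
    (hε0 : 0 < ε) (hε : ∀ x y, |x - x1| ≤ 2 * s1 → |y - y1| ≤ 2 * s1 → |u x y| ≤ ε)
    {n1 n2 n3 n4 : ℕ} {Z1 Z2 Z3 Z4 : Finset ℝ}
    (hZ1 : ∀ t ∈ Ioo Y0 Y1, u X0 t = 0 → t ∈ Z1) (hn1 : Z1.card ≤ n1)
    (hZ2 : ∀ t ∈ Ioo Y0 Y1, u X1 t = 0 → t ∈ Z2) (hn2 : Z2.card ≤ n2)
    (hZ3 : ∀ t ∈ Ioo X0 X1, u t Y0 = 0 → t ∈ Z3) (hn3 : Z3.card ≤ n3)
    (hZ4 : ∀ t ∈ Ioo X0 X1, u t Y1 = 0 → t ∈ Z4) (hn4 : Z4.card ≤ n4)
    {x0 y0 : ℝ} (hx0 : |x0 - x1| ≤ S / 4) (hy0 : |y0 - y1| ≤ S / 4) :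
    |u x0 y0| ≤ 2 * Real.exp (64 * (Real.log 13 + (Real.pi * (n1 + n2 + n3 + n4 + 4) + 5) *
      Real.log (S / s1) + 4 * Γ * S) + 4 * Γ * S + 1) * ε := by
  have hS : 0 < S := hs1.trans_le hs1S
  obtain ⟨i1, i2, i3, i4⟩ := hI
  have hI1 : Ins X0 X1 Y0 Y1 x1 y1 S := ⟨i1, i2, i3, i4⟩
  have hX : X0 ≤ X1 := by linarith
  have hY : Y0 ≤ Y1 := by linarith
  have hev := flux_ev hu hp eu ep hX hY (fun x hx y hy => (hp1 x hx y hy).1) hε0 x1 y1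
    hZ1 hn1 hZ2 hn2 hZ3 hn3 hZ4 hn4
  have l1 : Tendsto (fun dl : ℝ => dl ^ 2 * Γ ^ 2 / ε ^ 2 * ((X1 - X0) * (Y1 - Y0))) (𝓝[>] 0)
      (𝓝 0) := by
    have : Tendsto (fun dl : ℝ => dl ^ 2 * Γ ^ 2 / ε ^ 2 * ((X1 - X0) * (Y1 - Y0))) (𝓝 0)
        (𝓝 (0 ^ 2 * Γ ^ 2 / ε ^ 2 * ((X1 - X0) * (Y1 - Y0)))) := by
      refine ContinuousAt.tendsto ?_
      fun_prop
    simpa using this.mono_left nhdsWithin_le_nhds
  have l2 : Tendsto (fun dl : ℝ => 4 * (dl ^ 2 * Γ ^ 2 / ε ^ 2) * S * S) (𝓝[>] 0)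
      (𝓝 0) := by
    have : Tendsto (fun dl : ℝ => 4 * (dl ^ 2 * Γ ^ 2 / ε ^ 2) * S * S) (𝓝 0)
        (𝓝 (4 * (0 ^ 2 * Γ ^ 2 / ε ^ 2) * S * S)) := by
      refine ContinuousAt.tendsto ?_
      fun_prop
    simpa using this.mono_left nhdsWithin_le_nhds
  have l3 : ∀ᶠ dl in 𝓝[>] (0 : ℝ), dl < ε / 2 :=
    mem_nhdsWithin_of_mem_nhds (gt_mem_nhds (by positivity))
  obtain ⟨dl, ⟨hfl, m1, m2, m3⟩, hdl⟩ := (((hev.and ((l1.eventually (gt_mem_nhds one_pos)).and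
    ((l2.eventually (gt_mem_nhds one_pos)).and l3)))).and self_mem_nhdsWithin).exists
  have hdl0 : 0 < dl := hdl
  obtain ⟨b1, b2, c1, c2, hD⟩ := dat_of hu hp eu ep hX hY hp1 hΓ0 hΓ hdl0 hε0 x1 y1
  have P0 : ∀ x y, 0 < max (p x y) (1 / 2) := fun x y => lt_of_lt_of_le (by norm_num) (le_max_right _ _)
  have hα : ∀ x ∈ Icc X0 X1, ∀ y ∈ Icc Y0 Y1, Real.log ε ≤ fa dl ε x1 y1 u u1 u2 p p1 p2 x y := by
    intro x _ y _
    unfold fa aa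
    rw [le_div_iff₀ two_pos, mul_comm, ← Real.log_rpow hε0]
    have h1 := DD_ge (dl := dl) (u := u x y) hε0 (P0 x y)
      (QQ (GG1 u u1 p p1) (GG1 u u2 p p2) x1 y1 x y)
    refine Real.log_le_log (by positivity) ?_
    rw [Real.rpow_two]
    nlinarith [sq_nonneg (QQ (GG1 u u1 p p1) (GG1 u u2 p p2) x1 y1 x y)]
  have hβ : ∀ x y, |x - x1| ≤ s1 → |y - y1| ≤ s1 →
      fa dl ε x1 y1 u u1 u2 p p1 p2 x y ≤ Real.log (13 * ε) := by
    intro x y hx hy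
    have hxI : x ∈ Icc X0 X1 := by
      have := abs_le.1 hx
      exact ⟨by linarith, by linarith⟩
    have hyI : y ∈ Icc Y0 Y1 := by
      have := abs_le.1 hy
      exact ⟨by linarith, by linarith⟩
    have hmem : ∀ a b, |a - x1| ≤ s1 → |b - y1| ≤ s1 → a ∈ Icc X0 X1 ∧ b ∈ Icc Y0 Y1 := by
      intro a b ha hb
      have k1 := abs_le.1 ha
      have k2 := abs_le.1 hb
      exact ⟨⟨by linarith, by linarith⟩, by linarith, by linarith⟩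
    have hQ := Q_small (p := p) (p1 := p1) (p2 := p2) hu eu hs1 hqh hqs hΓs hΓ0 hε0.le hε
      (fun a b ha hb => by
        have k := hp1 a (hmem a b ha hb).1 b (hmem a b ha hb).2
        exact ⟨by linarith, k.2⟩)
      (fun a b ha hb => hΓ a (hmem a b ha hb).1 b (hmem a b ha hb).2) hx hy
    have hpx := hp1 x hxI y hyI
    have hux : |u x y| ≤ ε := hε x y (by linarith) (by linarith)
    unfold fa aa
    rw [max_eq_left hpx.1.le]
    set Qv := QQ (GG1 u u1 p p1) (GG1 u u2 p p2) x1 y1 x y with hQv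
    have hT : TT dl (u x y) (p x y) ≤ 2 * ε := by
      unfold TT
      rw [Real.sqrt_le_left (by positivity)]
      have k1 : u x y ^ 2 ≤ ε ^ 2 := by
        have := abs_le.1 hux
        nlinarith
      have k2 : dl * p x y ≤ ε := by nlinarith
      have k3 : (dl * p x y) ^ 2 ≤ ε ^ 2 := pow_le_pow_left₀ (by nlinarith) k2 2
      nlinarith
    have hP : PP dl ε (u x y) (p x y) ≤ 5 * ε := by
      unfold PP
      have k1 := TT_nonneg dl (u x y) (p x y)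
      nlinarith
    have hP0 : 0 ≤ PP dl ε (u x y) (p x y) := by
      have := PP_ge (dl := dl) (c := ε) (u := u x y) (p := p x y) (by linarith)
      linarith
    have hDle : DD dl ε (u x y) (p x y) Qv ≤ (13 * ε) ^ 2 := by
      unfold DD
      have k1 := pow_le_pow_left₀ hP0 hP 2
      have k2 : Qv ^ 2 ≤ (12 * ε) ^ 2 := by
        have := abs_le.1 hQ
        exact sq_le_sq' this.1 this.2
      nlinarith
    have hDpos := DD_pos (c := ε) hdl0 hε0 (by linarith : 0 < p x y) (u x y) Qv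
    have k1 := Real.log_le_log hDpos hDle
    rw [Real.log_pow] at k1
    push_cast at k1
    linarith
  have hmain := hD.main hI1 hs1 hs1S hx0 hy0 hα hβ
  -- conclusion
  rcases (abs_nonneg (u x0 y0)).eq_or_lt with h0 | h0
  · rw [← h0]
    positivity
  have hlogm : 0 ≤ Real.log (S / s1) := Real.log_nonneg (by rwa [one_le_div hs1])
  have hlow : Real.log (|u x0 y0| / 2) ≤ fa dl ε x1 y1 u u1 u2 p p1 p2 x0 y0 := by
    unfold fa aa
    rw [le_div_iff₀ two_pos, mul_comm, ← Real.log_rpow (by positivity)]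
    refine Real.log_le_log (by positivity) ?_
    rw [Real.rpow_two]
    set Pv := max (p x0 y0) (1 / 2) with hPv
    have k0 : (1 : ℝ) / 2 ≤ Pv := le_max_right _ _
    have k1 := abs_le_TT (dl := dl) (u x0 y0) Pv
    have k2 : |u x0 y0| / 2 ≤ PP dl ε (u x0 y0) Pv := by
      unfold PP
      have k3 := TT_nonneg dl (u x0 y0) Pv
      nlinarith
    unfold DD
    have k3 := pow_le_pow_left₀ (by positivity) k2 2
    nlinarith [sq_nonneg (QQ (GG1 u u1 p p1) (GG1 u u2 p p2) x1 y1 x0 y0)]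
  have e13 : Real.log (13 * ε) - Real.log ε = Real.log 13 := by
    rw [Real.log_mul (by norm_num) hε0.ne']
    ring
  rw [e13] at hmain
  set K := 64 * (Real.log 13 + (Real.pi * (n1 + n2 + n3 + n4 + 4) + 5) *
      Real.log (S / s1) + 4 * Γ * S) + 4 * Γ * S + 1 with hK
  have hfin : Real.log (|u x0 y0| / 2) ≤ Real.log ε + K := by
    have k1 : (flux (fV1 dl ε x1 y1 u u1 u2 p p1 p2) (fV2 dl ε x1 y1 u u1 u2 p p1 p2) X0 X1 Y0 Y1 +
        dl ^ 2 * Γ ^ 2 / ε ^ 2 * ((X1 - X0) * (Y1 - Y0))) * Real.log (S / s1) ≤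
        (Real.pi * (n1 + n2 + n3 + n4 + 4) + 5) * Real.log (S / s1) :=
      mul_le_mul_of_nonneg_right (by linarith) hlogm
    have k2 : (4 * Γ + 4 * (dl ^ 2 * Γ ^ 2 / ε ^ 2) * S) * S ≤ 4 * Γ * S + 1 := by
      nlinarith
    rw [hK]
    linarith
  have h5 := Real.exp_le_exp.2 hfin
  rw [Real.exp_log (by positivity), Real.exp_add, Real.exp_log hε0] at h5
  linarith

end Pool.Agent.Sub70.LT
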