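import Pool.Agent.Sub70.LT.Tot

/-!
# The average of the doubling indices on a Liouville torus
-/

set_option autoImplicit false

namespace Pool.Agent.Sub70.LT

open Set MeasureTheory Function Pool.Agent.R220.LV Pool.Agent.Y291.DB

variable {f g : ℝ → ℝ} {L lam K0 : ℝ} {φ : ℝ × ℝ → ℝ} {hx hy τ τ' : ℝ} {n1 n2 : ℕ} {d : ℝ}

theorem floor_near {x y : ℝ} {n : ℕ} (h : |x - y| ≤ n) : |⌊x⌋ - ⌊y⌋| ≤ (n : ℤ) := by
  have h1 := abs_le.1 h
  have h2 : ⌊x⌋ ≤ ⌊y⌋ + n := by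
    rw [← Int.floor_add_natCast]
    exact Int.floor_le_floor (by linarith)
  have h3 : ⌊y⌋ ≤ ⌊x⌋ + n := by
    rw [← Int.floor_add_natCast]
    exact Int.floor_le_floor (by linarith)
  exact abs_le.2 ⟨by linarith, by linarith⟩

/-- The doubling index at a point. -/
theorem dbl_grid (hf : Continuous f) (hg : Continuous g) (hL : 0 < L) (hK0 : 0 < K0)
    (hfK : ∀ t, |f t| ≤ K0) (hgK : ∀ t, |g t| ≤ K0) {ρm ρM C b R a0 : ℝ} (hρ0 : 0 < ρm)
    (hρm : ∀ p : ℝ × ℝ, ρm ≤ f p.1 + g p.2) (hρM : ∀ p : ℝ × ℝ, f p.1 + g p.2 ≤ ρM)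
    (hC : 0 < C) (hb : 0 < b) (hbC : 2 * b * Real.sqrt ρM < C) (hR : 2 * C / Real.sqrt ρm ≤ R)
    (ha0 : 0 < a0) (hab : a0 ≤ b) {N : ℕ} (hN : R ≤ (N + 1) * a0)
    (haK : K0 * (33 * a0) ^ 2 ≤ 1 / 16)
    (h : Eigen (fun p => f p.1 + g p.2) L 0 lam φ)
    (hG : Grid φ L n1 n2 (a0 * (1 / Real.sqrt lam)) hx hy τ τ') (p : ℝ × ℝ) :
    doubling (fun p => f p.1 + g p.2) L 0 φ p (C / Real.sqrt lam) ≤
      (N + 1) * CC (Real.log 16) / Real.log 2 *
        (MM φ hx hy τ τ' (2 * N) ⌊(p.1 - τ) / hx⌋ ⌊(p.2 - τ') / hy⌋ + 1) := by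
  have hlam := h.pos
  have hsl : 0 < Real.sqrt lam := Real.sqrt_pos.2 hlam
  set δ := 1 / Real.sqrt lam with hδ
  have hδ0 : 0 < δ := by positivity
  set d := a0 * δ with hd
  have hd0 : 0 < d := by positivity
  have hx0 : 0 < hx := lt_of_lt_of_le (by positivity) hG.x1
  have hy0 : 0 < hy := lt_of_lt_of_le (by positivity) hG.y1
  have hx1 := hG.x1
  have hy1 := hG.y1
  have hd1 : lam * K0 * (33 * d) ^ 2 ≤ 1 / 16 := by
    have e : lam * K0 * (33 * d) ^ 2 = K0 * (33 * a0) ^ 2 := by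
      have e1 : δ ^ 2 * lam = 1 := by
        rw [hδ, div_pow, one_pow, Real.sq_sqrt hlam.le]
        field_simp
      calc lam * K0 * (33 * d) ^ 2 = K0 * (33 * a0) ^ 2 * (δ ^ 2 * lam) := by rw [hd]; ring
        _ = _ := by rw [e1, mul_one]
    rw [e]
    exact haK
  set M := MM φ hx hy τ τ' (2 * N) ⌊(p.1 - τ) / hx⌋ ⌊(p.2 - τ') / hy⌋ with hM
  have hM0 : 0 ≤ M := MM_nonneg _ _ _
  have hCC : 0 ≤ CC (Real.log 16) := CC_nonneg (Real.log_nonneg (by norm_num))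
  set Λ := Real.exp (CC (Real.log 16) * (M + 1)) with hΛ
  have hΛ1 : 1 ≤ Λ := Real.one_le_exp (by positivity)
  have hstep : ∀ z : ℝ × ℝ, |z.1 - p.1| ≤ N * d → |z.2 - p.2| ≤ N * d → ∀ ε : ℝ, 0 ≤ ε →
      (∀ x y, |x - z.1| ≤ 2 * (d / 2) → |y - z.2| ≤ 2 * (d / 2) → |φ (x, y)| ≤ ε) →
      ∀ x y, |x - z.1| ≤ 2 * d → |y - z.2| ≤ 2 * d → |φ (x, y)| ≤ Λ * ε := by
    intro z hz1 hz2 ε hε0 hε x y hxz hyz
    have a1 := Int.floor_le ((z.1 - τ) / hx)
    have a2 := (Int.lt_floor_add_one ((z.1 - τ) / hx)).le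
    have a3 := Int.floor_le ((z.2 - τ') / hy)
    have a4 := (Int.lt_floor_add_one ((z.2 - τ') / hy)).le
    rw [le_div_iff₀ hx0] at a1
    rw [div_le_iff₀ hx0] at a2
    rw [le_div_iff₀ hy0] at a3
    rw [div_le_iff₀ hy0] at a4
    have h1 := cell_step hf hg hL hK0 hfK hgK h hG hd1 (z := z) (i := ⌊(z.1 - τ) / hx⌋)
      (j := ⌊(z.2 - τ') / hy⌋) (by linarith) (by linarith) (by linarith) (by linarith) hε0 hε x y
      hxz hyz
    refine h1.trans (mul_le_mul_of_nonneg_right ?_ hε0)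
    rw [hΛ, Real.exp_le_exp]
    refine mul_le_mul_of_nonneg_left ?_ hCC
    have k1 : |⌊(z.1 - τ) / hx⌋ - ⌊(p.1 - τ) / hx⌋| ≤ ((2 * N : ℕ) : ℤ) := by
      refine floor_near ?_
      have e1 : (z.1 - τ) / hx - (p.1 - τ) / hx = (z.1 - p.1) / hx := by ring
      rw [e1, abs_div, abs_of_pos hx0, div_le_iff₀ hx0]
      refine hz1.trans ?_
      push_cast
      have : (N : ℝ) * d ≤ N * (2 * hx) := mul_le_mul_of_nonneg_left (by linarith) (Nat.cast_nonneg _)
      linarith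
    have k2 : |⌊(z.2 - τ') / hy⌋ - ⌊(p.2 - τ') / hy⌋| ≤ ((2 * N : ℕ) : ℤ) := by
      refine floor_near ?_
      have e1 : (z.2 - τ') / hy - (p.2 - τ') / hy = (z.2 - p.2) / hy := by ring
      rw [e1, abs_div, abs_of_pos hy0, div_le_iff₀ hy0]
      refine hz2.trans ?_
      push_cast
      have : (N : ℝ) * d ≤ N * (2 * hy) := mul_le_mul_of_nonneg_left (by linarith) (Nat.cast_nonneg _)
      linarith
    have := mm_le_MM (φ := φ) (hx := hx) (hy := hy) (τ := τ) (τ' := τ') k1 k2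
    linarith
  have hρc : Continuous fun p : ℝ × ℝ => f p.1 + g p.2 :=
    (hf.comp continuous_fst).add (hg.comp continuous_snd)
  have hdbl := dbl (ρ := fun p : ℝ × ℝ => f p.1 + g p.2) (L := L) (α := 0) (lam := lam) (b := b)
    (R := R) (Λ := Λ ^ (N + 1)) (φ := φ) hL hρc hρ0 hρm hρM hlam h.smooth.continuous h.perx h.pery
    hC hb hbC hR (one_le_pow₀ hΛ1) p (fun ε hε0 hsmall s t hs ht => by
      refine chain (p := p) (d := d) (s1 := d / 2) hd0 (by positivity) (by linarith) hΛ1 hε0 N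
        hstep (fun x y hx hy => ?_) N le_rfl _ _ ?_ ?_
      · have e1 : p.1 + (x - p.1) / δ * δ = x := by
          rw [div_mul_cancel₀ _ hδ0.ne']
          ring
        have e2 : p.2 + (y - p.2) / δ * δ = y := by
          rw [div_mul_cancel₀ _ hδ0.ne']
          ring
        have h1 := hsmall ((x - p.1) / δ) ((y - p.2) / δ) (by
          rw [abs_div, abs_of_pos hδ0, div_le_iff₀ hδ0]
          have : a0 * δ ≤ b * δ := mul_le_mul_of_nonneg_right hab hδ0.le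
          linarith) (by
          rw [abs_div, abs_of_pos hδ0, div_le_iff₀ hδ0]
          have : a0 * δ ≤ b * δ := mul_le_mul_of_nonneg_right hab hδ0.le
          linarith)
        rw [e1, e2] at h1
        exact h1
      · rw [add_sub_cancel_left, abs_mul, abs_of_pos hδ0]
        calc |s| * δ ≤ (N + 1) * a0 * δ := mul_le_mul_of_nonneg_right (hs.trans hN) hδ0.le
          _ = (N + 1) * d := by rw [hd]; ring
      · rw [add_sub_cancel_left, abs_mul, abs_of_pos hδ0]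
        calc |t| * δ ≤ (N + 1) * a0 * δ := mul_le_mul_of_nonneg_right (ht.trans hN) hδ0.le
          _ = (N + 1) * d := by rw [hd]; ring)
  refine hdbl.trans (le_of_eq ?_)
  unfold Real.logb
  rw [Real.log_pow, hΛ, Real.log_exp]
  push_cast
  ring

/-- The trivial case of large discs. -/
theorem dbl_triv (hf : Continuous f) (hg : Continuous g) (hL : 0 < L) {ρm ρM C b : ℝ}
    (hρ0 : 0 < ρm) (hρm : ∀ p : ℝ × ℝ, ρm ≤ f p.1 + g p.2)
    (hρM : ∀ p : ℝ × ℝ, f p.1 + g p.2 ≤ ρM) (hC : 0 < C) (hb : 0 < b)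
    (hbC : 2 * b * Real.sqrt ρM < C) (h : Eigen (fun p => f p.1 + g p.2) L 0 lam φ)
    (h1 : L ≤ b * (1 / Real.sqrt lam)) (h2 : 2 * Real.pi ≤ b * (1 / Real.sqrt lam)) (p : ℝ × ℝ) :
    doubling (fun p => f p.1 + g p.2) L 0 φ p (C / Real.sqrt lam) ≤ 0 := by
  have hlam := h.pos
  have hsl : 0 < Real.sqrt lam := Real.sqrt_pos.2 hlam
  have hδ0 : 0 < 1 / Real.sqrt lam := by positivity
  have hρc : Continuous fun p : ℝ × ℝ => f p.1 + g p.2 :=
    (hf.comp continuous_fst).add (hg.comp continuous_snd)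
  have hdbl := dbl (ρ := fun p : ℝ × ℝ => f p.1 + g p.2) (L := L) (α := 0) (lam := lam) (b := b)
    (R := 2 * C / Real.sqrt ρm) (Λ := 1) (φ := φ) hL hρc hρ0 hρm hρM hlam h.smooth.continuous
    h.perx h.pery hC hb hbC le_rfl le_rfl p (fun ε hε0 hsmall s t hs ht => by
      rw [one_mul]
      set q : ℝ × ℝ := (p.1 + s * (1 / Real.sqrt lam), p.2 + t * (1 / Real.sqrt lam)) with hq
      obtain ⟨m, n, h3, h4⟩ := reduce hL 0 p.1 p.2 q
      rw [← per_all (L := L) (α := 0) (f := φ) h.perx h.pery m n q]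
      have e1 : p.1 + (q.1 + m * L - p.1) / (1 / Real.sqrt lam) * (1 / Real.sqrt lam) =
          q.1 + m * L := by
        rw [div_mul_cancel₀ _ hδ0.ne']
        ring
      have e2 : p.2 + (q.2 + m * 0 + n * (2 * Real.pi) - p.2) / (1 / Real.sqrt lam) *
          (1 / Real.sqrt lam) = q.2 + m * 0 + n * (2 * Real.pi) := by
        rw [div_mul_cancel₀ _ hδ0.ne']
        ring
      have h5 := hsmall ((q.1 + m * L - p.1) / (1 / Real.sqrt lam))
        ((q.2 + m * 0 + n * (2 * Real.pi) - p.2) / (1 / Real.sqrt lam)) (by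
          rw [abs_div, abs_of_pos hδ0, div_le_iff₀ hδ0, abs_le]
          exact ⟨by linarith [h3.1], by linarith [h3.2]⟩) (by
          rw [abs_div, abs_of_pos hδ0, div_le_iff₀ hδ0, abs_le]
          exact ⟨by linarith [h4.1], by linarith [h4.2]⟩)
      rw [e1, e2] at h5
      exact h5)
  rwa [Real.logb_one] at hdbl

end Pool.Agent.Sub70.LT
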