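import Pool.Agent.Sub70.LT.Local
import Pool.Agent.Sub70.LT.Sturm
import Pool.Agent.R220.LV.Main

/-!
# Positive separated solutions and the local estimate for eigenfunctions
-/

set_option autoImplicit false

namespace Pool.Agent.Sub70.LT

open Set MeasureTheory Filter Topology Function

/-- The solution equal to one at the center. -/
theorem near_one {f : ℝ → ℝ} (hf : Continuous f) {lam κ H : ℝ} (hκ : ∀ t, |lam * f t| ≤ κ)
    (hH : 0 < H) (hκH : κ * H ^ 2 ≤ 1 / 16) (a : ℝ) : ∃ v v' : ℝ → ℝ,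
    (∀ t, HasDerivAt v (v' t) t) ∧ (∀ t, HasDerivAt v' (-(lam * f t) * v t) t) ∧
    ∀ t, |t - a| ≤ H → |v t - 1| ≤ 1 / 15 ∧ |v' t| ≤ 1 / 15 / H := by
  have hκ0 : 0 ≤ κ := (abs_nonneg _).trans (hκ 0)
  obtain ⟨v, v', h0, h1, hv, hv'⟩ := ode2 (q := fun t => -(lam * f t)) (by fun_prop) a 1 0
  refine ⟨v, v', hv, hv', ?_⟩
  have cv : Continuous v := continuous_iff_continuousAt.2 fun t => (hv t).continuousAt
  set s := Icc (a - H) (a + H) with hs
  have ha : a ∈ s := ⟨by linarith, by linarith⟩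
  obtain ⟨x, hx, hmax⟩ := (isCompact_Icc (a := a - H) (b := a + H)).exists_isMaxOn ⟨a, ha⟩
    cv.abs.continuousOn
  set M := |v x| with hM
  have hM' : ∀ t ∈ s, |v t| ≤ M := fun t ht => hmax ht
  have hM0 : 0 ≤ M := abs_nonneg _
  have hdist : ∀ t ∈ s, |t - a| ≤ H := fun t ht => abs_le.2 ⟨by linarith [ht.1], by linarith [ht.2]⟩
  have e1 : ∀ t ∈ s, |v' t| ≤ κ * M * H := by
    intro t ht
    have h2 := (convex_Icc (a - H) (a + H)).norm_image_sub_le_of_norm_hasDerivWithin_le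
      (f := v') (f' := fun t => -(lam * f t) * v t) (C := κ * M)
      (fun r _ => (hv' r).hasDerivWithinAt) (fun r hr => by
        rw [norm_mul, norm_neg]
        exact mul_le_mul (hκ r) (hM' r hr) (norm_nonneg _) hκ0) ha ht
    rw [h1, sub_zero, Real.norm_eq_abs, Real.norm_eq_abs] at h2
    refine h2.trans ?_
    exact mul_le_mul_of_nonneg_left (hdist t ht) (by positivity)
  have e2 : ∀ t ∈ s, |v t - 1| ≤ κ * M * H * H := by
    intro t ht
    have h2 := (convex_Icc (a - H) (a + H)).norm_image_sub_le_of_norm_hasDerivWithin_le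
      (f := v) (f' := v') (C := κ * M * H)
      (fun r _ => (hv r).hasDerivWithinAt) (fun r hr => e1 r hr) ha ht
    rw [h0, Real.norm_eq_abs, Real.norm_eq_abs] at h2
    refine h2.trans ?_
    exact mul_le_mul_of_nonneg_left (hdist t ht) (by positivity)
  have e3 : M ≤ 16 / 15 := by
    have h3 := e2 x hx
    have h4 : M ≤ |v x - 1| + 1 := by
      have := abs_add_le (v x - 1) 1
      rw [sub_add_cancel, abs_one] at this
      exact this
    have h5 : κ * M * H * H = M * (κ * H ^ 2) := by ring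
    have h6 := mul_le_mul_of_nonneg_left hκH hM0
    linarith
  intro t ht
  have hts : t ∈ s := by
    have := abs_le.1 ht
    exact ⟨by linarith, by linarith⟩
  constructor
  · refine (e2 t hts).trans ?_
    have h5 : κ * M * H * H = M * (κ * H ^ 2) := by ring
    have h6 := mul_le_mul e3 hκH (by positivity) (by norm_num)
    linarith
  · refine (e1 t hts).trans ?_
    rw [le_div_iff₀ hH]
    have h5 : κ * M * H * H = M * (κ * H ^ 2) := by ring
    have h6 := mul_le_mul e3 hκH (by positivity) (by norm_num)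
    linarith

/-- The positive solution. -/
theorem prod_sol {f g : ℝ → ℝ} (hf : Continuous f) (hg : Continuous g) {lam κ H : ℝ}
    (h1 : ∀ t, |lam * f t| ≤ κ) (h2 : ∀ t, |lam * g t| ≤ κ) (hH : 0 < H)
    (hκH : κ * H ^ 2 ≤ 1 / 16) (x1 y1 : ℝ) : ∃ p p1 p2 p11 p12 p22 : ℝ → ℝ → ℝ,
    D2 p p1 p2 p11 p12 p22 ∧
    (∀ x y, p11 x y + p22 x y = -(lam * (f x + g y) * p x y)) ∧
    ∀ x y, |x - x1| ≤ H → |y - y1| ≤ H → (1 / 2 < p x y ∧ p x y ≤ 2) ∧
      p1 x y ^ 2 + p2 x y ^ 2 ≤ (1 / H) ^ 2 := by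
  obtain ⟨A, A', dA, dA', bA⟩ := near_one hf h1 hH hκH x1
  obtain ⟨B, B', dB, dB', bB⟩ := near_one hg h2 hH hκH y1
  have cA : Continuous A := continuous_iff_continuousAt.2 fun t => (dA t).continuousAt
  have cA' : Continuous A' := continuous_iff_continuousAt.2 fun t => (dA' t).continuousAt
  have cB : Continuous B := continuous_iff_continuousAt.2 fun t => (dB t).continuousAt
  have cB' : Continuous B' := continuous_iff_continuousAt.2 fun t => (dB' t).continuousAt
  have key : ∀ {α β : ℝ → ℝ}, Continuous α → Continuous β →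
      Continuous (uncurry fun x y => α x * β y) := fun hα hβ =>
    (hα.comp continuous_fst).mul (hβ.comp continuous_snd)
  refine ⟨fun x y => A x * B y, fun x y => A' x * B y, fun x y => A x * B' y,
    fun x y => -(lam * f x) * A x * B y, fun x y => A' x * B' y,
    fun x y => A x * (-(lam * g y) * B y), ⟨key cA cB, key cA' cB, key cA cB', ?_, key cA' cB', ?_,
      ?_, ?_, ?_, ?_, ?_, ?_⟩, ?_, ?_⟩
  · exact key (by fun_prop) cB
  · exact key cA (by fun_prop)
  · exact fun x y => (dA x).mul_const _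
  · exact fun x y => (dB y).const_mul _
  · exact fun x y => (dA' x).mul_const _
  · exact fun x y => (dB y).const_mul _
  · exact fun x y => (dA x).mul_const _
  · exact fun x y => (dB' y).const_mul _
  · intro x y
    ring
  · intro x y hx hy
    obtain ⟨a1, a2⟩ := bA x hx
    obtain ⟨b1, b2⟩ := bB y hy
    have a3 := abs_le.1 a1
    have b3 := abs_le.1 b1
    have hAl : 14 / 15 ≤ A x := by linarith
    have hAu : A x ≤ 16 / 15 := by linarith
    have hBl : 14 / 15 ≤ B y := by linarith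
    have hBu : B y ≤ 16 / 15 := by linarith
    refine ⟨⟨?_, ?_⟩, ?_⟩
    · nlinarith
    · nlinarith
    · have e1 : (A' x) ^ 2 ≤ (1 / 15 / H) ^ 2 := by
        rw [← sq_abs (A' x)]
        exact pow_le_pow_left₀ (abs_nonneg _) a2 2
      have e2 : (B' y) ^ 2 ≤ (1 / 15 / H) ^ 2 := by
        rw [← sq_abs (B' y)]
        exact pow_le_pow_left₀ (abs_nonneg _) b2 2
      have e3 : A x ^ 2 ≤ (16 / 15) ^ 2 := pow_le_pow_left₀ (by linarith) hAu 2
      have e4 : B y ^ 2 ≤ (16 / 15) ^ 2 := pow_le_pow_left₀ (by linarith) hBu 2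
      have e5 := mul_le_mul e1 e4 (sq_nonneg _) (sq_nonneg _)
      have e6 := mul_le_mul e3 e2 (sq_nonneg _) (sq_nonneg _)
      have e7 : (1 / 15 / H) ^ 2 * (16 / 15) ^ 2 = (1 / H) ^ 2 * (256 / 50625) := by
        field_simp
        norm_num
      have e8 : (16 / 15) ^ 2 * (1 / 15 / H) ^ 2 = (1 / H) ^ 2 * (256 / 50625) := by
        rw [mul_comm, e7]
      have e9 : 0 ≤ (1 / H) ^ 2 := sq_nonneg _
      rw [mul_pow, mul_pow]
      rw [e7] at e5
      rw [e8] at e6
      linarith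

/-- The partial derivatives of a function of class `C²`. -/
theorem D2_of {φ : ℝ × ℝ → ℝ} (h : ContDiff ℝ 2 φ) : ∃ u1 u2 u11 u12 u22 : ℝ → ℝ → ℝ,
    D2 (fun x y => φ (x, y)) u1 u2 u11 u12 u22 := by
  have h1 : ContDiff ℝ 1 (fderiv ℝ φ) := h.fderiv_right (by norm_num)
  have h0 : ContDiff ℝ 0 (fderiv ℝ (fderiv ℝ φ)) := h1.fderiv_right (by norm_num)
  have d0 : ∀ z, HasFDerivAt φ (fderiv ℝ φ z) z := fun z =>
    ((h.differentiable (by norm_num)) z).hasFDerivAt
  have d1 : ∀ z, HasFDerivAt (fderiv ℝ φ) (fderiv ℝ (fderiv ℝ φ) z) z := fun z =>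
    ((h1.differentiable (by norm_num)) z).hasFDerivAt
  have lx : ∀ x y : ℝ, HasDerivAt (fun t : ℝ => ((t, y) : ℝ × ℝ)) (1, 0) x := fun x y =>
    (hasDerivAt_id x).prodMk (hasDerivAt_const x y)
  have ly : ∀ x y : ℝ, HasDerivAt (fun t : ℝ => ((x, t) : ℝ × ℝ)) (0, 1) y := fun x y =>
    (hasDerivAt_const y x).prodMk (hasDerivAt_id y)
  have sy : ∀ z (v w : ℝ × ℝ), fderiv ℝ (fderiv ℝ φ) z v w = fderiv ℝ (fderiv ℝ φ) z w v := by
    intro z v w
    exact (h.contDiffAt (x := z)).isSymmSndFDerivAt (by simp) v w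
  have ev : ∀ (w : ℝ × ℝ) z, HasFDerivAt (fun z => fderiv ℝ φ z w)
      ((ContinuousLinearMap.apply ℝ ℝ w).comp (fderiv ℝ (fderiv ℝ φ) z)) z := fun w z =>
    (ContinuousLinearMap.apply ℝ ℝ w).hasFDerivAt.comp z (d1 z)
  have c1 : ∀ w : ℝ × ℝ, Continuous fun z => fderiv ℝ φ z w := fun w =>
    (ContinuousLinearMap.apply ℝ ℝ w).continuous.comp h1.continuous
  have c2 : ∀ v w : ℝ × ℝ, Continuous fun z => fderiv ℝ (fderiv ℝ φ) z v w := fun v w =>
    (ContinuousLinearMap.apply ℝ ℝ w).continuous.comp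
      ((ContinuousLinearMap.apply ℝ (ℝ × ℝ →L[ℝ] ℝ) v).continuous.comp h0.continuous)
  refine ⟨fun x y => fderiv ℝ φ (x, y) (1, 0), fun x y => fderiv ℝ φ (x, y) (0, 1),
    fun x y => fderiv ℝ (fderiv ℝ φ) (x, y) (1, 0) (1, 0),
    fun x y => fderiv ℝ (fderiv ℝ φ) (x, y) (1, 0) (0, 1),
    fun x y => fderiv ℝ (fderiv ℝ φ) (x, y) (0, 1) (0, 1),
    ⟨h.continuous, c1 _, c1 _, c2 _ _, c2 _ _, c2 _ _, fun x y => ?_, fun x y => ?_,
      fun x y => ?_, fun x y => ?_, fun x y => ?_, fun x y => ?_⟩⟩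
  · exact (d0 (x, y)).comp_hasDerivAt x (lx x y)
  · exact (d0 (x, y)).comp_hasDerivAt y (ly x y)
  · exact (ev (1, 0) (x, y)).comp_hasDerivAt x (lx x y)
  · have := (ev (1, 0) (x, y)).comp_hasDerivAt y (ly x y)
    refine this.congr_deriv ?_
    exact sy (x, y) (0, 1) (1, 0)
  · exact (ev (0, 1) (x, y)).comp_hasDerivAt x (lx x y)
  · exact (ev (0, 1) (x, y)).comp_hasDerivAt y (ly x y)

end Pool.Agent.Sub70.LT
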