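import Pool.Agent.Sub70.LT.Kern3
import Pool.Agent.Sub70.LT.Alg

/-!
# The data attached to two solutions of the same equation
-/

set_option autoImplicit false

namespace Pool.Agent.Sub70.LT

open Set MeasureTheory Function

section cont

variable {X : Type} [TopologicalSpace X] {dl c : ℝ} {u p q u' p' q' : X → ℝ}

theorem TT_c (hu : Continuous u) (hp : Continuous p) : Continuous fun z => TT dl (u z) (p z) := by
  unfold TT
  fun_prop

theorem PP_c (hu : Continuous u) (hp : Continuous p) : Continuous fun z => PP dl c (u z) (p z) := by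
  have := TT_c (dl := dl) hu hp
  unfold PP
  fun_prop

theorem DD_c (hu : Continuous u) (hp : Continuous p) (hq : Continuous q) :
    Continuous fun z => DD dl c (u z) (p z) (q z) := by
  have := PP_c (dl := dl) (c := c) hu hp
  unfold DD
  fun_prop

theorem al_c (hdl : 0 < dl) (hc : 0 < c) (hu : Continuous u) (hp : Continuous p)
    (hq : Continuous q) (h0 : ∀ z, 0 < p z) : Continuous fun z => al dl c (u z) (p z) (q z) := by
  have h1 := TT_c (dl := dl) hu hp
  have h2 := PP_c (dl := dl) (c := c) hu hp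
  have h3 := DD_c (dl := dl) (c := c) hu hp hq
  unfold al
  exact (h2.mul hu).div (h1.mul h3) fun z =>
    (mul_pos (TT_pos hdl (h0 z) _) (DD_pos hdl hc (h0 z) _ _)).ne'

theorem be_c (hdl : 0 < dl) (hc : 0 < c) (hu : Continuous u) (hp : Continuous p)
    (hq : Continuous q) (h0 : ∀ z, 0 < p z) : Continuous fun z => be dl c (u z) (p z) (q z) := by
  have h3 := DD_c (dl := dl) (c := c) hu hp hq
  unfold be
  exact hq.div h3 fun z => (DD_pos hdl hc (h0 z) _ _).ne'

theorem aa_c (hdl : 0 < dl) (hc : 0 < c) (hu : Continuous u) (hp : Continuous p)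
    (hq : Continuous q) (h0 : ∀ z, 0 < p z) : Continuous fun z => aa dl c (u z) (p z) (q z) := by
  have h3 := DD_c (dl := dl) (c := c) hu hp hq
  unfold aa
  exact (h3.log fun z => (DD_pos hdl hc (h0 z) _ _).ne').div_const 2

theorem TT'_c (hdl : 0 < dl) (hu : Continuous u) (hp : Continuous p) (hu' : Continuous u')
    (hp' : Continuous p') (h0 : ∀ z, 0 < p z) :
    Continuous fun z => TT' dl (u z) (p z) (u' z) (p' z) := by
  have h1 := TT_c (dl := dl) hu hp
  unfold TT'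
  exact ((hu.mul hu').add (continuous_const.mul (hp.mul hp'))).div h1 fun z =>
    (TT_pos hdl (h0 z) _).ne'

theorem PP'_c (hdl : 0 < dl) (hu : Continuous u) (hp : Continuous p) (hu' : Continuous u')
    (hp' : Continuous p') (h0 : ∀ z, 0 < p z) :
    Continuous fun z => PP' dl (u z) (p z) (u' z) (p' z) := by
  have h1 := TT_c (dl := dl) hu hp
  have h2 := TT'_c hdl hu hp hu' hp' h0
  unfold PP'
  exact (hp'.mul h1).add (hp.mul h2)

theorem DD'_c (hdl : 0 < dl) (hu : Continuous u) (hp : Continuous p)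
    (hq : Continuous q) (hu' : Continuous u') (hp' : Continuous p') (hq' : Continuous q')
    (h0 : ∀ z, 0 < p z) :
    Continuous fun z => DD' dl c (u z) (p z) (q z) (u' z) (p' z) (q' z) := by
  have h1 := PP_c (dl := dl) (c := c) hu hp
  have h2 := PP'_c hdl hu hp hu' hp' h0
  unfold DD'
  exact ((continuous_const.mul h1).mul h2).add ((continuous_const.mul hq).mul hq')

theorem al'_c (hdl : 0 < dl) (hc : 0 < c) (hu : Continuous u) (hp : Continuous p)
    (hq : Continuous q) (hu' : Continuous u') (hp' : Continuous p') (hq' : Continuous q')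
    (h0 : ∀ z, 0 < p z) :
    Continuous fun z => al' dl c (u z) (p z) (q z) (u' z) (p' z) (q' z) := by
  have h1 := TT_c (dl := dl) hu hp
  have h2 := PP_c (dl := dl) (c := c) hu hp
  have h3 := DD_c (dl := dl) (c := c) hu hp hq
  have h4 := TT'_c hdl hu hp hu' hp' h0
  have h5 := PP'_c hdl hu hp hu' hp' h0
  have h6 := DD'_c (c := c) hdl hu hp hq hu' hp' hq' h0
  unfold al'
  exact ((((h5.mul hu).add (h2.mul hu')).mul (h1.mul h3)).sub
    ((h2.mul hu).mul ((h4.mul h3).add (h1.mul h6)))).div ((h1.mul h3).pow 2) fun z =>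
    (pow_pos (mul_pos (TT_pos hdl (h0 z) _) (DD_pos hdl hc (h0 z) _ _)) 2).ne'

theorem be'_c (hdl : 0 < dl) (hc : 0 < c) (hu : Continuous u) (hp : Continuous p)
    (hq : Continuous q) (hu' : Continuous u') (hp' : Continuous p') (hq' : Continuous q')
    (h0 : ∀ z, 0 < p z) :
    Continuous fun z => be' dl c (u z) (p z) (q z) (u' z) (p' z) (q' z) := by
  have h3 := DD_c (dl := dl) (c := c) hu hp hq
  have h6 := DD'_c (c := c) hdl hu hp hq hu' hp' hq' h0
  unfold be'
  exact ((hq'.mul h3).sub (hq.mul h6)).div (h3.pow 2) fun z =>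
    (pow_pos (DD_pos hdl hc (h0 z) _ _) 2).ne'

theorem bx_c (hdl : 0 < dl) (hc : 0 < c) (hu : Continuous u) (hp : Continuous p)
    (hq : Continuous q) (hu' : Continuous u') (hp' : Continuous p') (h0 : ∀ z, 0 < p z) :
    Continuous fun z => bx dl c (u z) (p z) (q z) (u' z) (p' z) := by
  have h1 := TT_c (dl := dl) hu hp
  have h2 := PP_c (dl := dl) (c := c) hu hp
  have h3 := DD_c (dl := dl) (c := c) hu hp hq
  unfold bx
  exact ((((continuous_const.mul h2).mul h1).mul hu').add (((continuous_const.mul hu).mul hq).mul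
    hp')).div h3 fun z => (DD_pos hdl hc (h0 z) _ _).ne'

theorem by_c (hdl : 0 < dl) (hc : 0 < c) (hu : Continuous u) (hp : Continuous p)
    (hq : Continuous q) (hu' : Continuous u') (hp' : Continuous p') (h0 : ∀ z, 0 < p z) :
    Continuous fun z => by' dl c (u z) (p z) (q z) (u' z) (p' z) := by
  have h1 := TT_c (dl := dl) hu hp
  have h2 := PP_c (dl := dl) (c := c) hu hp
  have h3 := DD_c (dl := dl) (c := c) hu hp hq
  unfold by'
  exact ((((continuous_const.mul h2).mul h1).mul hp').sub (((continuous_const.mul hu).mul hq).mul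
    hu')).div h3 fun z => (DD_pos hdl hc (h0 z) _ _).ne'

end cont

/-- The partial derivatives of a function of class `C²`. -/
structure D2 (u u1 u2 u11 u12 u22 : ℝ → ℝ → ℝ) : Prop where
  c : Continuous (uncurry u)
  k1 : Continuous (uncurry u1)
  k2 : Continuous (uncurry u2)
  k11 : Continuous (uncurry u11)
  k12 : Continuous (uncurry u12)
  k22 : Continuous (uncurry u22)
  d1 : ∀ x y, HasDerivAt (fun t => u t y) (u1 x y) x
  d2 : ∀ x y, HasDerivAt (fun t => u x t) (u2 x y) y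
  d11 : ∀ x y, HasDerivAt (fun t => u1 t y) (u11 x y) x
  d12 : ∀ x y, HasDerivAt (fun t => u1 x t) (u12 x y) y
  d21 : ∀ x y, HasDerivAt (fun t => u2 t y) (u12 x y) x
  d22 : ∀ x y, HasDerivAt (fun t => u2 x t) (u22 x y) y

/-- Derivatives along lines. -/
theorem ray_of {F Fx Fy : ℝ → ℝ → ℝ} (cx : Continuous (uncurry Fx))
    (cy : Continuous (uncurry Fy)) (dx : ∀ x y, HasDerivAt (fun t => F t y) (Fx x y) x)
    (dy : ∀ x y, HasDerivAt (fun t => F x t) (Fy x y) y) (x0 y0 ξ ζ s : ℝ) :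
    HasDerivAt (fun s => F (x0 + s * ξ) (y0 + s * ζ))
      (ξ * Fx (x0 + s * ξ) (y0 + s * ζ) + ζ * Fy (x0 + s * ξ) (y0 + s * ζ)) s := by
  have h1 := (Pool.Agent.R220.LV.contDiff_one_of cx cy dx dy).1 (x0 + s * ξ, y0 + s * ζ)
  have e1 : HasDerivAt (fun s : ℝ => x0 + s * ξ) ξ s := by
    simpa using ((hasDerivAt_id s).mul_const ξ).const_add x0
  have e2 : HasDerivAt (fun s : ℝ => y0 + s * ζ) ζ s := by
    simpa using ((hasDerivAt_id s).mul_const ζ).const_add y0
  have h2 := h1.comp_hasDerivAt s (e1.prodMk e2)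
  refine h2.congr_deriv ?_
  simp [ContinuousLinearMap.toSpanSingleton_apply]

/-- The conjugate function. -/
noncomputable def QQ (G1 G2 : ℝ → ℝ → ℝ) (x1 y1 x y : ℝ) : ℝ :=
  (∫ s in x1..x, -G2 s y1) + ∫ t in y1..y, G1 x t

section QQ

variable {G1 G2 g1 g2 : ℝ → ℝ → ℝ} {x1 y1 : ℝ}

theorem QQ_y (c1 : Continuous (uncurry G1)) (x y : ℝ) :
    HasDerivAt (fun t => QQ G1 G2 x1 y1 x t) (G1 x y) y := by
  have h := intervalIntegral.integral_hasDerivAt_right
    ((slice2 c1 x).intervalIntegrable y1 y)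
    ((slice2 c1 x).stronglyMeasurableAtFilter _ _) (slice2 c1 x).continuousAt
  exact h.const_add _

theorem QQ_x (c1 : Continuous (uncurry G1)) (c2 : Continuous (uncurry G2))
    (k1 : Continuous (uncurry g1)) (k2 : Continuous (uncurry g2))
    (h1 : ∀ x y, HasDerivAt (fun t => G1 t y) (g1 x y) x)
    (h2 : ∀ x y, HasDerivAt (fun t => G2 x t) (g2 x y) y) (h0 : ∀ x y, g1 x y + g2 x y = 0)
    (x y : ℝ) : HasDerivAt (fun t => QQ G1 G2 x1 y1 t y) (-G2 x y) x := by
  have e1 := intervalIntegral.integral_hasDerivAt_right (a := x1) (b := x) (f := fun s => -G2 s y1)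
    ((slice1 c2 y1).neg.intervalIntegrable x1 x)
    ((slice1 c2 y1).neg.stronglyMeasurableAtFilter _ _) (slice1 c2 y1).neg.continuousAt
  have e2 := Pool.Agent.R220.LV.par_deriv c1 k1 (fun t s => h1 t s) y1 y x
  have e3 := intervalIntegral.integral_eq_sub_of_hasDerivAt (a := y1) (b := y)
    (f := fun t => G2 x t) (fun t _ => h2 x t) ((slice2 k2 x).intervalIntegrable _ _)
  refine (e1.add e2).congr_deriv ?_
  have e4 : ∫ t in y1..y, g1 x t = -∫ t in y1..y, g2 x t := by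
    rw [← intervalIntegral.integral_neg]
    congr 1
    funext t
    have := h0 x t
    linarith
  rw [e4, e3]
  ring

end QQ

section sys

variable {u u1 u2 u11 u12 u22 p p1 p2 p11 p12 p22 qq : ℝ → ℝ → ℝ}

/-- The gradient part, first component. -/
def GG1 (u u1 p p1 : ℝ → ℝ → ℝ) (x y : ℝ) : ℝ := p x y * u1 x y - u x y * p1 x y

/-- The logarithm. -/
noncomputable def fa (dl c x1 y1 : ℝ) (u u1 u2 p p1 p2 : ℝ → ℝ → ℝ) (x y : ℝ) : ℝ :=
  aa dl c (u x y) (max (p x y) (1 / 2)) (QQ (GG1 u u1 p p1) (GG1 u u2 p p2) x1 y1 x y)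

noncomputable def fV1 (dl c x1 y1 : ℝ) (u u1 u2 p p1 p2 : ℝ → ℝ → ℝ) (x y : ℝ) : ℝ :=
  al dl c (u x y) (max (p x y) (1 / 2)) (QQ (GG1 u u1 p p1) (GG1 u u2 p p2) x1 y1 x y) *
    GG1 u u1 p p1 x y -
  be dl c (u x y) (max (p x y) (1 / 2)) (QQ (GG1 u u1 p p1) (GG1 u u2 p p2) x1 y1 x y) *
    (u2 x y * p x y + u x y * p2 x y)

noncomputable def fV2 (dl c x1 y1 : ℝ) (u u1 u2 p p1 p2 : ℝ → ℝ → ℝ) (x y : ℝ) : ℝ :=
  al dl c (u x y) (max (p x y) (1 / 2)) (QQ (GG1 u u1 p p1) (GG1 u u2 p p2) x1 y1 x y) *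
    GG1 u u2 p p2 x y +
  be dl c (u x y) (max (p x y) (1 / 2)) (QQ (GG1 u u1 p p1) (GG1 u u2 p p2) x1 y1 x y) *
    (u1 x y * p x y + u x y * p1 x y)

theorem GG1_c (h1 : Continuous (uncurry u)) (h2 : Continuous (uncurry u1))
    (h3 : Continuous (uncurry p)) (h4 : Continuous (uncurry p1)) :
    Continuous (uncurry (GG1 u u1 p p1)) := (h3.mul h2).sub (h1.mul h4)

/-- Near points where `p > 1/2` the truncation is invisible. -/
theorem mx_ev {f : ℝ → ℝ} {t f' : ℝ} (h : HasDerivAt f f' t) (h1 : 1 / 2 < f t) :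
    HasDerivAt (fun t => max (f t) (1 / 2)) f' t := by
  refine h.congr_of_eventuallyEq ?_
  filter_upwards [h.continuousAt.eventually (lt_mem_nhds h1)] with s hs
  exact max_eq_left hs.le

theorem dat_of (hu : D2 u u1 u2 u11 u12 u22) (hp : D2 p p1 p2 p11 p12 p22)
    (eu : ∀ x y, u11 x y + u22 x y = -(qq x y * u x y))
    (ep : ∀ x y, p11 x y + p22 x y = -(qq x y * p x y)) {X0 X1 Y0 Y1 Γ dl c : ℝ}
    (hX : X0 ≤ X1) (hY : Y0 ≤ Y1)
    (hp1 : ∀ x ∈ Icc X0 X1, ∀ y ∈ Icc Y0 Y1, 1 / 2 < p x y ∧ p x y ≤ 2)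
    (hΓ0 : 0 ≤ Γ)
    (hΓ : ∀ x ∈ Icc X0 X1, ∀ y ∈ Icc Y0 Y1, p1 x y ^ 2 + p2 x y ^ 2 ≤ Γ ^ 2)
    (hdl : 0 < dl) (hc : 0 < c) (x1 y1 : ℝ) :
    ∃ b1 b2 c1 c2, Dat (fa dl c x1 y1 u u1 u2 p p1 p2) (fV1 dl c x1 y1 u u1 u2 p p1 p2)
      (fV2 dl c x1 y1 u u1 u2 p p1 p2) b1 b2 c1 c2 X0 X1 Y0 Y1 (dl ^ 2 * Γ ^ 2 / c ^ 2)
      (4 * Γ) := by
  set Q := QQ (GG1 u u1 p p1) (GG1 u u2 p p2) x1 y1 with hQ
  set P : ℝ → ℝ → ℝ := fun x y => max (p x y) (1 / 2) with hP
  have cG1 := GG1_c hu.c hu.k1 hp.c hp.k1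
  have cG2 := GG1_c hu.c hu.k2 hp.c hp.k2
  set g1 : ℝ → ℝ → ℝ := fun x y => p x y * u11 x y - u x y * p11 x y with hg1
  set g2 : ℝ → ℝ → ℝ := fun x y => p x y * u22 x y - u x y * p22 x y with hg2
  have cg1 : Continuous (uncurry g1) := (hp.c.mul hu.k11).sub (hu.c.mul hp.k11)
  have cg2 : Continuous (uncurry g2) := (hp.c.mul hu.k22).sub (hu.c.mul hp.k22)
  have dG1 : ∀ x y, HasDerivAt (fun t => GG1 u u1 p p1 t y) (g1 x y) x := by
    intro x y
    have := ((hp.d1 x y).mul (hu.d11 x y)).sub ((hu.d1 x y).mul (hp.d11 x y))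
    refine this.congr_deriv ?_
    simp only [hg1]
    ring
  have dG2 : ∀ x y, HasDerivAt (fun t => GG1 u u2 p p2 x t) (g2 x y) y := by
    intro x y
    have := ((hp.d2 x y).mul (hu.d22 x y)).sub ((hu.d2 x y).mul (hp.d22 x y))
    refine this.congr_deriv ?_
    simp only [hg2]
    ring
  have hg0 : ∀ x y, g1 x y + g2 x y = 0 := by
    intro x y
    have h1 := eu x y
    have h2 := ep x y
    simp only [hg1, hg2]
    have e : p x y * u11 x y - u x y * p11 x y + (p x y * u22 x y - u x y * p22 x y) =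
        p x y * (u11 x y + u22 x y) - u x y * (p11 x y + p22 x y) := by ring
    rw [e, h1, h2]
    ring
  have dQ1 : ∀ x y, HasDerivAt (fun t => Q t y) (-GG1 u u2 p p2 x y) x :=
    QQ_x cG1 cG2 cg1 cg2 dG1 dG2 hg0
  have dQ2 : ∀ x y, HasDerivAt (fun t => Q x t) (GG1 u u1 p p1 x y) y := QQ_y cG1
  have cQ : Continuous (uncurry Q) :=
    (Pool.Agent.R220.LV.contDiff_one_of (F := Q) (Fx := fun x y => -GG1 u u2 p p2 x y) cG2.neg cG1
      dQ1 dQ2).2.continuous
  have cP : Continuous (uncurry P) := hp.c.max continuous_const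
  have P0 : ∀ z : ℝ × ℝ, 0 < uncurry P z := fun z =>
    lt_of_lt_of_le (by norm_num) (le_max_right _ _)
  have P0' : ∀ x y, 0 < P x y := fun x y => P0 (x, y)
  have hPe : ∀ x ∈ Icc X0 X1, ∀ y ∈ Icc Y0 Y1, P x y = p x y := fun x hx y hy =>
    max_eq_left (hp1 x hx y hy).1.le
  -- the functions
  set b1 : ℝ → ℝ → ℝ := fun x y => bx dl c (u x y) (P x y) (Q x y) (p1 x y) (p2 x y) with hb1
  set b2 : ℝ → ℝ → ℝ := fun x y => by' dl c (u x y) (P x y) (Q x y) (p1 x y) (p2 x y) with hb2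
  set c1 : ℝ → ℝ → ℝ := fun x y =>
    al' dl c (u x y) (P x y) (Q x y) (u1 x y) (p1 x y) (-GG1 u u2 p p2 x y) *
      GG1 u u1 p p1 x y + al dl c (u x y) (P x y) (Q x y) * g1 x y -
    (be' dl c (u x y) (P x y) (Q x y) (u1 x y) (p1 x y) (-GG1 u u2 p p2 x y) *
      (u2 x y * p x y + u x y * p2 x y) + be dl c (u x y) (P x y) (Q x y) *
      (u12 x y * p x y + u2 x y * p1 x y + (u1 x y * p2 x y + u x y * p12 x y))) with hc1
  set c2 : ℝ → ℝ → ℝ := fun x y =>
    al' dl c (u x y) (P x y) (Q x y) (u2 x y) (p2 x y) (GG1 u u1 p p1 x y) *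
      GG1 u u2 p p2 x y + al dl c (u x y) (P x y) (Q x y) * g2 x y +
    (be' dl c (u x y) (P x y) (Q x y) (u2 x y) (p2 x y) (GG1 u u1 p p1 x y) *
      (u1 x y * p x y + u x y * p1 x y) + be dl c (u x y) (P x y) (Q x y) *
      (u12 x y * p x y + u1 x y * p2 x y + (u2 x y * p1 x y + u x y * p12 x y))) with hc2
  have cal := al_c (u := uncurry u) (p := uncurry P) (q := uncurry Q) hdl hc hu.c cP cQ P0
  have cbe := be_c (u := uncurry u) (p := uncurry P) (q := uncurry Q) hdl hc hu.c cP cQ P0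
  have cw1 : Continuous (uncurry fun x y => u1 x y * p x y + u x y * p1 x y) :=
    (hu.k1.mul hp.c).add (hu.c.mul hp.k1)
  have cw2 : Continuous (uncurry fun x y => u2 x y * p x y + u x y * p2 x y) :=
    (hu.k2.mul hp.c).add (hu.c.mul hp.k2)
  have cw12 : Continuous (uncurry fun x y =>
      u12 x y * p x y + u2 x y * p1 x y + (u1 x y * p2 x y + u x y * p12 x y)) :=
    ((hu.k12.mul hp.c).add (hu.k2.mul hp.k1)).add ((hu.k1.mul hp.k2).add (hu.c.mul hp.k12))
  have cw21 : Continuous (uncurry fun x y =>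
      u12 x y * p x y + u1 x y * p2 x y + (u2 x y * p1 x y + u x y * p12 x y)) :=
    ((hu.k12.mul hp.c).add (hu.k1.mul hp.k2)).add ((hu.k2.mul hp.k1).add (hu.c.mul hp.k12))
  refine ⟨b1, b2, c1, c2, ?_⟩
  refine
    { ca := aa_c (u := uncurry u) (p := uncurry P) (q := uncurry Q) hdl hc hu.c cP cQ P0
      cV1 := (cal.mul cG1).sub (cbe.mul cw2)
      cV2 := (cal.mul cG2).add (cbe.mul cw1)
      cb1 := bx_c (u := uncurry u) (p := uncurry P) (q := uncurry Q) hdl hc hu.c cP cQ hp.k1 hp.k2 P0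
      cb2 := by_c (u := uncurry u) (p := uncurry P) (q := uncurry Q) hdl hc hu.c cP cQ hp.k1 hp.k2 P0
      cc1 := ?_
      cc2 := ?_
      ray := ?_
      dV1 := ?_
      dV2 := ?_
      dv := ?_
      hb := ?_
      hX := hX
      hY := hY
      hη := by positivity
      hBd := by positivity }
  · have e1 := al'_c (u := uncurry u) (p := uncurry P) (q := uncurry Q) (u' := uncurry u1)
      (p' := uncurry p1) (q' := fun z => -uncurry (GG1 u u2 p p2) z) hdl hc hu.c cP cQ hu.k1 hp.k1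
      cG2.neg P0
    have e2 := be'_c (u := uncurry u) (p := uncurry P) (q := uncurry Q) (u' := uncurry u1)
      (p' := uncurry p1) (q' := fun z => -uncurry (GG1 u u2 p p2) z) hdl hc hu.c cP cQ hu.k1 hp.k1
      cG2.neg P0
    exact ((e1.mul cG1).add (cal.mul cg1)).sub ((e2.mul cw2).add (cbe.mul cw12))
  · have e1 := al'_c (u := uncurry u) (p := uncurry P) (q := uncurry Q) (u' := uncurry u2)
      (p' := uncurry p2) (q' := uncurry (GG1 u u1 p p1)) hdl hc hu.c cP cQ hu.k2 hp.k2 cG1 P0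
    have e2 := be'_c (u := uncurry u) (p := uncurry P) (q := uncurry Q) (u' := uncurry u2)
      (p' := uncurry p2) (q' := uncurry (GG1 u u1 p p1)) hdl hc hu.c cP cQ hu.k2 hp.k2 cG1 P0
    exact ((e1.mul cG2).add (cal.mul cg2)).add ((e2.mul cw1).add (cbe.mul cw21))
  · intro x0 y0 ξ ζ s hx hy
    set x := x0 + s * ξ with hxd
    set y := y0 + s * ζ with hyd
    have r1 := ray_of hu.k1 hu.k2 hu.d1 hu.d2 x0 y0 ξ ζ s
    have r2 := mx_ev (ray_of hp.k1 hp.k2 hp.d1 hp.d2 x0 y0 ξ ζ s) (hp1 _ hx _ hy).1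
    have r3 := ray_of (F := Q) (Fx := fun x y => -GG1 u u2 p p2 x y) cG2.neg cG1 dQ1 dQ2 x0 y0 ξ ζ s
    have h1 := aa_deriv (c := c) (u := fun s => u (x0 + s * ξ) (y0 + s * ζ))
      (p := fun s => max (p (x0 + s * ξ) (y0 + s * ζ)) (1 / 2))
      (q := fun s => Q (x0 + s * ξ) (y0 + s * ζ)) (t := s) hdl hc (P0' x y) r1 r2 r3
    refine h1.congr_deriv ?_
    have h2 : ∀ U1 U2 P1 P2 Q1 Q2 : ℝ,
        aa' dl c (u x y) (P x y) (Q x y) (ξ * U1 + ζ * U2) (ξ * P1 + ζ * P2) (ξ * Q1 + ζ * Q2) =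
        ξ * aa' dl c (u x y) (P x y) (Q x y) U1 P1 Q1 +
          ζ * aa' dl c (u x y) (P x y) (Q x y) U2 P2 Q2 := by
      intro U1 U2 P1 P2 Q1 Q2
      unfold aa' DD' PP' TT'
      ring
    have h3 := grad1 (u1 := u1 x y) (u2 := u2 x y) (p1 := p1 x y) (p2 := p2 x y) (u := u x y)
      (q := Q x y) hdl hc (P0' x y)
    have h4 := grad2 (u1 := u1 x y) (u2 := u2 x y) (p1 := p1 x y) (p2 := p2 x y) (u := u x y)
      (q := Q x y) hdl hc (P0' x y)
    have hPx : P x y = p x y := hPe x hx y hy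
    have e1 := h2 (u1 x y) (u2 x y) (p1 x y) (p2 x y) (-GG1 u u2 p p2 x y) (GG1 u u1 p p1 x y)
    refine e1.trans ?_
    have e2 : aa' dl c (u x y) (P x y) (Q x y) (u1 x y) (p1 x y) (-GG1 u u2 p p2 x y) =
        fV1 dl c x1 y1 u u1 u2 p p1 p2 x y + b1 x y := by
      have e3 : -GG1 u u2 p p2 x y = -(P x y * u2 x y - u x y * p2 x y) := by
        rw [hPx]
        rfl
      rw [e3, h3]
      have e4 : fV1 dl c x1 y1 u u1 u2 p p1 p2 x y = al dl c (u x y) (P x y) (Q x y) *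
        (p x y * u1 x y - u x y * p1 x y) - be dl c (u x y) (P x y) (Q x y) *
        (u2 x y * p x y + u x y * p2 x y) := rfl
      rw [e4]
      simp only [hb1, hPx]
    have e3 : aa' dl c (u x y) (P x y) (Q x y) (u2 x y) (p2 x y) (GG1 u u1 p p1 x y) =
        fV2 dl c x1 y1 u u1 u2 p p1 p2 x y + b2 x y := by
      have e3 : GG1 u u1 p p1 x y = (P x y * u1 x y - u x y * p1 x y) := by
        rw [hPx]
        rfl
      rw [e3, h4]
      have e4 : fV2 dl c x1 y1 u u1 u2 p p1 p2 x y = al dl c (u x y) (P x y) (Q x y) *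
        (p x y * u2 x y - u x y * p2 x y) + be dl c (u x y) (P x y) (Q x y) *
        (u1 x y * p x y + u x y * p1 x y) := rfl
      rw [e4]
      simp only [hb2, hPx]
    rw [e2, e3]
  · intro x hx y hy
    have r2 := mx_ev (hp.d1 x y) (hp1 _ hx _ hy).1
    have e1 := al_deriv (c := c) (u := fun t => u t y) (p := fun t => max (p t y) (1 / 2))
      (q := fun t => Q t y) (t := x) hdl hc (P0' x y) (hu.d1 x y) r2 (dQ1 x y)
    have e2 := be_deriv (c := c) (u := fun t => u t y) (p := fun t => max (p t y) (1 / 2))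
      (q := fun t => Q t y) (t := x) hdl hc (P0' x y) (hu.d1 x y) r2 (dQ1 x y)
    have e3 := ((hu.d21 x y).mul (hp.d1 x y)).add ((hu.d1 x y).mul (hp.d21 x y))
    have e4 := (e1.mul (dG1 x y)).sub (e2.mul e3)
    exact e4
  · intro x hx y hy
    have r2 := mx_ev (hp.d2 x y) (hp1 _ hx _ hy).1
    have e1 := al_deriv (c := c) (u := fun t => u x t) (p := fun t => max (p x t) (1 / 2))
      (q := fun t => Q x t) (t := y) hdl hc (P0' x y) (hu.d2 x y) r2 (dQ2 x y)
    have e2 := be_deriv (c := c) (u := fun t => u x t) (p := fun t => max (p x t) (1 / 2))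
      (q := fun t => Q x t) (t := y) hdl hc (P0' x y) (hu.d2 x y) r2 (dQ2 x y)
    have e3 := ((hu.d12 x y).mul (hp.d2 x y)).add ((hu.d2 x y).mul (hp.d12 x y))
    have e4 := (e1.mul (dG2 x y)).add (e2.mul e3)
    exact e4
  · intro x hx y hy
    have hPx : P x y = p x y := hPe x hx y hy
    have h1 := div_ge (c := c) (u := u x y) (q := Q x y) (u1 := u1 x y) (u2 := u2 x y)
      (p1 := p1 x y) (p2 := p2 x y) hdl hc (P0' x y)
    have h2 := hΓ x hx y hy
    have h3 := hp1 x hx y hy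
    have h4 : dl ^ 2 * P x y ^ 2 * (p1 x y ^ 2 + p2 x y ^ 2) / (4 * c ^ 2) ≤
        dl ^ 2 * Γ ^ 2 / c ^ 2 := by
      rw [hPx, div_le_div_iff₀ (by positivity) (by positivity)]
      have h5 : p x y ^ 2 ≤ 4 := by nlinarith
      have h6 : p x y ^ 2 * (p1 x y ^ 2 + p2 x y ^ 2) ≤ 4 * Γ ^ 2 := by
        have := mul_le_mul h5 h2 (by positivity) (by norm_num)
        linarith
      have h7 := mul_le_mul_of_nonneg_left h6 (by positivity : 0 ≤ dl ^ 2 * c ^ 2)
      linarith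
    have h5 : c1 x y + c2 x y = al' dl c (u x y) (P x y) (Q x y) (u1 x y) (p1 x y)
        (-(P x y * u2 x y - u x y * p2 x y)) * (P x y * u1 x y - u x y * p1 x y) +
      al' dl c (u x y) (P x y) (Q x y) (u2 x y) (p2 x y) (P x y * u1 x y - u x y * p1 x y) *
        (P x y * u2 x y - u x y * p2 x y) -
      be' dl c (u x y) (P x y) (Q x y) (u1 x y) (p1 x y) (-(P x y * u2 x y - u x y * p2 x y)) *
        (u2 x y * P x y + u x y * p2 x y) +
      be' dl c (u x y) (P x y) (Q x y) (u2 x y) (p2 x y) (P x y * u1 x y - u x y * p1 x y) *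
        (u1 x y * P x y + u x y * p1 x y) := by
      have h6 := hg0 x y
      have h7 : g2 x y = -g1 x y := by linarith
      simp only [hc1, hc2, hPx, GG1, h7]
      ring
    rw [h5]
    linarith
  · intro x hx y hy
    have hPx : P x y = p x y := hPe x hx y hy
    have h1 := b_le (c := c) (u := u x y) (q := Q x y)
      (p1 := p1 x y) (p2 := p2 x y) hdl hc (P0' x y)
    have h2 := hΓ x hx y hy
    have h3 := hp1 x hx y hy
    refine h1.trans ?_
    rw [div_le_iff₀ (by have := P0' x y; positivity), hPx]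
    have h5 : 1 / 4 ≤ p x y ^ 2 := by nlinarith
    nlinarith [mul_le_mul_of_nonneg_left h5 (by positivity : 0 ≤ 16 * Γ ^ 2)]

end sys

end Pool.Agent.Sub70.LT
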