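import Pool.Agent.Sub70.LT.Grid

/-!
# The estimate at a cell and the total number of zeros
-/

set_option autoImplicit false

namespace Pool.Agent.Sub70.LT

open Set MeasureTheory Function Pool.Agent.R220.LV Pool.Agent.Y291.DB

variable {f g : ℝ → ℝ} {L lam K0 : ℝ} {φ : ℝ × ℝ → ℝ} {hx hy τ τ' : ℝ} {n1 n2 : ℕ} {d : ℝ}

theorem grid_mono {h τ : ℝ} (hh : 0 < h) : StrictMono fun i : ℤ => τ + (i : ℝ) * h := by
  intro a b hab
  have : (a : ℝ) < b := by exact_mod_cast hab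
  simp only
  nlinarith

theorem vz_sum (hy0 : 0 < hy) {i : ℤ} (hf : ∀ a b, (zs (fun t => φ (τ + i * hx, t)) a b).Finite)
    (j : ℤ) (k : ℕ) : ∑ l ∈ Finset.range k, vz φ hx hy τ τ' i (j + l) =
      zc (fun t => φ (τ + i * hx, t)) (τ' + j * hy) (τ' + ((j + k : ℤ) : ℝ) * hy) := by
  have h1 := zc_sum hf (grid_mono (τ := τ') hy0) j k
  rw [← h1]
  push_cast
  refine Finset.sum_congr rfl fun l _ => ?_
  unfold vz
  push_cast
  rfl

theorem hz_sum (hx0 : 0 < hx) {j : ℤ} (hf : ∀ a b, (zs (fun t => φ (t, τ' + j * hy)) a b).Finite)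
    (i : ℤ) (k : ℕ) : ∑ l ∈ Finset.range k, hz φ hx hy τ τ' (i + l) j =
      zc (fun t => φ (t, τ' + j * hy)) (τ + i * hx) (τ + ((i + k : ℤ) : ℝ) * hx) := by
  have h1 := zc_sum hf (grid_mono (τ := τ) hx0) i k
  rw [← h1]
  push_cast
  refine Finset.sum_congr rfl fun l _ => ?_
  unfold hz
  push_cast
  rfl

/-- The estimate at a cell. -/
theorem cell_step (hf : Continuous f) (hg : Continuous g) (hL : 0 < L) (hK0 : 0 < K0)
    (hfK : ∀ t, |f t| ≤ K0) (hgK : ∀ t, |g t| ≤ K0)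
    (h : Eigen (fun p => f p.1 + g p.2) L 0 lam φ) (hG : Grid φ L n1 n2 d hx hy τ τ')
    (hd1 : lam * K0 * (33 * d) ^ 2 ≤ 1 / 16) {z : ℝ × ℝ} {i j : ℤ} (hi : τ + i * hx ≤ z.1)
    (hi' : z.1 ≤ τ + (i + 1) * hx) (hj : τ' + j * hy ≤ z.2) (hj' : z.2 ≤ τ' + (j + 1) * hy)
    {ε : ℝ} (hε0 : 0 ≤ ε)
    (hε : ∀ x y, |x - z.1| ≤ 2 * (d / 2) → |y - z.2| ≤ 2 * (d / 2) → |φ (x, y)| ≤ ε) (x y : ℝ)
    (hxz : |x - z.1| ≤ 2 * d) (hyz : |y - z.2| ≤ 2 * d) :
    |φ (x, y)| ≤ Real.exp (CC (Real.log 16) * (mm φ hx hy τ τ' i j + 1)) * ε := by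
  obtain ⟨l1, l2⟩ := line_both hf hg hL hK0 hfK hgK h
  have hd := hG.hd
  have hx0 : 0 < hx := lt_of_lt_of_le (by positivity) hG.x1
  have hy0 : 0 < hy := lt_of_lt_of_le (by positivity) hG.y1
  have hx1 := hG.x1
  have hx2 := hG.x2
  have hy1 := hG.y1
  have hy2 := hG.y2
  have fv : ∀ i : ℤ, ∀ a b, (zs (fun t => φ (τ + i * hx, t)) a b).Finite := fun i =>
    zs_fin (by positivity : 0 < 2 * Real.pi) fun a Z hZ => l2 _ a Z (hG.ne1 i) hZ
  have fh : ∀ j : ℤ, ∀ a b, (zs (fun t => φ (t, τ' + j * hy)) a b).Finite := fun j =>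
    zs_fin hL fun a Z hZ => l1 _ a Z (hG.ne2 j) hZ
  have s1 := vz_sum (τ' := τ') hy0 (fv (i + -16)) (j + -16) 33
  have s2 := vz_sum (τ' := τ') hy0 (fv (i + 17)) (j + -16) 33
  have s3 := hz_sum (τ := τ) hx0 (fh (j + -16)) (i + -16) 33
  have s4 := hz_sum (τ := τ) hx0 (fh (j + 17)) (i + -16) 33
  have ei : (i + -16 + (33 : ℕ) : ℤ) = i + 17 := by push_cast; ring
  have ej : (j + -16 + (33 : ℕ) : ℤ) = j + 17 := by push_cast; ring
  rw [ej] at s1 s2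
  rw [ei] at s3 s4
  have hmm : mm φ hx hy τ τ' i j =
      zc (fun t => φ (τ + ((i + -16 : ℤ) : ℝ) * hx, t)) (τ' + ((j + -16 : ℤ) : ℝ) * hy)
        (τ' + ((j + 17 : ℤ) : ℝ) * hy) +
      zc (fun t => φ (τ + ((i + 17 : ℤ) : ℝ) * hx, t)) (τ' + ((j + -16 : ℤ) : ℝ) * hy)
        (τ' + ((j + 17 : ℤ) : ℝ) * hy) +
      zc (fun t => φ (t, τ' + ((j + -16 : ℤ) : ℝ) * hy)) (τ + ((i + -16 : ℤ) : ℝ) * hx)
        (τ + ((i + 17 : ℤ) : ℝ) * hx) +
      zc (fun t => φ (t, τ' + ((j + 17 : ℤ) : ℝ) * hy)) (τ + ((i + -16 : ℤ) : ℝ) * hx)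
        (τ + ((i + 17 : ℤ) : ℝ) * hx) := by
    rw [← s1, ← s2, ← s3, ← s4]
    unfold mm
    rw [Finset.sum_add_distrib, Finset.sum_add_distrib, Finset.sum_add_distrib]
    simp only [add_assoc]
  rw [hmm]
  have cz : ∀ {ψ : ℝ → ℝ} {a b : ℝ} (hfin : (zs ψ a b).Finite),
      (∀ t ∈ Ioo a b, ψ t = 0 → t ∈ hfin.toFinset) ∧ hfin.toFinset.card ≤ zc ψ a b := by
    intro ψ a b hfin
    refine ⟨fun t ht h0 => ?_, ?_⟩
    · rw [Set.Finite.mem_toFinset]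
      exact ⟨⟨ht.1.le, ht.2⟩, h0⟩
    · unfold zc
      rw [Set.ncard_eq_toFinset_card _ hfin]
  have c1 := cz (fv (i + -16) (τ' + ((j + -16 : ℤ) : ℝ) * hy) (τ' + ((j + 17 : ℤ) : ℝ) * hy))
  have c2 := cz (fv (i + 17) (τ' + ((j + -16 : ℤ) : ℝ) * hy) (τ' + ((j + 17 : ℤ) : ℝ) * hy))
  have c3 := cz (fh (j + -16) (τ + ((i + -16 : ℤ) : ℝ) * hx) (τ + ((i + 17 : ℤ) : ℝ) * hx))
  have c4 := cz (fh (j + 17) (τ + ((i + -16 : ℤ) : ℝ) * hx) (τ + ((i + 17 : ℤ) : ℝ) * hx))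
  have e16 : Real.log (8 * d / (d / 2)) ≤ Real.log 16 := by
    have : 8 * d / (d / 2) = 16 := by
      field_simp
      norm_num
    rw [this]
  refine loc_phi hf hg hK0 hfK hgK h (H := 33 * d) (S := 8 * d) (s1 := d / 2) (x1 := z.1)
    (y1 := z.2) (by positivity) hd1 ?_ ?_ ⟨?_, ?_, ?_, ?_⟩ (by positivity) (by linarith) e16
    c1.1 c1.2 c2.1 c2.2 c3.1 c3.2 c4.1 c4.2 hε0 hε (by linarith) (by linarith)
  · push_cast
    nlinarith
  · push_cast
    nlinarith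
  · push_cast
    nlinarith
  · push_cast
    nlinarith
  · push_cast
    nlinarith
  · push_cast
    nlinarith

theorem sum3 {A B C : Finset ℕ} (F : ℕ → ℕ → ℕ → ℝ) :
    ∑ i ∈ A, ∑ j ∈ B, ∑ a ∈ C, F i j a = ∑ a ∈ C, ∑ i ∈ A, ∑ j ∈ B, F i j a := by
  have h1 : ∀ i, ∑ j ∈ B, ∑ a ∈ C, F i j a = ∑ a ∈ C, ∑ j ∈ B, F i j a := fun i =>
    Finset.sum_comm
  simp only [h1]
  exact Finset.sum_comm

/-- The total number of zeros. -/
theorem total (hf : Continuous f) (hg : Continuous g) (hL : 0 < L) (hK0 : 0 < K0)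
    (hfK : ∀ t, |f t| ≤ K0) (hgK : ∀ t, |g t| ≤ K0)
    (h : Eigen (fun p => f p.1 + g p.2) L 0 lam φ) (hG : Grid φ L n1 n2 d hx hy τ τ') (r : ℕ) :
    ∑ i ∈ Finset.range n1, ∑ j ∈ Finset.range n2, MM φ hx hy τ τ' r i j ≤
      (2 * r + 1) ^ 2 * (66 * (n1 * (2 * (2 * Real.pi) * Real.sqrt (2 * lam * K0) + 2) +
        n2 * (2 * L * Real.sqrt (2 * lam * K0) + 2))) := by
  obtain ⟨l1, l2⟩ := line_both hf hg hL hK0 hfK hgK h
  have hd := hG.hd
  have hx0 : 0 < hx := lt_of_lt_of_le (by positivity) hG.x1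
  have hy0 : 0 < hy := lt_of_lt_of_le (by positivity) hG.y1
  have hper : ∀ (m n : ℤ) (p : ℝ × ℝ), φ (p.1 + m * L, p.2 + n * (2 * Real.pi)) = φ p := by
    intro m n p
    have := per_all (L := L) (α := 0) (f := φ) h.perx h.pery m n p
    rwa [mul_zero, add_zero] at this
  -- one row
  have hv : ∑ i ∈ Finset.range n1, ∑ j ∈ Finset.range n2, vz φ hx hy τ τ' i j ≤
      n1 * (2 * (2 * Real.pi) * Real.sqrt (2 * lam * K0) + 2) := by
    have h1 : ∀ i ∈ Finset.range n1, ∑ j ∈ Finset.range n2, vz φ hx hy τ τ' i j ≤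
        2 * (2 * Real.pi) * Real.sqrt (2 * lam * K0) + 2 := by
      intro i _
      have fin := zs_fin (ψ := fun t => φ (τ + ((i : ℤ) : ℝ) * hx, t))
        (by positivity : 0 < 2 * Real.pi) fun a Z hZ => l2 _ a Z (hG.ne1 i) hZ
      have h2 := vz_sum (τ' := τ') hy0 fin 0 n2
      simp only [zero_add] at h2
      rw [h2]
      have h3 : τ' + ((n2 : ℤ) : ℝ) * hy = τ' + ((0 : ℤ) : ℝ) * hy + 2 * Real.pi := by
        rw [← hG.ey]
        push_cast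
        ring
      rw [h3]
      exact zc_le (ψ := fun t => φ (τ + ((i : ℤ) : ℝ) * hx, t)) (by positivity)
        (fun a Z hZ => l2 _ a Z (hG.ne1 i) hZ) _
    refine (Finset.sum_le_sum h1).trans (le_of_eq ?_)
    rw [Finset.sum_const, Finset.card_range, nsmul_eq_mul]
  have hh : ∑ i ∈ Finset.range n1, ∑ j ∈ Finset.range n2, hz φ hx hy τ τ' i j ≤
      n2 * (2 * L * Real.sqrt (2 * lam * K0) + 2) := by
    rw [Finset.sum_comm]
    have h1 : ∀ j ∈ Finset.range n2, ∑ i ∈ Finset.range n1, hz φ hx hy τ τ' i j ≤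
        2 * L * Real.sqrt (2 * lam * K0) + 2 := by
      intro j _
      have fin := zs_fin (ψ := fun t => φ (t, τ' + ((j : ℤ) : ℝ) * hy))
        hL fun a Z hZ => l1 _ a Z (hG.ne2 j) hZ
      have h2 := hz_sum (τ := τ) hx0 fin 0 n1
      simp only [zero_add] at h2
      rw [h2]
      have h3 : τ + ((n1 : ℤ) : ℝ) * hx = τ + ((0 : ℤ) : ℝ) * hx + L := by
        rw [← hG.ex]
        push_cast
        ring
      rw [h3]
      exact zc_le (ψ := fun t => φ (t, τ' + ((j : ℤ) : ℝ) * hy)) hL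
        (fun a Z hZ => l1 _ a Z (hG.ne2 j) hZ) _
    refine (Finset.sum_le_sum h1).trans (le_of_eq ?_)
    rw [Finset.sum_const, Finset.card_range, nsmul_eq_mul]
  -- blocks
  have hmm : ∑ i ∈ Finset.range n1, ∑ j ∈ Finset.range n2, mm φ hx hy τ τ' i j =
      66 * (∑ i ∈ Finset.range n1, ∑ j ∈ Finset.range n2, vz φ hx hy τ τ' i j +
        ∑ i ∈ Finset.range n1, ∑ j ∈ Finset.range n2, hz φ hx hy τ τ' i j) := by
    unfold mm
    rw [sum3]
    have h1 : ∀ l ∈ Finset.range 33, (∑ i ∈ Finset.range n1, ∑ j ∈ Finset.range n2,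
        (vz φ hx hy τ τ' (i + -16) (j + (-16 + l)) +
        vz φ hx hy τ τ' (i + 17) (j + (-16 + l)) + hz φ hx hy τ τ' (i + (-16 + l)) (j + -16) +
        hz φ hx hy τ τ' (i + (-16 + l)) (j + 17))) =
        2 * (∑ i ∈ Finset.range n1, ∑ j ∈ Finset.range n2, vz φ hx hy τ τ' i j +
        ∑ i ∈ Finset.range n1, ∑ j ∈ Finset.range n2, hz φ hx hy τ τ' i j) := by
      intro l _
      simp only [Finset.sum_add_distrib]
      rw [per_sum2 (vz_per1 hG hper) (vz_per2 hG hper), per_sum2 (vz_per1 hG hper)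
        (vz_per2 hG hper), per_sum2 (hz_per1 hG hper) (hz_per2 hG hper),
        per_sum2 (hz_per1 hG hper) (hz_per2 hG hper)]
      ring
    rw [Finset.sum_congr rfl h1, Finset.sum_const, Finset.card_range, nsmul_eq_mul]
    push_cast
    ring
  have hMM : ∑ i ∈ Finset.range n1, ∑ j ∈ Finset.range n2, MM φ hx hy τ τ' r i j =
      (2 * r + 1) ^ 2 * ∑ i ∈ Finset.range n1, ∑ j ∈ Finset.range n2, mm φ hx hy τ τ' i j := by
    unfold MM
    rw [sum3]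
    have h1 : ∀ a ∈ Finset.range (2 * r + 1), (∑ i ∈ Finset.range n1, ∑ j ∈ Finset.range n2,
        ∑ b ∈ Finset.range (2 * r + 1), mm φ hx hy τ τ' (i + (-r + a)) (j + (-r + b))) =
        (2 * r + 1) * ∑ i ∈ Finset.range n1, ∑ j ∈ Finset.range n2, mm φ hx hy τ τ' i j := by
      intro a _
      rw [sum3]
      have h2 : ∀ b ∈ Finset.range (2 * r + 1), (∑ i ∈ Finset.range n1, ∑ j ∈ Finset.range n2,
          mm φ hx hy τ τ' (i + (-r + a)) (j + (-r + b))) =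
          ∑ i ∈ Finset.range n1, ∑ j ∈ Finset.range n2, mm φ hx hy τ τ' i j := fun b _ =>
        per_sum2 (mm_per1 hG hper) (mm_per2 hG hper) _ _
      rw [Finset.sum_congr rfl h2, Finset.sum_const, Finset.card_range, nsmul_eq_mul]
      push_cast
      ring
    rw [Finset.sum_congr rfl h1, Finset.sum_const, Finset.card_range, nsmul_eq_mul]
    push_cast
    ring
  rw [hMM, hmm]
  refine mul_le_mul_of_nonneg_left ?_ (by positivity)
  refine mul_le_mul_of_nonneg_left (add_le_add hv hh) (by norm_num)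

end Pool.Agent.Sub70.LT
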